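import Mathlib

/-!
# Superlinear systems of rows without long alternations

For every `d` there are a number `n > 0` of letters and sets `R i`, `i < n`, of at least `d` rows
out of at most `n` rows such that, reading the rows one after the other and every row in
increasing order of the letters, no two letters alternate five times.
-/

namespace Pool.Agent.Q157.DSStruct

/-- The lexicographic order on pairs (row, letter). -/
def lx (t v t' v' : ℕ) : Prop := t < t' ∨ (t = t' ∧ v < v')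

theorem lx_le {t v t' v' : ℕ} (h : lx t v t' v') : t ≤ t' := by
  rcases h with h | h
  · exact h.le
  · exact h.1.le

/-- Systems: `s` special rows with `m` letters each; the letters of a special row have their first
occurrence there and at least `d` later ones. -/
structure Sys (d m s : ℕ) where
  M : ℕ
  N : ℕ
  τ : ℕ → ℕ
  val : ℕ → ℕ → ℕ
  O : ℕ → ℕ → Finset ℕ
  rows : Finset ℕ
  τ_lt : ∀ σ < s, τ σ < M
  τ_mono : ∀ σ σ', σ < σ' → σ' < s → τ σ < τ σ'
  val_lt : ∀ σ < s, ∀ j < m, val σ j < N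
  val_inj : ∀ σ < s, ∀ j < m, ∀ σ' < s, ∀ j' < m, val σ j = val σ' j' → σ = σ' ∧ j = j'
  val_mono : ∀ σ < s, ∀ j j', j < j' → j' < m → val σ j < val σ j'
  O_lt : ∀ σ < s, ∀ j < m, ∀ t ∈ O σ j, t < M
  later : ∀ σ < s, ∀ j < m, ∀ t ∈ O σ j, τ σ < t
  nonsp : ∀ σ < s, ∀ j < m, ∀ t ∈ O σ j, ∀ σ' < s, t ≠ τ σ'
  rest : ∀ σ < s, ∀ j j', j < j' → j' < m → ∀ t ∈ O σ j, ∀ t' ∈ O σ j', t' < t
  count : ∀ σ < s, ∀ j < m, d ≤ (O σ j).card
  free : ∀ σ < s, ∀ j < m, ∀ σ' < s, ∀ j' < m, ¬ (σ = σ' ∧ j = j') → ∀ t1 t2 t3 t4 t5,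
    (t1 = τ σ ∨ t1 ∈ O σ j) → (t2 = τ σ' ∨ t2 ∈ O σ' j') → (t3 = τ σ ∨ t3 ∈ O σ j) →
    (t4 = τ σ' ∨ t4 ∈ O σ' j') → (t5 = τ σ ∨ t5 ∈ O σ j) →
    lx t1 (val σ j) t2 (val σ' j') → lx t2 (val σ' j') t3 (val σ j) →
    lx t3 (val σ j) t4 (val σ' j') → lx t4 (val σ' j') t5 (val σ j) → False
  τ_rows : ∀ σ < s, τ σ ∈ rows
  O_rows : ∀ σ < s, ∀ j < m, ∀ t ∈ O σ j, t ∈ rows

/-- One row with `m` letters. -/
def base0 (m : ℕ) : Sys 0 m 1 where
  M := 1
  N := m
  τ := fun _ => 0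
  val := fun _ j => j
  O := fun _ _ => ∅
  rows := {0}
  τ_lt := fun _ _ => by norm_num
  τ_mono := fun σ σ' h h' => by omega
  val_lt := fun _ _ j hj => hj
  val_inj := fun σ hσ j _ σ' hσ' j' _ h => ⟨by omega, h⟩
  val_mono := fun _ _ j j' h _ => h
  O_lt := fun _ _ _ _ t ht => absurd ht (Finset.notMem_empty t)
  later := fun _ _ _ _ t ht => absurd ht (Finset.notMem_empty t)
  nonsp := fun _ _ _ _ t ht => absurd ht (Finset.notMem_empty t)
  rest := fun _ _ _ _ _ _ t ht => absurd ht (Finset.notMem_empty t)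
  count := fun _ _ _ _ => Nat.zero_le _
  free := by
    intro σ hσ j hj σ' hσ' j' hj' hne t1 t2 t3 t4 t5 h1 h2 h3 h4 h5 l1 l2 l3 l4
    simp only [Finset.notMem_empty, or_false] at h1 h2 h3 h4 h5
    subst h1 h2 h3
    simp only [lx, lt_self_iff_false, true_and, false_or] at l1 l2
    omega
  τ_rows := fun _ _ => by simp
  O_rows := fun _ _ _ _ t ht => absurd ht (Finset.notMem_empty t)

/-- `s` letters, each `d + 1` times in its own rows. -/
def base1 (d s : ℕ) : Sys d 1 s where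
  M := s * (d + 1)
  N := s
  τ := fun σ => σ * (d + 1)
  val := fun σ _ => σ
  O := fun σ _ => Finset.Ioc (σ * (d + 1)) (σ * (d + 1) + d)
  rows := Finset.range (s * (d + 1))
  τ_lt := fun σ hσ => by nlinarith
  τ_mono := fun σ σ' h h' => by nlinarith
  val_lt := fun σ hσ _ _ => hσ
  val_inj := fun σ hσ j hj σ' hσ' j' hj' h => ⟨h, by omega⟩
  val_mono := fun σ hσ j j' h h' => by omega
  O_lt := fun σ hσ j hj t ht => by
    rw [Finset.mem_Ioc] at ht
    nlinarith
  later := fun σ hσ j hj t ht => (Finset.mem_Ioc.1 ht).1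
  nonsp := fun σ hσ j hj t ht σ' hσ' h => by
    rw [Finset.mem_Ioc] at ht
    rcases lt_trichotomy σ σ' with h1 | h1 | h1
    · nlinarith
    · subst h1; omega
    · nlinarith
  rest := fun σ hσ j j' h h' => by omega
  count := fun σ hσ j hj => by simp
  free := by
    intro σ hσ j hj σ' hσ' j' hj' hne t1 t2 t3 t4 t5 h1 h2 h3 h4 h5 l1 l2 l3 l4
    have hne' : σ ≠ σ' := fun h => hne ⟨h, by omega⟩
    have a1 : σ * (d + 1) ≤ t1 := by
      rcases h1 with h | h
      · omega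
      · rw [Finset.mem_Ioc] at h; omega
    have a3 : t3 ≤ σ * (d + 1) + d := by
      rcases h3 with h | h
      · omega
      · rw [Finset.mem_Ioc] at h; omega
    have a2 : σ' * (d + 1) ≤ t2 ∧ t2 ≤ σ' * (d + 1) + d := by
      rcases h2 with h | h
      · omega
      · rw [Finset.mem_Ioc] at h; omega
    have b1 := lx_le l1
    have b2 := lx_le l2
    rcases lt_or_gt_of_ne hne' with h | h
    · nlinarith
    · nlinarith
  τ_rows := fun σ hσ => by rw [Finset.mem_range]; nlinarith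
  O_rows := fun σ hσ j hj t ht => by
    rw [Finset.mem_Ioc] at ht
    rw [Finset.mem_range]
    nlinarith

/-! ## The composition -/

theorem enc_lt {Q t a t' a' : ℕ} (ha : a < Q) (ha' : a' < Q) :
    t * Q + a < t' * Q + a' ↔ t < t' ∨ (t = t' ∧ a < a') := by
  constructor
  · intro h
    rcases lt_trichotomy t t' with h1 | h1 | h1
    · exact Or.inl h1
    · subst h1; exact Or.inr ⟨rfl, by omega⟩
    · exfalso
      have : (t' + 1) * Q ≤ t * Q := Nat.mul_le_mul_right Q h1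
      nlinarith
  · rintro (h | ⟨h, h'⟩)
    · have : (t + 1) * Q ≤ t' * Q := Nat.mul_le_mul_right Q h
      nlinarith
    · subst h; omega

theorem enc_le {Q t a t' a' : ℕ} (ha : a < Q) (ha' : a' < Q) :
    t * Q + a ≤ t' * Q + a' ↔ t < t' ∨ (t = t' ∧ a ≤ a') := by
  rw [← not_lt, enc_lt ha' ha]
  omega

theorem enc_inj {Q t a t' a' : ℕ} (ha : a < Q) (ha' : a' < Q)
    (h : t * Q + a = t' * Q + a') : t = t' ∧ a = a' := by
  have h1 := (enc_le ha ha').1 h.le
  have h2 := (enc_le ha' ha).1 h.ge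
  omega


section comp

variable {d m k sA : ℕ} (A : Sys d k sA) (B : Sys (d + 1) m k)

/-- Times of the composition. -/
def cτ (i : ℕ) : ℕ := A.τ (i / k) * (B.M + 1) + B.τ (i % k)

/-- Values of the composition. -/
def cval (i : ℕ) : ℕ → ℕ
  | 0 => A.val (i / k) (k - 1 - i % k)
  | j + 1 => A.N + (A.τ (i / k) * B.N + B.val (i % k) j)

/-- Later occurrences of the composition. -/
def cO (i : ℕ) : ℕ → Finset ℕ
  | 0 => insert (A.τ (i / k) * (B.M + 1) + B.M)
      ((A.O (i / k) (k - 1 - i % k)).image fun t => t * (B.M + 1) + B.M)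
  | j + 1 => (B.O (i % k) j).image fun t => A.τ (i / k) * (B.M + 1) + t

theorem occ0 {i T : ℕ} : (T = cτ A B i ∨ T ∈ cO A B i 0) ↔
    T = cτ A B i ∨ ∃ t, (t = A.τ (i / k) ∨ t ∈ A.O (i / k) (k - 1 - i % k)) ∧
      T = t * (B.M + 1) + B.M := by
  simp only [cO, Finset.mem_insert, Finset.mem_image]
  constructor
  · rintro (h | h | ⟨t, h, h'⟩)
    · exact Or.inl h
    · exact Or.inr ⟨_, Or.inl rfl, h⟩
    · exact Or.inr ⟨_, Or.inr h, h'.symm⟩
  · rintro (h | ⟨t, h | h, h'⟩)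
    · exact Or.inl h
    · subst h; exact Or.inr (Or.inl h')
    · exact Or.inr (Or.inr ⟨t, h, h'.symm⟩)

theorem occ1 {i j T : ℕ} : (T = cτ A B i ∨ T ∈ cO A B i (j + 1)) ↔
    ∃ t, (t = B.τ (i % k) ∨ t ∈ B.O (i % k) j) ∧ T = A.τ (i / k) * (B.M + 1) + t := by
  simp only [cO, cτ, Finset.mem_image]
  constructor
  · rintro (h | ⟨t, h, h'⟩)
    · exact ⟨_, Or.inl rfl, h⟩
    · exact ⟨_, Or.inr h, h'.symm⟩
  · rintro ⟨t, h | h, h'⟩
    · subst h; exact Or.inl h'
    · exact Or.inr ⟨t, h, h'.symm⟩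

theorem idx {i k s : ℕ} (h : i < s * k) : i / k < s ∧ i % k < k := by
  have hk : 0 < k := Nat.pos_of_ne_zero (by rintro rfl; simp at h)
  exact ⟨Nat.div_lt_of_lt_mul (by rwa [mul_comm] at h), Nat.mod_lt _ hk⟩

theorem idx_inj {i i' k : ℕ} (h1 : i / k = i' / k) (h2 : i % k = i' % k) : i = i' := by
  rw [← Nat.div_add_mod i k, ← Nat.div_add_mod i' k, h1, h2]

theorem idx_lt {i i' k : ℕ} (hk : 0 < k) (h : i < i') :
    i / k < i' / k ∨ (i / k = i' / k ∧ i % k < i' % k) := by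
  have h1 := Nat.div_add_mod i k
  have h2 := Nat.div_add_mod i' k
  have h3 : i / k ≤ i' / k := Nat.div_le_div_right h.le
  rcases h3.lt_or_eq with h4 | h4
  · exact Or.inl h4
  · refine Or.inr ⟨h4, ?_⟩
    rw [h4] at h1
    omega

theorem Aτ_inj {d k s : ℕ} (A : Sys d k s) {σ σ' : ℕ} (hσ : σ < s) (hσ' : σ' < s)
    (h : A.τ σ = A.τ σ') : σ = σ' := by
  rcases lt_trichotomy σ σ' with h1 | h1 | h1
  · have := A.τ_mono _ _ h1 hσ'; omega
  · exact h1
  · have := A.τ_mono _ _ h1 hσ; omega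

theorem A_later {d k s : ℕ} (A : Sys d k s) {σ j t : ℕ} (hσ : σ < s) (hj : j < k)
    (h : t = A.τ σ ∨ t ∈ A.O σ j) : A.τ σ ≤ t := by
  rcases h with h | h
  · exact h.ge
  · exact (A.later σ hσ j hj t h).le

theorem A_lt {d k s : ℕ} (A : Sys d k s) {σ j t : ℕ} (hσ : σ < s) (hj : j < k)
    (h : t = A.τ σ ∨ t ∈ A.O σ j) : t < A.M := by
  rcases h with h | h
  · rw [h]; exact A.τ_lt σ hσ
  · exact A.O_lt σ hσ j hj t h

/-- Occurrences of a letter of the first kind are not before the special row. -/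
theorem c_later {i T : ℕ} (hi : i < sA * k) (h : T = cτ A B i ∨ T ∈ cO A B i 0) :
    cτ A B i ≤ T := by
  obtain ⟨h1, h2⟩ := idx hi
  have hb := B.τ_lt _ h2
  rcases (occ0 A B).1 h with h | ⟨t, ht, h⟩
  · exact h.ge
  · rw [h]
    unfold cτ
    rw [enc_le (by omega) (by omega)]
    have h3 := A_later A h1 (by omega : k - 1 - i % k < k) ht
    omega

theorem free_BB {i j i' j' : ℕ} (hi : i < sA * k) (hj : j < m) (hi' : i' < sA * k) (hj' : j' < m)
    (hne : ¬ (i = i' ∧ j = j')) (t1 t2 t3 t4 t5 : ℕ)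
    (h1 : t1 = cτ A B i ∨ t1 ∈ cO A B i (j + 1)) (h2 : t2 = cτ A B i' ∨ t2 ∈ cO A B i' (j' + 1))
    (h3 : t3 = cτ A B i ∨ t3 ∈ cO A B i (j + 1)) (h4 : t4 = cτ A B i' ∨ t4 ∈ cO A B i' (j' + 1))
    (h5 : t5 = cτ A B i ∨ t5 ∈ cO A B i (j + 1))
    (l1 : lx t1 (cval A B i (j + 1)) t2 (cval A B i' (j' + 1)))
    (l2 : lx t2 (cval A B i' (j' + 1)) t3 (cval A B i (j + 1)))
    (l3 : lx t3 (cval A B i (j + 1)) t4 (cval A B i' (j' + 1)))
    (l4 : lx t4 (cval A B i' (j' + 1)) t5 (cval A B i (j + 1))) : False := by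
  obtain ⟨a1, a2⟩ := idx hi
  obtain ⟨b1, b2⟩ := idx hi'
  obtain ⟨x1, h1, e1⟩ := (occ1 A B).1 h1
  obtain ⟨x2, h2, e2⟩ := (occ1 A B).1 h2
  obtain ⟨x3, h3, e3⟩ := (occ1 A B).1 h3
  obtain ⟨x4, h4, e4⟩ := (occ1 A B).1 h4
  obtain ⟨x5, h5, e5⟩ := (occ1 A B).1 h5
  have c1 := A_lt B a2 hj h1
  have c2 := A_lt B b2 hj' h2
  have c3 := A_lt B a2 hj h3
  have c4 := A_lt B b2 hj' h4
  have c5 := A_lt B a2 hj h5
  have hσ : i / k = i' / k := by
    apply Aτ_inj A a1 b1
    have m1 := lx_le l1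
    have m2 := lx_le l2
    rw [e1, e2, enc_le (by omega) (by omega)] at m1
    rw [e2, e3, enc_le (by omega) (by omega)] at m2
    omega
  have key : ∀ {u v w z : ℕ}, u < B.M → v < B.M →
      lx (A.τ (i / k) * (B.M + 1) + u) (A.N + (A.τ (i / k) * B.N + w))
        (A.τ (i / k) * (B.M + 1) + v) (A.N + (A.τ (i / k) * B.N + z)) → lx u w v z := by
    intro u v w z _ _ h
    unfold lx at *
    omega
  rw [e1, e2, cval, cval, ← hσ] at l1
  rw [e2, e3, cval, cval, ← hσ] at l2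
  rw [e3, e4, cval, cval, ← hσ] at l3
  rw [e4, e5, cval, cval, ← hσ] at l4
  exact B.free _ a2 _ hj _ b2 _ hj' (fun h => hne ⟨idx_inj hσ h.1, h.2⟩) x1 x2 x3 x4 x5
    h1 h2 h3 h4 h5 (key c1 c2 l1) (key c2 c3 l2) (key c3 c4 l3) (key c4 c5 l4)

theorem free_AB {i i' j' : ℕ} (hi : i < sA * k) (hi' : i' < sA * k) (hj' : j' < m)
    (t1 t2 t3 t4 : ℕ)
    (h1 : t1 = cτ A B i ∨ t1 ∈ cO A B i 0) (h2 : t2 = cτ A B i' ∨ t2 ∈ cO A B i' (j' + 1))
    (h3 : t3 = cτ A B i ∨ t3 ∈ cO A B i 0) (h4 : t4 = cτ A B i' ∨ t4 ∈ cO A B i' (j' + 1))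
    (l1 : lx t1 (cval A B i 0) t2 (cval A B i' (j' + 1)))
    (l2 : lx t2 (cval A B i' (j' + 1)) t3 (cval A B i 0))
    (l3 : lx t3 (cval A B i 0) t4 (cval A B i' (j' + 1))) : False := by
  obtain ⟨a1, a2⟩ := idx hi
  obtain ⟨b1, b2⟩ := idx hi'
  obtain ⟨x2, h2, e2⟩ := (occ1 A B).1 h2
  obtain ⟨x4, h4, e4⟩ := (occ1 A B).1 h4
  have c2 := A_lt B b2 hj' h2
  have c4 := A_lt B b2 hj' h4
  have hmin := c_later A B hi h1
  have m1 := lx_le l1
  have m2 := lx_le l2
  have m3 := lx_le l3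
  rcases (occ0 A B).1 h3 with h | ⟨t, ht, h⟩
  · -- `t3` is the first occurrence
    unfold lx at l1 l2
    omega
  · rw [e2, h, enc_le (by omega) (by omega)] at m2
    rw [e4, h, enc_le (by omega) (by omega)] at m3
    omega

theorem free_BA {i j i' : ℕ} (hi : i < sA * k) (hj : j < m) (hi' : i' < sA * k)
    (t1 t2 t3 t4 t5 : ℕ)
    (h1 : t1 = cτ A B i ∨ t1 ∈ cO A B i (j + 1)) (h2 : t2 = cτ A B i' ∨ t2 ∈ cO A B i' 0)
    (h4 : t4 = cτ A B i' ∨ t4 ∈ cO A B i' 0)
    (h5 : t5 = cτ A B i ∨ t5 ∈ cO A B i (j + 1))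
    (l1 : lx t1 (cval A B i (j + 1)) t2 (cval A B i' 0))
    (l2 : lx t2 (cval A B i' 0) t3 (cval A B i (j + 1)))
    (l3 : lx t3 (cval A B i (j + 1)) t4 (cval A B i' 0))
    (l4 : lx t4 (cval A B i' 0) t5 (cval A B i (j + 1))) : False := by
  obtain ⟨a1, a2⟩ := idx hi
  obtain ⟨b1, b2⟩ := idx hi'
  obtain ⟨x1, h1, e1⟩ := (occ1 A B).1 h1
  obtain ⟨x5, h5, e5⟩ := (occ1 A B).1 h5
  have c1 := A_lt B a2 hj h1
  have c5 := A_lt B a2 hj h5
  have hmin := c_later A B hi' h2
  have m1 := lx_le l1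
  have m2 := lx_le l2
  have m3 := lx_le l3
  have m4 := lx_le l4
  rcases (occ0 A B).1 h4 with h | ⟨t, ht, h⟩
  · unfold lx at l2 l3
    omega
  · have m14 : t1 ≤ t4 := by omega
    rw [e1, h, enc_le (by omega) (by omega)] at m14
    rw [e5, h, enc_le (by omega) (by omega)] at m4
    omega

/-- Two letters of the first kind in the same special row of `A`. -/
theorem free_AA_same {i i' : ℕ} (hi : i < sA * k) (hi' : i' < sA * k)
    (hσ : i / k = i' / k) (hne : i ≠ i') (t1 t2 t3 t4 t5 : ℕ)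
    (h1 : t1 = cτ A B i ∨ t1 ∈ cO A B i 0) (h2 : t2 = cτ A B i' ∨ t2 ∈ cO A B i' 0)
    (h3 : t3 = cτ A B i ∨ t3 ∈ cO A B i 0) (h4 : t4 = cτ A B i' ∨ t4 ∈ cO A B i' 0)
    (h5 : t5 = cτ A B i ∨ t5 ∈ cO A B i 0)
    (l1 : lx t1 (cval A B i 0) t2 (cval A B i' 0))
    (l2 : lx t2 (cval A B i' 0) t3 (cval A B i 0))
    (l3 : lx t3 (cval A B i 0) t4 (cval A B i' 0))
    (l4 : lx t4 (cval A B i' 0) t5 (cval A B i 0)) : False := by
  obtain ⟨a1, a2⟩ := idx hi
  obtain ⟨b1, b2⟩ := idx hi'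
  have hρ : i % k ≠ i' % k := fun h => hne (idx_inj hσ h)
  have n1 := c_later A B hi h1
  have n2 := c_later A B hi' h2
  have m1 := lx_le l1
  have m2 := lx_le l2
  have m3 := lx_le l3
  have m4 := lx_le l4
  have e0 : cτ A B i = A.τ (i / k) * (B.M + 1) + B.τ (i % k) := rfl
  have e0' : cτ A B i' = A.τ (i / k) * (B.M + 1) + B.τ (i' % k) := by rw [hσ]; rfl
  have v0 : cval A B i 0 = A.val (i / k) (k - 1 - i % k) := rfl
  have v0' : cval A B i' 0 = A.val (i / k) (k - 1 - i' % k) := by rw [hσ]; rfl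
  have hb := B.τ_lt _ a2
  have hb' := B.τ_lt _ b2
  rcases lt_or_gt_of_ne hρ with hr | hr
  · -- the first occurrence of `i` is before that of `i'`, the value of `i` is larger
    have hτ := B.τ_mono _ _ hr b2
    have hv : cval A B i' 0 < cval A B i 0 := by
      rw [v0, v0']
      exact A.val_mono _ a1 _ _ (by omega) (by omega)
    have p3 : t3 ≠ cτ A B i := by omega
    have p4 : t3 < t4 := by unfold lx at l3; omega
    obtain h | ⟨x3, h3, e3⟩ := (occ0 A B).1 h3
    · exact p3 h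
    have q3 := A_later A a1 (by omega : k - 1 - i % k < k) h3
    obtain h | ⟨x4, h4, e4⟩ := (occ0 A B).1 h4
    · have : A.τ (i / k) * (B.M + 1) ≤ x3 * (B.M + 1) := Nat.mul_le_mul_right _ q3
      omega
    rw [e3, e4, enc_lt (by omega) (by omega)] at p4
    rw [← hσ] at h4
    have h4' : x4 ∈ A.O (i / k) (k - 1 - i' % k) := by
      rcases h4 with h | h
      · omega
      · exact h
    obtain h | ⟨x5, h5, e5⟩ := (occ0 A B).1 h5
    · omega
    rw [e4, e5, enc_le (by omega) (by omega)] at m4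
    have h5' : x5 ∈ A.O (i / k) (k - 1 - i % k) := by
      rcases h5 with h | h
      · omega
      · exact h
    have := A.rest _ a1 (k - 1 - i' % k) (k - 1 - i % k) (by omega) (by omega) x4 h4' x5 h5'
    omega
  · have hτ := B.τ_mono _ _ hr a2
    have hv : cval A B i 0 < cval A B i' 0 := by
      rw [v0, v0']
      exact A.val_mono _ a1 _ _ (by omega) (by omega)
    have p2 : t2 ≠ cτ A B i' := by omega
    obtain h | ⟨x2, h2, e2⟩ := (occ0 A B).1 h2
    · exact absurd h p2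
    rw [← hσ] at h2
    have q2 := A_later A a1 (by omega : k - 1 - i' % k < k) h2
    have q2' : A.τ (i / k) * (B.M + 1) ≤ x2 * (B.M + 1) := Nat.mul_le_mul_right _ q2
    have p3 : t2 < t3 := by unfold lx at l2; omega
    obtain h | ⟨x3, h3, e3⟩ := (occ0 A B).1 h3
    · omega
    rw [e2, e3, enc_lt (by omega) (by omega)] at p3
    have h3' : x3 ∈ A.O (i / k) (k - 1 - i % k) := by
      rcases h3 with h | h
      · omega
      · exact h
    obtain h | ⟨x4, h4, e4⟩ := (occ0 A B).1 h4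
    · omega
    rw [← hσ] at h4
    rw [e3, e4, enc_le (by omega) (by omega)] at m3
    have h4' : x4 ∈ A.O (i / k) (k - 1 - i' % k) := by
      rcases h4 with h | h
      · omega
      · exact h
    have := A.rest _ a1 (k - 1 - i % k) (k - 1 - i' % k) (by omega) (by omega) x3 h3' x4 h4'
    omega

/-- The row of `A` of an occurrence. -/
theorem row_occ {i T : ℕ} (hi : i < sA * k) (h : T = cτ A B i ∨ T ∈ cO A B i 0) :
    ∃ t a, a < B.M + 1 ∧ T = t * (B.M + 1) + a ∧
      (t = A.τ (i / k) ∨ t ∈ A.O (i / k) (k - 1 - i % k)) ∧ (a ≠ B.M → t = A.τ (i / k)) := by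
  obtain ⟨a1, a2⟩ := idx hi
  rcases (occ0 A B).1 h with h | ⟨t, ht, h⟩
  · have hb := B.τ_lt _ a2
    exact ⟨_, _, by omega, h, Or.inl rfl, fun _ => rfl⟩
  · exact ⟨t, B.M, by omega, h, ht, fun h => absurd rfl h⟩

theorem free_AA_diff {i i' : ℕ} (hi : i < sA * k) (hi' : i' < sA * k)
    (hσ : i / k ≠ i' / k) (t1 t2 t3 t4 t5 : ℕ)
    (h1 : t1 = cτ A B i ∨ t1 ∈ cO A B i 0) (h2 : t2 = cτ A B i' ∨ t2 ∈ cO A B i' 0)
    (h3 : t3 = cτ A B i ∨ t3 ∈ cO A B i 0) (h4 : t4 = cτ A B i' ∨ t4 ∈ cO A B i' 0)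
    (h5 : t5 = cτ A B i ∨ t5 ∈ cO A B i 0)
    (l1 : lx t1 (cval A B i 0) t2 (cval A B i' 0))
    (l2 : lx t2 (cval A B i' 0) t3 (cval A B i 0))
    (l3 : lx t3 (cval A B i 0) t4 (cval A B i' 0))
    (l4 : lx t4 (cval A B i' 0) t5 (cval A B i 0)) : False := by
  obtain ⟨a1, a2⟩ := idx hi
  obtain ⟨b1, b2⟩ := idx hi'
  have ka : k - 1 - i % k < k := by omega
  have kb : k - 1 - i' % k < k := by omega
  obtain ⟨x1, y1, z1, e1, o1, f1⟩ := row_occ A B hi h1
  obtain ⟨x2, y2, z2, e2, o2, f2⟩ := row_occ A B hi' h2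
  obtain ⟨x3, y3, z3, e3, o3, f3⟩ := row_occ A B hi h3
  obtain ⟨x4, y4, z4, e4, o4, f4⟩ := row_occ A B hi' h4
  obtain ⟨x5, y5, z5, e5, o5, f5⟩ := row_occ A B hi h5
  have key : ∀ {x y x' y' v v' : ℕ}, y < B.M + 1 → y' < B.M + 1 →
      (x = A.τ (i / k) ∨ x ∈ A.O (i / k) (k - 1 - i % k)) →
      (x' = A.τ (i' / k) ∨ x' ∈ A.O (i' / k) (k - 1 - i' % k)) →
      (y ≠ B.M → x = A.τ (i / k)) → (y' ≠ B.M → x' = A.τ (i' / k)) →
      x = x' → y = B.M ∧ y' = B.M := by
    intro x y x' y' v v' hy hy' ho ho' hf hf' hxx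
    subst hxx
    have hnn : ¬ (x = A.τ (i / k)) := by
      intro h
      rcases ho' with h' | h'
      · exact hσ (Aτ_inj A a1 b1 (by omega))
      · exact A.nonsp _ b1 _ kb x h' _ a1 h
    have hnn' : ¬ (x = A.τ (i' / k)) := by
      intro h
      rcases ho with h' | h'
      · exact hσ (Aτ_inj A a1 b1 (by omega))
      · exact A.nonsp _ a1 _ ka x h' _ b1 h
    constructor
    · by_contra hc
      exact hnn (hf hc)
    · by_contra hc
      exact hnn' (hf' hc)
  have up : ∀ {x y x' y' v v' : ℕ}, y < B.M + 1 → y' < B.M + 1 →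
      (x = x' → y = B.M ∧ y' = B.M) →
      lx (x * (B.M + 1) + y) v (x' * (B.M + 1) + y') v' → lx x v x' v' := by
    intro x y x' y' v v' hy hy' hk hl
    rcases hl with h | ⟨h, h'⟩
    · rw [enc_lt hy hy'] at h
      rcases h with h | ⟨h, h'⟩
      · exact Or.inl h
      · have := hk h; omega
    · have := enc_inj hy hy' h
      exact Or.inr ⟨this.1, h'⟩
  have hv : cval A B i 0 = A.val (i / k) (k - 1 - i % k) := rfl
  have hv' : cval A B i' 0 = A.val (i' / k) (k - 1 - i' % k) := rfl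
  rw [e1, e2, hv, hv'] at l1
  rw [e2, e3, hv, hv'] at l2
  rw [e3, e4, hv, hv'] at l3
  rw [e4, e5, hv, hv'] at l4
  refine A.free _ a1 _ ka _ b1 _ kb (fun h => hσ h.1) x1 x2 x3 x4 x5 o1 o2 o3 o4 o5
    (up z1 z2 (key (v := 0) (v' := 0) z1 z2 o1 o2 f1 f2) l1) (up z2 z3 (fun h => ?_) l2)
    (up z3 z4 (key (v := 0) (v' := 0) z3 z4 o3 o4 f3 f4) l3) (up z4 z5 (fun h => ?_) l4)
  · exact (key (v := 0) (v' := 0) z3 z2 o3 o2 f3 f2 h.symm).symm
  · exact (key (v := 0) (v' := 0) z5 z4 o5 o4 f5 f4 h.symm).symm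

theorem cO_lt {i j : ℕ} (hi : i < sA * k) (hj : j < m + 1) {t : ℕ} (ht : t ∈ cO A B i j) :
    t < A.M * (B.M + 1) := by
  obtain ⟨a1, a2⟩ := idx hi
  have h0 := A.τ_lt _ a1
  have hle : ∀ {x y : ℕ}, x < A.M → y < B.M + 1 → x * (B.M + 1) + y < A.M * (B.M + 1) := by
    intro x y hx hy
    have : (x + 1) * (B.M + 1) ≤ A.M * (B.M + 1) := Nat.mul_le_mul_right _ hx
    nlinarith
  cases j with
  | zero =>
    simp only [cO, Finset.mem_insert, Finset.mem_image] at ht
    rcases ht with h | ⟨x, hx, h⟩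
    · rw [h]; exact hle h0 (by omega)
    · rw [← h]; exact hle (A.O_lt _ a1 _ (by omega) x hx) (by omega)
  | succ j =>
    simp only [cO, Finset.mem_image] at ht
    obtain ⟨x, hx, h⟩ := ht
    have := B.O_lt _ a2 _ (by omega) x hx
    rw [← h]; exact hle h0 (by omega)

/-- The composition. -/
noncomputable def compSys : Sys (d + 1) (m + 1) (sA * k) where
  M := A.M * (B.M + 1)
  N := A.N + A.M * B.N
  τ := cτ A B
  val := cval A B
  O := cO A B
  rows := (A.rows.image fun t => t * (B.M + 1) + B.M) ∪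
    ((Finset.range sA) ×ˢ B.rows).image fun p => A.τ p.1 * (B.M + 1) + p.2
  τ_lt := fun i hi => by
    obtain ⟨a1, a2⟩ := idx hi
    have h0 := A.τ_lt _ a1
    have h1 := B.τ_lt _ a2
    have : (A.τ (i / k) + 1) * (B.M + 1) ≤ A.M * (B.M + 1) := Nat.mul_le_mul_right _ h0
    unfold cτ
    nlinarith
  τ_mono := fun i i' h hi' => by
    obtain ⟨b1, b2⟩ := idx hi'
    obtain ⟨a1, a2⟩ := idx (h.trans hi')
    have h1 := B.τ_lt _ a2
    have h2 := B.τ_lt _ b2
    unfold cτ
    rw [enc_lt (by omega) (by omega)]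
    rcases idx_lt (by omega : 0 < k) h with h3 | ⟨h3, h4⟩
    · exact Or.inl (A.τ_mono _ _ h3 b1)
    · exact Or.inr ⟨by rw [h3], B.τ_mono _ _ h4 b2⟩
  val_lt := fun i hi j hj => by
    obtain ⟨a1, a2⟩ := idx hi
    cases j with
    | zero =>
      have := A.val_lt _ a1 (k - 1 - i % k) (by omega)
      simp only [cval]
      omega
    | succ j =>
      have h1 := B.val_lt _ a2 j (by omega)
      have h0 := A.τ_lt _ a1
      have : (A.τ (i / k) + 1) * B.N ≤ A.M * B.N := Nat.mul_le_mul_right _ h0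
      simp only [cval]
      nlinarith
  val_inj := fun i hi j hj i' hi' j' hj' h => by
    obtain ⟨a1, a2⟩ := idx hi
    obtain ⟨b1, b2⟩ := idx hi'
    cases j with
    | zero =>
      have h1 := A.val_lt _ a1 (k - 1 - i % k) (by omega)
      cases j' with
      | zero =>
        simp only [cval] at h
        have h2 := A.val_inj _ a1 _ (by omega) _ b1 _ (by omega) h
        exact ⟨idx_inj h2.1 (by omega), rfl⟩
      | succ j' =>
        simp only [cval] at h
        omega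
    | succ j =>
      have h1 := B.val_lt _ a2 j (by omega)
      cases j' with
      | zero =>
        have h1 := A.val_lt _ b1 (k - 1 - i' % k) (by omega)
        simp only [cval] at h
        omega
      | succ j' =>
        have h2 := B.val_lt _ b2 j' (by omega)
        simp only [cval] at h
        have h3 := enc_inj h1 h2 (Nat.add_left_cancel h)
        have h4 := Aτ_inj A a1 b1 h3.1
        have h5 := B.val_inj _ a2 _ (by omega) _ b2 _ (by omega) h3.2
        exact ⟨idx_inj h4 h5.1, by omega⟩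
  val_mono := fun i hi j j' h hj' => by
    obtain ⟨a1, a2⟩ := idx hi
    cases j' with
    | zero => omega
    | succ j' =>
      cases j with
      | zero =>
        have h1 := A.val_lt _ a1 (k - 1 - i % k) (by omega)
        simp only [cval]
        omega
      | succ j =>
        have := B.val_mono _ a2 j j' (by omega) (by omega)
        simp only [cval]
        omega
  O_lt := fun i hi j hj t ht => cO_lt A B hi hj ht
  later := fun i hi j hj t ht => by
    obtain ⟨a1, a2⟩ := idx hi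
    have hb := B.τ_lt _ a2
    cases j with
    | zero =>
      simp only [cO, Finset.mem_insert, Finset.mem_image] at ht
      unfold cτ
      rcases ht with h | ⟨x, hx, h⟩
      · omega
      · have := A.later _ a1 _ (by omega) x hx
        rw [← h, enc_lt (by omega) (by omega)]
        exact Or.inl this
    | succ j =>
      simp only [cO, Finset.mem_image] at ht
      obtain ⟨x, hx, h⟩ := ht
      have := B.later _ a2 _ (by omega) x hx
      unfold cτ
      omega
  nonsp := fun i hi j hj t ht i' hi' h' => by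
    obtain ⟨a1, a2⟩ := idx hi
    obtain ⟨b1, b2⟩ := idx hi'
    have hb := B.τ_lt _ b2
    unfold cτ at h'
    cases j with
    | zero =>
      simp only [cO, Finset.mem_insert, Finset.mem_image] at ht
      rcases ht with h | ⟨x, hx, h⟩
      · have := enc_inj (by omega) (by omega) (h.symm.trans h')
        omega
      · have := enc_inj (by omega) (by omega) (h.trans h')
        omega
    | succ j =>
      simp only [cO, Finset.mem_image] at ht
      obtain ⟨x, hx, h⟩ := ht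
      have h1 := B.O_lt _ a2 _ (by omega) x hx
      have h2 := enc_inj (by omega) (by omega) (h.trans h')
      exact B.nonsp _ a2 _ (by omega) x hx _ b2 h2.2
  rest := fun i hi j j' h hj' t ht t' ht' => by
    obtain ⟨a1, a2⟩ := idx hi
    cases j' with
    | zero => omega
    | succ j' =>
      simp only [cO, Finset.mem_image] at ht'
      obtain ⟨x', hx', h'⟩ := ht'
      have h1 := B.O_lt _ a2 _ (by omega) x' hx'
      cases j with
      | zero =>
        simp only [cO, Finset.mem_insert, Finset.mem_image] at ht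
        rcases ht with h2 | ⟨x, hx, h2⟩
        · omega
        · have := A.later _ a1 _ (by omega) x hx
          rw [← h2, ← h', enc_lt (by omega) (by omega)]
          exact Or.inl this
      | succ j =>
        simp only [cO, Finset.mem_image] at ht
        obtain ⟨x, hx, h2⟩ := ht
        have := B.rest _ a2 j j' (by omega) (by omega) x hx x' hx'
        omega
  count := fun i hi j hj => by
    obtain ⟨a1, a2⟩ := idx hi
    cases j with
    | zero =>
      simp only [cO]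
      rw [Finset.card_insert_of_notMem, Finset.card_image_of_injective]
      · have := A.count _ a1 (k - 1 - i % k) (by omega)
        omega
      · intro x y h
        exact (enc_inj (Nat.lt_succ_self _) (Nat.lt_succ_self _) h).1
      · intro h
        rw [Finset.mem_image] at h
        obtain ⟨x, hx, h⟩ := h
        have h1 := A.later _ a1 _ (by omega) x hx
        have h2 := (enc_inj (Nat.lt_succ_self _) (Nat.lt_succ_self _) h).1
        omega
    | succ j =>
      simp only [cO]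
      rw [Finset.card_image_of_injective]
      · exact B.count _ a2 j (by omega)
      · intro x y h
        simp only at h
        omega
  free := by
    intro i hi j hj i' hi' j' hj' hne t1 t2 t3 t4 t5 h1 h2 h3 h4 h5 l1 l2 l3 l4
    cases j with
    | zero =>
      cases j' with
      | zero =>
        have hne' : i ≠ i' := fun h => hne ⟨h, rfl⟩
        by_cases hσ : i / k = i' / k
        · exact free_AA_same A B hi hi' hσ hne' t1 t2 t3 t4 t5 h1 h2 h3 h4 h5 l1 l2 l3 l4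
        · exact free_AA_diff A B hi hi' hσ t1 t2 t3 t4 t5 h1 h2 h3 h4 h5 l1 l2 l3 l4
      | succ j' => exact free_AB A B hi hi' (by omega) t1 t2 t3 t4 h1 h2 h3 h4 l1 l2 l3
    | succ j =>
      cases j' with
      | zero => exact free_BA A B hi (by omega) hi' t1 t2 t3 t4 t5 h1 h2 h4 h5 l1 l2 l3 l4
      | succ j' =>
        exact free_BB A B hi (by omega) hi' (by omega) (fun h => hne ⟨h.1, by omega⟩)
          t1 t2 t3 t4 t5 h1 h2 h3 h4 h5 l1 l2 l3 l4
  τ_rows := fun i hi => by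
    obtain ⟨a1, a2⟩ := idx hi
    refine Finset.mem_union_right _ (Finset.mem_image.2 ⟨(i / k, B.τ (i % k)), ?_, rfl⟩)
    exact Finset.mem_product.2 ⟨Finset.mem_range.2 a1, B.τ_rows _ a2⟩
  O_rows := fun i hi j hj t ht => by
    obtain ⟨a1, a2⟩ := idx hi
    cases j with
    | zero =>
      refine Finset.mem_union_left _ (Finset.mem_image.2 ?_)
      simp only [cO, Finset.mem_insert, Finset.mem_image] at ht
      rcases ht with h | ⟨x, hx, h⟩
      · exact ⟨_, A.τ_rows _ a1, h.symm⟩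
      · exact ⟨x, A.O_rows _ a1 _ (by omega) x hx, h⟩
    | succ j =>
      simp only [cO, Finset.mem_image] at ht
      obtain ⟨x, hx, h⟩ := ht
      refine Finset.mem_union_right _ (Finset.mem_image.2 ⟨(i / k, x), ?_, h⟩)
      exact Finset.mem_product.2 ⟨Finset.mem_range.2 a1, B.O_rows _ a2 _ (by omega) x hx⟩

theorem compSys_rows : (compSys A B).rows.card ≤ A.rows.card + sA * B.rows.card := by
  refine (Finset.card_union_le _ _).trans (Nat.add_le_add Finset.card_image_le ?_)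
  refine Finset.card_image_le.trans ?_
  rw [Finset.card_product, Finset.card_range]

end comp

/-! ## Existence -/

/-- Systems with few rows exist. -/
theorem exists_sys (d : ℕ) : ∀ c : ℕ, ∃ m₀ : ℕ, 1 ≤ m₀ ∧ ∀ m, m₀ ≤ m →
    ∃ s : ℕ, 0 < s ∧ ∃ A : Sys d m s, c * A.rows.card ≤ s * m := by
  induction d with
  | zero =>
    intro c
    exact ⟨c + 1, by omega, fun m hm => ⟨1, one_pos, base0 m, by
      change c * ({0} : Finset ℕ).card ≤ 1 * m
      simp
      omega⟩⟩
  | succ d ih =>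
    intro c
    obtain ⟨k₀, hk₀, hA⟩ := ih (2 * c)
    -- the invariant
    have key : ∀ m, 1 ≤ m → ∃ s : ℕ, k₀ ≤ s ∧ ∃ C : Sys (d + 1) m s,
        2 * c * C.rows.card ≤ (2 * c * (d + 2) + m) * s := by
      intro m hm
      induction m, hm using Nat.le_induction with
      | base =>
        refine ⟨k₀, le_rfl, base1 (d + 1) k₀, ?_⟩
        change 2 * c * (Finset.range (k₀ * (d + 1 + 1))).card ≤ _
        rw [Finset.card_range]
        nlinarith
      | succ m hm ihm =>
        obtain ⟨k, hk, B, hB⟩ := ihm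
        obtain ⟨sA, hsA, A, hA⟩ := hA k hk
        refine ⟨sA * k, ?_, compSys A B, ?_⟩
        · nlinarith
        · have h1 := compSys_rows A B
          calc 2 * c * (compSys A B).rows.card ≤ 2 * c * (A.rows.card + sA * B.rows.card) :=
                Nat.mul_le_mul_left _ h1
            _ = 2 * c * A.rows.card + sA * (2 * c * B.rows.card) := by ring
            _ ≤ sA * k + sA * ((2 * c * (d + 2) + m) * k) :=
                Nat.add_le_add hA (Nat.mul_le_mul_left _ hB)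
            _ = (2 * c * (d + 2) + (m + 1)) * (sA * k) := by ring
    refine ⟨2 * c * (d + 2) + 1, by omega, fun m hm => ?_⟩
    obtain ⟨s, hs, C, hC⟩ := key m (by omega)
    refine ⟨s, by omega, C, ?_⟩
    have h1 : (2 * c * (d + 2) + m) * s ≤ (2 * m) * s := Nat.mul_le_mul_right _ (by omega)
    have h2 : 2 * (c * C.rows.card) ≤ 2 * (s * m) := by
      calc 2 * (c * C.rows.card) = 2 * c * C.rows.card := by ring
        _ ≤ (2 * m) * s := hC.trans h1
        _ = 2 * (s * m) := by ring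
    omega

/-- **Superlinear systems of rows.** -/
theorem exists_rows (d : ℕ) : ∃ (n : ℕ) (R : ℕ → Finset ℕ), 0 < n ∧
    (∀ i < n, (∀ t ∈ R i, t < n) ∧ d ≤ (R i).card) ∧
    ∀ i < n, ∀ i' < n, i ≠ i' → ∀ t1 ∈ R i, ∀ t2 ∈ R i', ∀ t3 ∈ R i, ∀ t4 ∈ R i', ∀ t5 ∈ R i,
      lx t1 i t2 i' → lx t2 i' t3 i → lx t3 i t4 i' → lx t4 i' t5 i → False := by
  classical
  obtain ⟨m₀, hm₀, h⟩ := exists_sys d 1
  obtain ⟨s, hs, A, hA⟩ := h m₀ le_rfl
  rw [one_mul] at hA
  -- the values
  let V : Finset ℕ := ((Finset.range s) ×ˢ (Finset.range m₀)).image fun p => A.val p.1 p.2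
  have hV : V.card = s * m₀ := by
    rw [Finset.card_image_of_injOn, Finset.card_product, Finset.card_range, Finset.card_range]
    rintro ⟨σ, j⟩ hp ⟨σ', j'⟩ hp' he
    simp only [Finset.coe_product, Finset.coe_range, Set.mem_prod, Set.mem_Iio] at hp hp'
    have := A.val_inj σ hp.1 j hp.2 σ' hp'.1 j' hp'.2 he
    exact Prod.ext this.1 this.2
  let v : Fin (s * m₀) ↪o ℕ := V.orderEmbOfFin hV
  have hv : ∀ i : Fin (s * m₀), ∃ σ j, σ < s ∧ j < m₀ ∧ A.val σ j = v i := by
    intro i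
    have h1 : v i ∈ V := V.orderEmbOfFin_mem hV i
    obtain ⟨p, hp, he⟩ := Finset.mem_image.1 h1
    rw [Finset.mem_product, Finset.mem_range, Finset.mem_range] at hp
    exact ⟨p.1, p.2, hp.1, hp.2, he⟩
  choose σ j hσ hj hval using hv
  let rk : ℕ → ℕ := fun t => (A.rows.filter (· < t)).card
  have rk_mono : ∀ t t', t ≤ t' → rk t ≤ rk t' := fun t t' h =>
    Finset.card_le_card fun x hx => by
      rw [Finset.mem_filter] at hx ⊢
      exact ⟨hx.1, by omega⟩
  have rk_lt : ∀ t ∈ A.rows, ∀ t', t < t' → rk t < rk t' := by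
    intro t ht t' h
    apply Finset.card_lt_card
    rw [Finset.ssubset_iff_of_subset]
    · exact ⟨t, Finset.mem_filter.2 ⟨ht, h⟩, fun h' => by
        rw [Finset.mem_filter] at h'; omega⟩
    · intro x hx
      rw [Finset.mem_filter] at hx ⊢
      exact ⟨hx.1, by omega⟩
  have rk_inj : ∀ t ∈ A.rows, ∀ t' ∈ A.rows, rk t = rk t' → t = t' := by
    intro t ht t' ht' h
    rcases lt_trichotomy t t' with h1 | h1 | h1
    · have := rk_lt t ht t' h1; omega
    · exact h1
    · have := rk_lt t' ht' t h1; omega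
  have rk_bd : ∀ t ∈ A.rows, rk t < A.rows.card := by
    intro t ht
    apply Finset.card_lt_card
    rw [Finset.ssubset_iff_of_subset (Finset.filter_subset _ _)]
    exact ⟨t, ht, fun h' => by rw [Finset.mem_filter] at h'; omega⟩
  let occ : Fin (s * m₀) → Finset ℕ := fun i => insert (A.τ (σ i)) (A.O (σ i) (j i))
  have hocc : ∀ i, ∀ t ∈ occ i, t ∈ A.rows := by
    intro i t ht
    rcases Finset.mem_insert.1 ht with h | h
    · rw [h]; exact A.τ_rows _ (hσ i)
    · exact A.O_rows _ (hσ i) _ (hj i) t h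
  refine ⟨s * m₀, fun i => if hi : i < s * m₀ then (occ ⟨i, hi⟩).image rk else ∅,
    Nat.mul_pos hs hm₀, ?_, ?_⟩
  · intro i hi
    simp only [dif_pos hi]
    constructor
    · intro t ht
      obtain ⟨x, hx, rfl⟩ := Finset.mem_image.1 ht
      exact (rk_bd x (hocc _ x hx)).trans_le hA
    · rw [Finset.card_image_of_injOn]
      · have h1 := A.count _ (hσ ⟨i, hi⟩) _ (hj ⟨i, hi⟩)
        exact h1.trans (Finset.card_le_card (Finset.subset_insert _ _))
      · intro x hx y hy hxy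
        exact rk_inj x (hocc _ x hx) y (hocc _ y hy) hxy
  · intro i hi i' hi' hne t1 ht1 t2 ht2 t3 ht3 t4 ht4 t5 ht5 l1 l2 l3 l4
    simp only [dif_pos hi] at ht1 ht3 ht5
    simp only [dif_pos hi'] at ht2 ht4
    obtain ⟨x1, h1, rfl⟩ := Finset.mem_image.1 ht1
    obtain ⟨x2, h2, rfl⟩ := Finset.mem_image.1 ht2
    obtain ⟨x3, h3, rfl⟩ := Finset.mem_image.1 ht3
    obtain ⟨x4, h4, rfl⟩ := Finset.mem_image.1 ht4
    obtain ⟨x5, h5, rfl⟩ := Finset.mem_image.1 ht5
    have up : ∀ (a b : Fin (s * m₀)), ∀ x ∈ occ a, ∀ y ∈ occ b,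
        lx (rk x) a.1 (rk y) b.1 → lx x (v a) y (v b) := by
      intro a b x hx y hy hl
      rcases hl with h | ⟨h, h'⟩
      · left
        by_contra hc
        have := rk_mono y x (by omega)
        omega
      · right
        exact ⟨rk_inj x (hocc _ x hx) y (hocc _ y hy) h, v.strictMono h'⟩
    have l1' := up ⟨i, hi⟩ ⟨i', hi'⟩ x1 h1 x2 h2 l1
    have l2' := up ⟨i', hi'⟩ ⟨i, hi⟩ x2 h2 x3 h3 l2
    have l3' := up ⟨i, hi⟩ ⟨i', hi'⟩ x3 h3 x4 h4 l3
    have l4' := up ⟨i', hi'⟩ ⟨i, hi⟩ x4 h4 x5 h5 l4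
    rw [← hval, ← hval] at l1' l2' l3' l4'
    refine A.free _ (hσ ⟨i, hi⟩) _ (hj ⟨i, hi⟩) _ (hσ ⟨i', hi'⟩) _ (hj ⟨i', hi'⟩) ?_
      x1 x2 x3 x4 x5 (Finset.mem_insert.1 h1) (Finset.mem_insert.1 h2) (Finset.mem_insert.1 h3)
      (Finset.mem_insert.1 h4) (Finset.mem_insert.1 h5) l1' l2' l3' l4'
    rintro ⟨e1, e2⟩
    apply hne
    have h6 : v ⟨i, hi⟩ = v ⟨i', hi'⟩ := by rw [← hval, ← hval, e1, e2]
    exact congrArg Fin.val (v.injective h6)

end Pool.Agent.Q157.DSStruct
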