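import Mathlib
import Pool.Agent.Q157.DSStruct
import Pool.Agent.H507R3.RamAll

/-!
# Long `ababa`-free sets of positions

If `L² ≤ C m` and `L` is large, then every word of length `m` has an `ababa`-free subsequence of
length `L`.
-/

namespace Pool.Agent.Q157.AltFree

open Pool.Agent.Q157.DSStruct Finset

/-- `I` is a set of positions without `ababa`. -/
def AF (u : ℕ → ℕ) (I : Finset ℕ) : Prop :=
  ∀ i1 ∈ I, ∀ i2 ∈ I, ∀ i3 ∈ I, ∀ i4 ∈ I, ∀ i5 ∈ I, i1 < i2 → i2 < i3 → i3 < i4 → i4 < i5 →
    u i1 = u i3 → u i3 = u i5 → u i2 = u i4 → u i1 = u i2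

/-- Greedy cells. -/
theorem greedy (u : ℕ → ℕ) (H : ℕ) (hH : 1 ≤ H) : ∀ m : ℕ, ∃ (q : ℕ) (cell l : ℕ → ℕ),
    Monotone cell ∧ (∀ p, m ≤ p → cell p = q) ∧ (∀ i < q, ∀ j < q, l i = l j → i = j) ∧
    (∀ i < q, H ≤ ((range m).filter fun p => cell p = i ∧ u p = l i).card) ∧
    (∀ a, (∀ i < q, l i ≠ a) → ∀ j,
      ((range m).filter fun p => cell p = j ∧ u p = a).card < H) := by
  intro m
  induction m with
  | zero =>
    refine ⟨0, fun _ => 0, fun _ => 0, fun _ _ _ => le_rfl, fun _ _ => rfl, ?_, ?_, ?_⟩
    · intro i hi; omega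
    · intro i hi; omega
    · intro a _ j
      simp
      omega
  | succ m ih =>
    obtain ⟨q, cell, l, hmono, hlast, hinj, hbig, hsmall⟩ := ih
    have hcm : cell m = q := hlast m le_rfl
    by_cases hcase : (∀ i < q, l i ≠ u m) ∧
        H ≤ ((range (m + 1)).filter fun p => cell p = q ∧ u p = u m).card
    · refine ⟨q + 1, fun p => if p ≤ m then cell p else q + 1, Function.update l q (u m),
        ?_, ?_, ?_, ?_, ?_⟩
      · intro p p' h
        dsimp only
        split_ifs with h1 h2
        · exact hmono h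
        · have := hmono (show p ≤ max p m from le_max_left _ _)
          rw [hlast (max p m) (le_max_right _ _)] at this
          omega
        · omega
        · exact le_rfl
      · intro p hp
        dsimp only
        rw [if_neg (by omega)]
      · intro i hi j hj h
        rcases Nat.lt_succ_iff_lt_or_eq.1 hi with h1 | h1 <;>
          rcases Nat.lt_succ_iff_lt_or_eq.1 hj with h2 | h2
        · rw [Function.update_of_ne (by omega), Function.update_of_ne (by omega)] at h
          exact hinj i h1 j h2 h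
        · rw [h2, Function.update_self, Function.update_of_ne (by omega)] at h
          exact absurd h (hcase.1 i h1)
        · rw [h1, Function.update_self, Function.update_of_ne (by omega)] at h
          exact absurd h.symm (hcase.1 j h2)
        · omega
      · intro i hi
        rcases Nat.lt_succ_iff_lt_or_eq.1 hi with h1 | h1
        · refine (hbig i h1).trans (card_le_card ?_)
          intro p hp
          rw [mem_filter, mem_range] at hp ⊢
          dsimp only
          rw [Function.update_of_ne (by omega), if_pos (by omega)]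
          exact ⟨by omega, hp.2⟩
        · rw [h1, Function.update_self]
          refine hcase.2.trans (card_le_card ?_)
          intro p hp
          rw [mem_filter, mem_range] at hp ⊢
          dsimp only
          rw [if_pos (by omega)]
          exact hp
      · intro a ha j
        have ha' : ∀ i < q, l i ≠ a := by
          intro i hi
          have := ha i (by omega)
          rwa [Function.update_of_ne (by omega)] at this
        have ham : u m ≠ a := by
          have := ha q (by omega)
          rwa [Function.update_self] at this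
        refine lt_of_le_of_lt (card_le_card ?_) (hsmall a ha' j)
        intro p hp
        rw [mem_filter, mem_range] at hp ⊢
        have hpm : p ≠ m := by rintro rfl; exact ham hp.2.2
        dsimp only at hp
        rw [if_pos (by omega)] at hp
        exact ⟨by omega, hp.2⟩
    · refine ⟨q, cell, l, hmono, fun p hp => hlast p (by omega), hinj, ?_, ?_⟩
      · intro i hi
        refine (hbig i hi).trans (card_le_card ?_)
        intro p hp
        rw [mem_filter, mem_range] at hp ⊢
        exact ⟨by omega, hp.2⟩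
      · intro a ha j
        by_cases h1 : u m = a ∧ j = q
        · obtain ⟨h1, rfl⟩ := h1
          subst h1
          by_contra hc
          exact hcase ⟨ha, by omega⟩
        · refine lt_of_le_of_lt (card_le_card ?_) (hsmall a ha j)
          intro p hp
          rw [mem_filter, mem_range] at hp ⊢
          have hpm : p ≠ m := by
            rintro rfl
            exact h1 ⟨hp.2.2, by omega⟩
          exact ⟨by omega, hp.2⟩

/-- The union of `AF` sets in separated intervals with separate letters. -/
theorem AF_union {u cell : ℕ → ℕ} (hmono : Monotone cell) {I J : Finset ℕ} {f : ℕ → ℕ}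
    (hf : Monotone f) (hI : AF u I) (hJ : AF u J)
    (hsep : ∀ p ∈ I, ∀ p' ∈ J, f (cell p) ≠ f (cell p') ∧ u p ≠ u p')
    (hcI : ∀ p ∈ I, ∀ p' ∈ I, u p = u p' → f (cell p) = f (cell p'))
    (hcJ : ∀ p ∈ J, ∀ p' ∈ J, u p = u p' → f (cell p) = f (cell p')) :
    AF u (I ∪ J) ∧ ∀ p ∈ I ∪ J, ∀ p' ∈ I ∪ J, u p = u p' → f (cell p) = f (cell p') := by
  have hc : ∀ p ∈ I ∪ J, ∀ p' ∈ I ∪ J, u p = u p' → f (cell p) = f (cell p') := by
    intro p hp p' hp' h
    rcases mem_union.1 hp with h1 | h1 <;> rcases mem_union.1 hp' with h2 | h2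
    · exact hcI p h1 p' h2 h
    · exact absurd h (hsep p h1 p' h2).2
    · exact absurd h.symm (hsep p' h2 p h1).2
    · exact hcJ p h1 p' h2 h
  refine ⟨?_, hc⟩
  intro i1 h1 i2 h2 i3 h3 i4 h4 i5 h5 l1 l2 l3 l4 e1 e2 e3
  have e13 := hc i1 h1 i3 h3 e1
  have e35 := hc i3 h3 i5 h5 e2
  have e24 := hc i2 h2 i4 h4 e3
  have m12 := hf (hmono l1.le)
  have m23 := hf (hmono l2.le)
  have m34 := hf (hmono l3.le)
  have m45 := hf (hmono l4.le)
  have e12 : f (cell i1) = f (cell i2) := by omega
  rcases mem_union.1 h1 with k1 | k1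
  · have hall : ∀ i ∈ I ∪ J, f (cell i) = f (cell i1) → i ∈ I := by
      intro i hi he
      rcases mem_union.1 hi with k | k
      · exact k
      · exact absurd he.symm (hsep i1 k1 i k).1
    exact hI i1 k1 i2 (hall _ h2 (by omega)) i3 (hall _ h3 (by omega)) i4 (hall _ h4 (by omega))
      i5 (hall _ h5 (by omega)) l1 l2 l3 l4 e1 e2 e3
  · have hall : ∀ i ∈ I ∪ J, f (cell i) = f (cell i1) → i ∈ J := by
      intro i hi he
      rcases mem_union.1 hi with k | k
      · exact absurd he (hsep i k i1 k1).1
      · exact k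
    exact hJ i1 k1 i2 (hall _ h2 (by omega)) i3 (hall _ h3 (by omega)) i4 (hall _ h4 (by omega))
      i5 (hall _ h5 (by omega)) l1 l2 l3 l4 e1 e2 e3

/-! ## The positions in a homogeneous window -/

theorem zset {n d : ℕ} {R : ℕ → Finset ℕ}
    (hR : ∀ i < n, (∀ t ∈ R i, t < n) ∧ d ≤ (R i).card)
    (hfree : ∀ i < n, ∀ i' < n, i ≠ i' → ∀ t1 ∈ R i, ∀ t2 ∈ R i', ∀ t3 ∈ R i, ∀ t4 ∈ R i',
      ∀ t5 ∈ R i, lx t1 i t2 i' → lx t2 i' t3 i → lx t3 i t4 i' → lx t4 i' t5 i → False)
    {u cell : ℕ → ℕ} (hmono : Monotone cell) (g c : ℕ → ℕ) (pos : ℕ → ℕ → ℕ)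
    (hg : ∀ i < n, ∀ i' < n, g i = g i' → i = i')
    (hc : ∀ k k', k < k' → k' < n → c k < c k')
    (hcell : ∀ k < n, ∀ i < n, cell (pos k i) = c k)
    (hu : ∀ k < n, ∀ i < n, u (pos k i) = g i)
    (hpos : ∀ k < n, ∀ i i', i < i' → i' < n → pos k i < pos k i') :
    AF u ((range n).biUnion fun i => (R i).image fun k => pos k i) ∧
      n * d ≤ ((range n).biUnion fun i => (R i).image fun k => pos k i).card := by
  have hlt : ∀ {k k' i i' : ℕ}, k < k' → k' < n → i < n → i' < n → pos k i < pos k' i' := by
    intro k k' i i' h hk' hi hi'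
    by_contra hcon
    have h1 := hmono (not_lt.1 hcon)
    rw [hcell k (h.trans hk') i hi, hcell k' hk' i' hi'] at h1
    have := hc k k' h hk'
    omega
  have key : ∀ {k k' i i' : ℕ}, k < n → k' < n → i < n → i' < n → pos k i < pos k' i' →
      lx k i k' i' := by
    intro k k' i i' hk hk' hi hi' h
    rcases lt_trichotomy k k' with h1 | h1 | h1
    · exact Or.inl h1
    · refine Or.inr ⟨h1, ?_⟩
      subst h1
      by_contra hcon
      rcases (not_lt.1 hcon).lt_or_eq with h2 | h2
      · have := hpos k hk i' i h2 hi; omega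
      · subst h2; omega
    · have := hlt (i := i') (i' := i) h1 hk hi' hi
      omega
  constructor
  · intro p1 h1 p2 h2 p3 h3 p4 h4 p5 h5 l1 l2 l3 l4 e1 e2 e3
    simp only [mem_biUnion, mem_range, mem_image] at h1 h2 h3 h4 h5
    obtain ⟨i1, hi1, k1, hk1, rfl⟩ := h1
    obtain ⟨i2, hi2, k2, hk2, rfl⟩ := h2
    obtain ⟨i3, hi3, k3, hk3, rfl⟩ := h3
    obtain ⟨i4, hi4, k4, hk4, rfl⟩ := h4
    obtain ⟨i5, hi5, k5, hk5, rfl⟩ := h5
    have n1 := (hR i1 hi1).1 k1 hk1
    have n2 := (hR i2 hi2).1 k2 hk2
    have n3 := (hR i3 hi3).1 k3 hk3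
    have n4 := (hR i4 hi4).1 k4 hk4
    have n5 := (hR i5 hi5).1 k5 hk5
    rw [hu k1 n1 i1 hi1, hu k3 n3 i3 hi3] at e1
    rw [hu k3 n3 i3 hi3, hu k5 n5 i5 hi5] at e2
    rw [hu k2 n2 i2 hi2, hu k4 n4 i4 hi4] at e3
    have f1 := hg _ hi1 _ hi3 e1
    have f2 := hg _ hi3 _ hi5 e2
    have f3 := hg _ hi2 _ hi4 e3
    subst f1 f2 f3
    rw [hu k1 n1 i1 hi1, hu k2 n2 i2 hi2]
    by_contra hcon
    exact hfree i1 hi1 i2 hi2 (fun h => hcon (by rw [h])) k1 hk1 k2 hk2 k3 hk3 k4 hk4 k5 hk5
      (key n1 n2 hi1 hi2 l1) (key n2 n3 hi2 hi1 l2) (key n3 n4 hi1 hi2 l3) (key n4 n5 hi2 hi1 l4)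
  · rw [card_biUnion]
    · calc n * d = ∑ _i ∈ range n, d := by simp
        _ ≤ _ := sum_le_sum fun i hi => by
          rw [mem_range] at hi
          rw [card_image_of_injOn]
          · exact (hR i hi).2
          · intro k hk k' hk' h
            have n1 := (hR i hi).1 k hk
            have n2 := (hR i hi).1 k' hk'
            rcases lt_trichotomy k k' with h1 | h1 | h1
            · have := hlt (i := i) (i' := i) h1 n2 hi hi
              simp only at h; omega
            · exact h1
            · have := hlt (i := i) (i' := i) h1 n1 hi hi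
              simp only at h; omega
    · intro i hi i' hi' hne
      rw [mem_coe, mem_range] at hi hi'
      change Disjoint _ _
      rw [disjoint_left]
      intro p hp hp'
      obtain ⟨k, hk, rfl⟩ := mem_image.1 hp
      obtain ⟨k', hk', h⟩ := mem_image.1 hp'
      have e1 := hu k ((hR i hi).1 k hk) i hi
      have e2 := hu k' ((hR i' hi').1 k' hk') i' hi'
      rw [h, e1] at e2
      exact hne (hg i hi i' hi' e2)

/-- **A window with many letters of large degree contains a long `AF` set.** -/
theorem window {n d : ℕ} {R : ℕ → Finset ℕ} (hn : 0 < n)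
    (hR : ∀ i < n, (∀ t ∈ R i, t < n) ∧ d ≤ (R i).card)
    (hfree : ∀ i < n, ∀ i' < n, i ≠ i' → ∀ t1 ∈ R i, ∀ t2 ∈ R i', ∀ t3 ∈ R i, ∀ t4 ∈ R i',
      ∀ t5 ∈ R i, lx t1 i t2 i' → lx t2 i' t3 i → lx t3 i t4 i' → lx t4 i' t5 i → False)
    (B : ℕ) : ∃ N₀ : ℕ, ∀ (u cell : ℕ → ℕ), Monotone cell → ∀ (w m : ℕ) (X : Finset ℕ),
      N₀ ≤ X.card →
      (∀ a ∈ X, 2 * n ≤
        ((univ : Finset (Fin B)).filter fun o : Fin B =>
          ∃ p < m, cell p = w * B + (o : ℕ) ∧ u p = a).card) →
      ∃ (Z L : Finset ℕ), AF u Z ∧ n * d ≤ Z.card ∧ (∀ p ∈ Z, p < m ∧ cell p / B = w) ∧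
        L ⊆ X ∧ L.card ≤ n ∧ ∀ p ∈ Z, u p ∈ L := by
  classical
  obtain ⟨N, hN⟩ := Pool.Agent.H507R3.RamAll.ramsey_gen ((Fin B → Bool) × (Fin B → Bool)) 2 (n + 1)
  refine ⟨N, fun u cell hmono w m X hX hdeg => ?_⟩
  let P : Fin B → ℕ → Prop := fun o a => ∃ p < m, cell p = w * B + o ∧ u p = a
  let ps : Fin B → ℕ → ℕ := fun o a => if h : P o a then h.choose else 0
  have hps : ∀ o a, P o a → ps o a < m ∧ cell (ps o a) = w * B + o ∧ u (ps o a) = a := by
    intro o a h
    simp only [ps, dif_pos h]
    exact h.choose_spec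
  obtain ⟨T, hTX, hT, ⟨k1, k2⟩, hk⟩ := hN X (fun l => (fun o => decide (P o (l.getD 0 0)),
    fun o => decide (ps o (l.getD 0 0) < ps o (l.getD 1 0)))) hX
  have hk' : ∀ a ∈ T, ∀ b ∈ T, a < b → (∀ o, P o a ↔ k1 o = true) ∧
      ∀ o, ps o a < ps o b ↔ k2 o = true := by
    intro a ha b hb hab
    have h1 := hk [a, b] rfl (by simpa using hab) (by
      intro x hx
      simp only [List.mem_cons, List.not_mem_nil, or_false] at hx
      rcases hx with rfl | rfl
      · exact ha
      · exact hb)
    simp only [List.getD_cons_zero, List.getD_cons_succ, Prod.mk.injEq] at h1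
    constructor
    · intro o
      rw [← congrFun h1.1 o]
      simp
    · intro o
      rw [← congrFun h1.2 o]
      simp
  let e : Fin (n + 1) ↪o ℕ := T.orderEmbOfFin hT
  have he : ∀ i, e i ∈ T := fun i => T.orderEmbOfFin_mem hT i
  have hPe : ∀ i : ℕ, ∀ hi : i < n, ∀ o, P o (e ⟨i, by omega⟩) ↔ k1 o = true := by
    intro i hi o
    exact (hk' _ (he ⟨i, by omega⟩) _ (he ⟨n, by omega⟩) (e.strictMono hi)).1 o
  -- many offsets
  let I0 : Finset (Fin B) := univ.filter fun o => k1 o = true
  have hI0 : 2 * n ≤ I0.card := by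
    have h1 := hdeg _ (hTX (he ⟨0, by omega⟩))
    refine h1.trans (card_le_card ?_)
    intro o ho
    rw [mem_filter] at ho ⊢
    exact ⟨ho.1, (hPe 0 hn o).1 ho.2⟩
  have hsplit := card_filter_add_card_filter_not (s := I0) (fun o => k2 o = true)
  have hfin : ∀ (b : Bool), n ≤ (I0.filter fun o => k2 o = b).card → ∃ (Z L : Finset ℕ), AF u Z ∧
      n * d ≤ Z.card ∧ (∀ p ∈ Z, p < m ∧ cell p / B = w) ∧
        L ⊆ X ∧ L.card ≤ n ∧ ∀ p ∈ Z, u p ∈ L := by
    intro b hb
    let f : Fin n ↪o Fin B := (I0.filter fun o => k2 o = b).orderEmbOfCardLe hb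
    have hf : ∀ k, f k ∈ I0.filter fun o => k2 o = b := fun k => orderEmbOfCardLe_mem _ hb k
    have hf1 : ∀ k, k1 (f k) = true := fun k => (mem_filter.1 (mem_filter.1 (hf k)).1).2
    have hf2 : ∀ k, k2 (f k) = b := fun k => (mem_filter.1 (hf k)).2
    -- the index of the `i`-th letter
    let ix : ℕ → ℕ := fun i => if b then i else n - 1 - i
    have hix : ∀ i < n, ix i < n := by
      intro i hi
      simp only [ix]
      split_ifs <;> omega
    let g : ℕ → ℕ := fun i => if h : i < n then e ⟨ix i, by have := hix i h; omega⟩ else 0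
    let c : ℕ → ℕ := fun k => if h : k < n then w * B + f ⟨k, h⟩ else 0
    let pos : ℕ → ℕ → ℕ := fun k i => if h : k < n then ps (f ⟨k, h⟩) (g i) else 0
    have hgT : ∀ i < n, g i ∈ T := by
      intro i hi
      simp only [g, dif_pos hi]
      exact he _
    have hg : ∀ i (hi : i < n), g i = e ⟨ix i, by have := hix i hi; omega⟩ := by
      intro i hi
      simp only [g, dif_pos hi]
    have hPg : ∀ k (hk : k < n), ∀ i < n, P (f ⟨k, hk⟩) (g i) := by
      intro k hk i hi
      rw [hg i hi, hPe (ix i) (hix i hi)]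
      exact hf1 _
    have hposp : ∀ k (hk : k < n), ∀ i < n, pos k i < m ∧ cell (pos k i) = w * B + f ⟨k, hk⟩ ∧
        u (pos k i) = g i := by
      intro k hk i hi
      have := hps _ _ (hPg k hk i hi)
      simp only [pos, dif_pos hk]
      exact this
    obtain ⟨h1, h2⟩ := zset hR hfree hmono g c pos (u := u) (by
      intro i hi i' hi' h
      rw [hg i hi, hg i' hi'] at h
      have h3 := e.injective h
      rw [Fin.mk.injEq] at h3
      simp only [ix] at h3
      split_ifs at h3 <;> omega) (by
      intro k k' h hk'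
      simp only [c, dif_pos hk', dif_pos (h.trans hk')]
      have : f ⟨k, h.trans hk'⟩ < f ⟨k', hk'⟩ := f.strictMono h
      have : (f ⟨k, h.trans hk'⟩ : ℕ) < f ⟨k', hk'⟩ := this
      omega) (by
      intro k hk i hi
      rw [(hposp k hk i hi).2.1]
      simp only [c, dif_pos hk]) (fun k hk i hi => (hposp k hk i hi).2.2) (by
      intro k hk i i' h hi'
      have hi : i < n := h.trans hi'
      simp only [pos, dif_pos hk]
      cases b with
      | true =>
        have hlt : g i < g i' := by
          rw [hg i hi, hg i' hi']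
          exact e.strictMono (by simp only [ix, if_true]; exact h)
        exact ((hk' _ (hgT i hi) _ (hgT i' hi') hlt).2 _).2 (hf2 _)
      | false =>
        have hlt : g i' < g i := by
          rw [hg i hi, hg i' hi']
          apply e.strictMono
          rw [Fin.mk_lt_mk]
          simp only [ix, Bool.false_eq_true, if_false]
          omega
        have h3 := (hk' _ (hgT i' hi') _ (hgT i hi) hlt).2 (f ⟨k, hk⟩)
        rw [hf2] at h3
        have h4 : ¬ ps (f ⟨k, hk⟩) (g i') < ps (f ⟨k, hk⟩) (g i) := fun h5 =>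
          absurd (h3.1 h5) (by simp)
        have h5 := (hps _ _ (hPg k hk i hi)).2.2
        have h6 := (hps _ _ (hPg k hk i' hi')).2.2
        have h7 : ps (f ⟨k, hk⟩) (g i) ≠ ps (f ⟨k, hk⟩) (g i') := by
          intro h8
          rw [h8, h6] at h5
          omega
        omega)
    refine ⟨_, (range n).image g, h1, h2, ?_, ?_, ?_, ?_⟩
    · intro p hp
      simp only [mem_biUnion, mem_range, mem_image] at hp
      obtain ⟨i, hi, k, hk, rfl⟩ := hp
      have hkn := (hR i hi).1 k hk
      have h3 := hposp k hkn i hi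
      refine ⟨h3.1, ?_⟩
      rw [h3.2.1]
      have hfB := (f ⟨k, hkn⟩).2
      have hB : 0 < B := by omega
      rw [mul_comm, Nat.mul_add_div hB, Nat.div_eq_of_lt hfB, add_zero]
    · intro a ha
      obtain ⟨i, hi, rfl⟩ := mem_image.1 ha
      exact hTX (hgT i (mem_range.1 hi))
    · exact card_image_le.trans (by rw [card_range])
    · intro p hp
      simp only [mem_biUnion, mem_range, mem_image] at hp
      obtain ⟨i, hi, k, hk, rfl⟩ := hp
      rw [(hposp k ((hR i hi).1 k hk) i hi).2.2]
      exact mem_image_of_mem _ (mem_range.2 hi)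
  by_cases hcase : n ≤ (I0.filter fun o => k2 o = true).card
  · exact hfin true hcase
  · apply hfin false
    have : (I0.filter fun o => ¬ k2 o = true) = I0.filter fun o => k2 o = false := by
      ext o
      simp
    rw [this] at hsplit
    omega

/-! ## The main counting argument -/

/-- **Long `AF` sets.** -/
theorem main (C : ℕ) (hC : 1 ≤ C) : ∃ L₀ : ℕ, ∀ L, L₀ ≤ L → ∀ m, L ^ 2 ≤ C * m →
    ∀ u : ℕ → ℕ, ∃ I ⊆ range m, AF u I ∧ L ≤ I.card := by
  classical
  obtain ⟨n, R, hn, hR, hfree⟩ := exists_rows (96 * (4 * C) ^ 2 * C)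
  let H := 4 * C
  have hHdef : H = 4 * C := rfl
  let B := 2 * n * H
  have hBdef : B = 2 * n * H := rfl
  obtain ⟨N₀, hN₀⟩ := window hn hR hfree B
  let G := 24 * H * B * C
  have hGdef : G = 24 * H * B * C := rfl
  have hHpos : 1 ≤ H := by omega
  have hBn : 2 * n ≤ B := by rw [hBdef]; nlinarith
  have hBpos : 1 ≤ B := by omega
  have hHB : 1 ≤ H * B := Nat.mul_pos hHpos hBpos
  have hGpos : 1 ≤ G := by
    rw [hGdef]
    have : 1 ≤ 24 * H * B := by nlinarith
    exact Nat.mul_pos this hC
  refine ⟨2 * G * (N₀ + 1), fun L hL m hm u => ?_⟩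
  by_contra hcon0
  have hcon : ∀ I ⊆ range m, AF u I → I.card < L := by
    intro I hI hAF
    by_contra h
    exact hcon0 ⟨I, hI, hAF, not_lt.1 h⟩
  have hL2G : 2 * G ≤ L := by nlinarith
  have hLpos : 0 < L := by omega
  obtain ⟨q, cell, l, hmono, hlast, hinj, hbig, hsmall⟩ := greedy u H hHpos m
  have hcq : ∀ p, p < m → cell p ≤ q := fun p hp => (hmono hp.le).trans (hlast m le_rfl).le
  -- (a) the clusters
  have ha : q * H < L := by
    let S : ℕ → Finset ℕ := fun i => (range m).filter fun p => cell p = i ∧ u p = l i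
    have hS : ∀ i p, p ∈ S i ↔ p < m ∧ cell p = i ∧ u p = l i := by
      intro i p; simp [S]
    have h1 : AF u ((range q).biUnion S) := by
      intro p1 h1 p2 h2 p3 h3 p4 h4 p5 h5 l1 l2 l3 l4 e1 e2 e3
      rw [mem_biUnion] at h1 h2 h3
      obtain ⟨i1, hi1, h1⟩ := h1
      obtain ⟨i2, hi2, h2⟩ := h2
      obtain ⟨i3, hi3, h3⟩ := h3
      rw [mem_range] at hi1 hi2 hi3
      rw [hS] at h1 h2 h3
      have h13 : i1 = i3 := hinj i1 hi1 i3 hi3 (by rw [← h1.2.2, ← h3.2.2, e1])
      have m12 := hmono l1.le
      have m23 := hmono l2.le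
      have h12 : i1 = i2 := by omega
      rw [h1.2.2, h2.2.2, h12]
    have h2 := hcon _ (by
      intro p hp
      rw [mem_biUnion] at hp
      obtain ⟨i, hi, hp⟩ := hp
      rw [hS] at hp
      exact mem_range.2 hp.1) h1
    refine lt_of_le_of_lt ?_ h2
    rw [card_biUnion]
    · calc q * H = ∑ _i ∈ range q, H := by simp
        _ ≤ _ := sum_le_sum fun i hi => hbig i (mem_range.1 hi)
    · intro i hi j hj hij
      change Disjoint _ _
      rw [disjoint_left]
      intro p hp hp'
      rw [hS] at hp hp'
      exact hij (hp.2.1.symm.trans hp'.2.1)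
  have hqL : q < L := by
    have : q * 1 ≤ q * H := Nat.mul_le_mul_left q hHpos
    omega
  -- (b) multiplicities
  have hb : ∀ a, ((range m).filter fun p => u p = a).card < L := by
    intro a
    apply hcon _ (filter_subset _ _)
    intro p1 h1 p2 h2 p3 h3 p4 h4 p5 h5 l1 l2 l3 l4 e1 e2 e3
    rw [mem_filter] at h1 h2
    rw [h1.2, h2.2]
  -- (c) the number of letters
  have hc : ((range m).image u).card < L := by
    have hch : ∀ a : ℕ, ∃ p, a ∈ (range m).image u → p < m ∧ u p = a := by
      intro a
      by_cases h : a ∈ (range m).image u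
      · obtain ⟨p, hp, rfl⟩ := mem_image.1 h
        exact ⟨p, fun _ => ⟨mem_range.1 hp, rfl⟩⟩
      · exact ⟨0, fun h' => absurd h' h⟩
    choose f hf using hch
    have h1 : (((range m).image u).image f).card = ((range m).image u).card := by
      rw [card_image_of_injOn]
      intro a ha b hb h
      rw [← (hf a ha).2, ← (hf b hb).2, h]
    rw [← h1]
    apply hcon
    · intro p hp
      obtain ⟨a, ha, rfl⟩ := mem_image.1 hp
      exact mem_range.2 (hf a ha).1
    · intro p1 h1 p2 h2 p3 h3 p4 h4 p5 h5 l1 l2 l3 l4 e1 e2 e3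
      obtain ⟨a1, ha1, rfl⟩ := mem_image.1 h1
      obtain ⟨a3, ha3, rfl⟩ := mem_image.1 h3
      rw [(hf _ ha1).2, (hf _ ha3).2] at e1
      rw [e1] at l1
      omega
  -- (d) occurrences of unused letters
  let Un := (range m).filter fun p => ∀ i < q, l i ≠ u p
  have hd1 : m ≤ Un.card + q * L := by
    have h1 := card_filter_add_card_filter_not (s := range m) (fun p => ∀ i < q, l i ≠ u p)
    rw [card_range] at h1
    have h2 : ((range m).filter fun p => ¬ ∀ i < q, l i ≠ u p).card ≤ q * L := by
      calc ((range m).filter fun p => ¬ ∀ i < q, l i ≠ u p).card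
          ≤ ((range q).biUnion fun i => (range m).filter fun p => u p = l i).card := by
            apply card_le_card
            intro p hp
            rw [mem_filter] at hp
            push Not at hp
            obtain ⟨hp, i, hi, h⟩ := hp
            exact mem_biUnion.2 ⟨i, mem_range.2 hi, mem_filter.2 ⟨hp, h.symm⟩⟩
        _ ≤ ∑ i ∈ range q, ((range m).filter fun p => u p = l i).card := card_biUnion_le
        _ ≤ ∑ _i ∈ range q, L := sum_le_sum fun i _ => (hb _).le
        _ = q * L := by simp
    have h3 : Un.card = ((range m).filter fun p => ∀ i < q, l i ≠ u p).card := rfl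
    omega
  have hqLm : 4 * (q * L) ≤ m := by
    have h1 : (q * H) * L ≤ L * L := Nat.mul_le_mul_right L ha.le
    have h2 : C * (4 * (q * L)) ≤ C * m := by
      calc C * (4 * (q * L)) = (q * H) * L := by rw [hHdef]; ring
        _ ≤ L * L := h1
        _ = L ^ 2 := by ring
        _ ≤ C * m := hm
    exact Nat.le_of_mul_le_mul_left h2 hC
  -- (e) incidences
  let Inc := Un.image fun p => (cell p, u p)
  have he : Un.card ≤ H * Inc.card := by
    apply card_le_mul_card_image
    intro x hx
    obtain ⟨p, hp, rfl⟩ := mem_image.1 hx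
    refine le_trans (card_le_card ?_) (hsmall (u p) (mem_filter.1 hp).2 (cell p)).le
    intro p' hp'
    rw [mem_filter] at hp' ⊢
    rw [Prod.mk.injEq] at hp'
    exact ⟨(mem_filter.1 hp'.1).1, hp'.2⟩
  have hInc : ∀ x ∈ Inc, x.1 ≤ q ∧ x.2 ∈ (range m).image u ∧
      ∃ p < m, cell p = x.1 ∧ u p = x.2 := by
    intro x hx
    obtain ⟨p, hp, rfl⟩ := mem_image.1 hx
    have hpm := mem_range.1 (mem_filter.1 hp).1
    exact ⟨hcq p hpm, mem_image_of_mem _ (mem_range.2 hpm), p, hpm, rfl, rfl⟩
  -- (f) windows
  let Win := Inc.image fun x => (x.1 / B, x.2)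
  let deg : ℕ × ℕ → ℕ := fun y => (Inc.filter fun x => (x.1 / B, x.2) = y).card
  let Rich := Win.filter fun y => 2 * n ≤ deg y
  have hWin : ∀ y ∈ Win, y.1 ∈ range (q / B + 1) ∧ y.2 ∈ (range m).image u := by
    intro y hy
    obtain ⟨x, hx, rfl⟩ := mem_image.1 hy
    have := hInc x hx
    exact ⟨mem_range.2 (Nat.lt_succ_of_le (Nat.div_le_div_right this.1)), this.2.1⟩
  have hWinc : Win.card ≤ (q / B + 1) * L := by
    have h1 : Win ⊆ range (q / B + 1) ×ˢ (range m).image u := fun y hy => by
      have := hWin y hy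
      exact mem_product.2 this
    have h2 := card_le_card h1
    rw [card_product, card_range] at h2
    exact h2.trans (Nat.mul_le_mul_left _ hc.le)
  have hdeg : ∀ y, deg y ≤ B := by
    intro y
    have h1 : (Inc.filter fun x => (x.1 / B, x.2) = y).card ≤ (range B).card := by
      apply card_le_card_of_injOn (fun x => x.1 % B)
      · intro x _
        exact mem_coe.2 (mem_range.2 (Nat.mod_lt _ hBpos))
      · intro x hx x' hx' h
        rw [mem_coe, mem_filter] at hx hx'
        have h1 := hx.2.trans hx'.2.symm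
        rw [Prod.mk.injEq] at h1
        exact Prod.ext (idx_inj h1.1 h) h1.2
    rwa [card_range] at h1
  have hf1 : Inc.card ≤ B * Rich.card + 2 * n * ((q / B + 1) * L) := by
    have h1 : Inc.card = ∑ y ∈ Win, deg y := card_eq_sum_card_image _ _
    have h2 := sum_filter_add_sum_filter_not Win (fun y => 2 * n ≤ deg y) deg
    have h3 : ∑ y ∈ Win.filter (fun y => 2 * n ≤ deg y), deg y ≤ B * Rich.card := by
      calc ∑ y ∈ Win.filter (fun y => 2 * n ≤ deg y), deg y
          ≤ ∑ _y ∈ Win.filter (fun y => 2 * n ≤ deg y), B := sum_le_sum fun y _ => hdeg y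
        _ = B * Rich.card := by rw [sum_const, smul_eq_mul, mul_comm]
    have h4 : ∑ y ∈ Win.filter (fun y => ¬ 2 * n ≤ deg y), deg y ≤ 2 * n * ((q / B + 1) * L) := by
      calc ∑ y ∈ Win.filter (fun y => ¬ 2 * n ≤ deg y), deg y
          ≤ ∑ _y ∈ Win.filter (fun y => ¬ 2 * n ≤ deg y), 2 * n := sum_le_sum fun y hy => by
            rw [mem_filter] at hy
            omega
        _ = (Win.filter (fun y => ¬ 2 * n ≤ deg y)).card * (2 * n) := by
            rw [sum_const, smul_eq_mul]
        _ ≤ ((q / B + 1) * L) * (2 * n) :=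
            Nat.mul_le_mul_right _ ((card_le_card (filter_subset _ _)).trans hWinc)
        _ = 2 * n * ((q / B + 1) * L) := by ring
    omega
  have hqB : B * (q / B) ≤ q := Nat.mul_div_le q B
  have h4BL : 4 * B * L ≤ m := by
    have h1 : C * (4 * B * L) ≤ L ^ 2 := by
      have h2 : 4 * B * C ≤ L := by
        have : 4 * B * C ≤ G := by
          rw [hGdef]
          have : 1 * (B * C) ≤ H * (B * C) := Nat.mul_le_mul_right _ hHpos
          nlinarith
        omega
      calc C * (4 * B * L) = (4 * B * C) * L := by ring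
        _ ≤ L * L := Nat.mul_le_mul_right _ h2
        _ = L ^ 2 := by ring
    exact Nat.le_of_mul_le_mul_left (h1.trans hm) hC
  have hrich : m ≤ 4 * H * B * Rich.card := by
    have h1 : 4 * (H * (2 * n * ((q / B + 1) * L))) ≤ 4 * (q * L) + 4 * B * L := by
      calc 4 * (H * (2 * n * ((q / B + 1) * L))) = 4 * (B * (q / B)) * L + 4 * B * L := by
            rw [hBdef]; ring
        _ ≤ 4 * q * L + 4 * B * L := by
            apply Nat.add_le_add_right
            exact Nat.mul_le_mul_right _ (Nat.mul_le_mul_left _ hqB)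
        _ = 4 * (q * L) + 4 * B * L := by ring
    have h2 : 4 * (H * Inc.card) ≤ 4 * (H * (B * Rich.card + 2 * n * ((q / B + 1) * L))) :=
      Nat.mul_le_mul_left _ (Nat.mul_le_mul_left _ hf1)
    have h3 : 4 * (H * (B * Rich.card + 2 * n * ((q / B + 1) * L))) =
        4 * H * B * Rich.card + 4 * (H * (2 * n * ((q / B + 1) * L))) := by ring
    omega
  -- (g) the selection
  let r := L / G
  have hrG : L ≤ 2 * (r * G) := by
    have h1 := Nat.div_add_mod L G
    have h2 := Nat.mod_lt L hGpos
    have h3 : r * G = G * (L / G) := mul_comm _ _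
    omega
  have hrG' : r * G ≤ L := Nat.div_mul_le_self L G
  have hsel : ∀ r' ≤ r, ∃ Z Wd Ld : Finset ℕ, Z ⊆ range m ∧ AF u Z ∧
      r' * (n * (96 * (4 * C) ^ 2 * C)) ≤ Z.card ∧ Wd.card ≤ r' ∧ Ld.card ≤ r' * n ∧
      (∀ p ∈ Z, cell p / B ∈ Wd ∧ u p ∈ Ld) ∧
      (∀ p ∈ Z, ∀ p' ∈ Z, u p = u p' → cell p / B = cell p' / B) := by
    intro r' hr'
    induction r' with
    | zero =>
      refine ⟨∅, ∅, ∅, by simp, ?_, by simp, by simp, by simp, by simp, by simp⟩
      intro p hp
      exact absurd hp (notMem_empty p)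
    | succ r' ih =>
      obtain ⟨Z, Wd, Ld, hZm, hZ, hZc, hWd, hLd, hZ1, hZ2⟩ := ih (by omega)
      -- a window with many fresh letters
      have hex : ∃ w, w ∉ Wd ∧ N₀ ≤ (((range m).image u).filter
          fun a => (w, a) ∈ Rich ∧ a ∉ Ld).card := by
        by_contra hno
        push Not at hno
        have h1 : Rich.card ≤ (q / B + 1) * N₀ + r' * L + (q / B + 1) * (r' * n) := by
          have hsub : Rich ⊆ ((range (q / B + 1)).filter (fun w => w ∉ Wd)).biUnion
                (fun w => (((range m).image u).filter fun a => (w, a) ∈ Rich ∧ a ∉ Ld).image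
                  fun a => (w, a)) ∪ (Wd ×ˢ (range m).image u ∪ range (q / B + 1) ×ˢ Ld) := by
            intro y hy
            have h2 := hWin y (mem_filter.1 hy).1
            rw [mem_union, mem_union]
            by_cases h3 : y.1 ∈ Wd
            · exact Or.inr (Or.inl (mem_product.2 ⟨h3, h2.2⟩))
            · by_cases h4 : y.2 ∈ Ld
              · exact Or.inr (Or.inr (mem_product.2 ⟨h2.1, h4⟩))
              · exact Or.inl (mem_biUnion.2 ⟨y.1, mem_filter.2 ⟨h2.1, h3⟩,
                  mem_image.2 ⟨y.2, mem_filter.2 ⟨h2.2, hy, h4⟩, rfl⟩⟩)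
          refine (card_le_card hsub).trans ((card_union_le _ _).trans ?_)
          have h2 : (((range (q / B + 1)).filter (fun w => w ∉ Wd)).biUnion
                (fun w => (((range m).image u).filter fun a => (w, a) ∈ Rich ∧ a ∉ Ld).image
                  fun a => (w, a))).card ≤ (q / B + 1) * N₀ := by
            refine card_biUnion_le.trans ?_
            calc _ ≤ ∑ _w ∈ (range (q / B + 1)).filter (fun w => w ∉ Wd), N₀ :=
                  sum_le_sum fun w hw => card_image_le.trans
                    (hno w (mem_filter.1 hw).2).le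
              _ = ((range (q / B + 1)).filter (fun w => w ∉ Wd)).card * N₀ := by
                  rw [sum_const, smul_eq_mul]
              _ ≤ (range (q / B + 1)).card * N₀ :=
                  Nat.mul_le_mul_right _ (card_le_card (filter_subset _ _))
              _ = (q / B + 1) * N₀ := by rw [card_range]
          have h3 : (Wd ×ˢ (range m).image u ∪ range (q / B + 1) ×ˢ Ld).card ≤
              r' * L + (q / B + 1) * (r' * n) := by
            refine (card_union_le _ _).trans ?_
            rw [card_product, card_product, card_range]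
            exact Nat.add_le_add (Nat.mul_le_mul hWd hc.le) (Nat.mul_le_mul_left _ hLd)
          omega
        have h2 : (q / B + 1) * N₀ ≤ L * N₀ := by
          apply Nat.mul_le_mul_right
          have : q / B ≤ q := Nat.div_le_self q B
          omega
        have h3 : (q / B + 1) * (r' * n) ≤ 2 * (r' * L) := by
          have h4 : (q / B + 1) * n ≤ 2 * L := by
            have h5 : (q / B) * n ≤ (q / B) * B := Nat.mul_le_mul_left _ (by omega)
            have h6 : (q / B) * B = B * (q / B) := mul_comm _ _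
            have h7 : n ≤ L := by
              have : n ≤ G := by
                rw [hGdef]
                have h8 : n ≤ B := by omega
                have h9 : B * 1 ≤ B * (24 * H * C) := Nat.mul_le_mul_left _ (by nlinarith)
                have h10 : B * (24 * H * C) = 24 * H * B * C := by ring
                omega
              omega
            have h8 : (q / B + 1) * n = (q / B) * n + n := by ring
            omega
          calc (q / B + 1) * (r' * n) = r' * ((q / B + 1) * n) := by ring
            _ ≤ r' * (2 * L) := Nat.mul_le_mul_left _ h4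
            _ = 2 * (r' * L) := by ring
        have h4 : Rich.card ≤ L * (N₀ + 3 * r') := by
          have h5 : L * (N₀ + 3 * r') = L * N₀ + r' * L + 2 * (r' * L) := by ring
          omega
        have h5 : L * L ≤ L * (4 * H * B * C * (N₀ + 3 * r')) := by
          calc L * L = L ^ 2 := by ring
            _ ≤ C * m := hm
            _ ≤ C * (4 * H * B * (L * (N₀ + 3 * r'))) :=
                Nat.mul_le_mul_left _ (hrich.trans (Nat.mul_le_mul_left _ h4))
            _ = L * (4 * H * B * C * (N₀ + 3 * r')) := by ring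
        have h6 : L ≤ 4 * H * B * C * (N₀ + 3 * r') := Nat.le_of_mul_le_mul_left h5 hLpos
        have h7 : 6 * (4 * H * B * C * (N₀ + 3 * r')) = G * N₀ + 3 * (r' * G) := by
          rw [hGdef]; ring
        have h8 : r' * G + G ≤ L := by
          have : (r' + 1) * G ≤ r * G := Nat.mul_le_mul_right _ hr'
          have h9 : (r' + 1) * G = r' * G + G := by ring
          omega
        have h9 : 2 * G * (N₀ + 1) = 2 * (G * N₀) + 2 * G := by ring
        omega
      obtain ⟨w, hw, hX⟩ := hex
      obtain ⟨Z', L', hZ', hZ'c, hZ'w, hL'X, hL'c, hZ'L⟩ := hN₀ u cell hmono w m _ hX (by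
        intro a ha
        rw [mem_filter] at ha
        have h1 := (mem_filter.1 ha.2.1).2
        refine h1.trans ?_
        apply card_le_card_of_injOn (fun x => (⟨x.1 % B, Nat.mod_lt _ hBpos⟩ : Fin B))
        · intro x hx
          rw [mem_coe, mem_filter] at hx
          rw [mem_coe, mem_filter]
          have h2 := hx.2
          rw [Prod.mk.injEq] at h2
          obtain ⟨p, hp, h3, h4⟩ := (hInc x hx.1).2.2
          refine ⟨mem_univ _, p, hp, ?_, by rw [h4, h2.2]⟩
          have h5 := Nat.div_add_mod x.1 B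
          rw [h2.1] at h5
          have h6 : B * w = w * B := mul_comm _ _
          change cell p = w * B + x.1 % B
          omega
        · intro x hx x' hx' h
          rw [mem_coe, mem_filter] at hx hx'
          have h1 := hx.2.trans hx'.2.symm
          rw [Prod.mk.injEq] at h1
          rw [Fin.mk.injEq] at h
          exact Prod.ext (idx_inj h1.1 h) h1.2)
      have hLfresh : ∀ a ∈ L', a ∉ Ld := fun a ha => (mem_filter.1 (hL'X ha)).2.2
      have hsep : ∀ p ∈ Z, ∀ p' ∈ Z', cell p / B ≠ cell p' / B ∧ u p ≠ u p' := by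
        intro p hp p' hp'
        constructor
        · intro h
          rw [(hZ'w p' hp').2] at h
          exact hw (h ▸ (hZ1 p hp).1)
        · intro h
          exact hLfresh _ (hZ'L p' hp') (h ▸ (hZ1 p hp).2)
      obtain ⟨k1, k2⟩ := AF_union (f := fun j => j / B) hmono
        (fun a b h => Nat.div_le_div_right h) hZ hZ' hsep hZ2
        (fun p hp p' hp' _ => by rw [(hZ'w p hp).2, (hZ'w p' hp').2])
      refine ⟨Z ∪ Z', insert w Wd, Ld ∪ L', ?_, k1, ?_, ?_, ?_, ?_, k2⟩
      · exact union_subset hZm fun p hp => mem_range.2 (hZ'w p hp).1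
      · rw [card_union_of_disjoint]
        · have h9 : (r' + 1) * (n * (96 * (4 * C) ^ 2 * C)) =
            r' * (n * (96 * (4 * C) ^ 2 * C)) + n * (96 * (4 * C) ^ 2 * C) := by ring
          omega
        · rw [disjoint_left]
          intro p hp hp'
          exact (hsep p hp p hp').1 rfl
      · exact (card_insert_le _ _).trans (by omega)
      · have h9 : (r' + 1) * n = r' * n + n := by ring
        have := card_union_le Ld L'
        omega
      · intro p hp
        rcases mem_union.1 hp with h | h
        · exact ⟨mem_insert_of_mem (hZ1 p h).1, mem_union_left _ (hZ1 p h).2⟩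
        · refine ⟨?_, mem_union_right _ (hZ'L p h)⟩
          rw [(hZ'w p h).2]
          exact mem_insert_self _ _
  obtain ⟨Z, _, _, hZm, hZ, hZc, _⟩ := hsel r le_rfl
  have h1 := hcon Z hZm hZ
  have h2 : r * (n * (96 * (4 * C) ^ 2 * C)) = 2 * (r * G) := by
    rw [hGdef, hBdef, hHdef]; ring
  omega

end Pool.Agent.Q157.AltFree
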