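import Mathlib

/-!
Vectorial Boolean functions `F : 𝔽₂ⁿ → 𝔽₂ⁿ`: the Walsh transform, APN and plateaued
functions, the exclude multiplicities of the graph. Definitions.
-/

namespace Q157.Walsh

open Matrix

/-- The space `𝔽₂ⁿ`. -/
abbrev V (n : ℕ) := Fin n → ZMod 2

/-- The sign `(-1)ᵗ` for `t ∈ 𝔽₂`. -/
def chi (t : ZMod 2) : ℤ := if t = 0 then 1 else -1

variable {n : ℕ}

/-- The Walsh transform `W_F(u, v) = ∑ₓ (-1)^(v · F x + u · x)`. -/
def W (F : V n → V n) (u v : V n) : ℤ := ∑ x, chi (v ⬝ᵥ F x + u ⬝ᵥ x)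

/-- `F` is almost perfect nonlinear. -/
def IsAPN (F : V n → V n) : Prop :=
  ∀ a : V n, a ≠ 0 → ∀ b : V n, (Finset.univ.filter fun x => F x + F (x + a) = b).card ≤ 2

/-- `F` is plateaued: for each `v ≠ 0` the values of `W_F(·, v)` lie in `{0, λ, -λ}` for some
`λ ≥ 0`. -/
def IsPlateaued (F : V n → V n) : Prop :=
  ∀ v : V n, v ≠ 0 → ∃ l : ℤ, 0 ≤ l ∧ ∀ u : V n, W F u v = 0 ∨ W F u v = l ∨ W F u v = -l

/-- The graph of `F`. -/
def graph (F : V n → V n) : Finset (V n × V n) := Finset.univ.image fun x => (x, F x)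

/-- The number of `3`-element subsets of `S` with sum `p`. -/
def mult {G : Type*} [AddCommMonoid G] [DecidableEq G] (S : Finset G) (p : G) : ℕ :=
  ((S.powersetCard 3).filter fun T => ∑ t ∈ T, t = p).card

end Q157.Walsh
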