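import Mathlib
import Pool.Agent.Q157.Walsh

/-! Basic facts on Walsh transforms. -/

namespace Q157.Walsh

open Matrix

variable {n : ℕ}

theorem add_self_zmod (t : ZMod 2) : t + t = 0 := by
  revert t; decide

theorem V_add_self (x : V n) : x + x = 0 := by
  funext i; exact add_self_zmod _

theorem V_add_cancel (x y : V n) : x + (x + y) = y := by
  rw [← add_assoc, V_add_self, zero_add]

theorem V_add_eq_zero {x y : V n} : x + y = 0 ↔ x = y := by
  constructor
  · intro h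
    have := congrArg (fun z => x + z) h
    simp only [V_add_cancel, add_zero] at this
    exact this.symm
  · rintro rfl; exact V_add_self x

theorem V_add_eq_iff {x y z : V n} : x + y = z ↔ y = x + z := by
  constructor
  · rintro rfl; rw [V_add_cancel]
  · rintro rfl; rw [V_add_cancel]

theorem chi_zero : chi 0 = 1 := rfl

theorem chi_one : chi 1 = -1 := rfl

theorem chi_add (s t : ZMod 2) : chi (s + t) = chi s * chi t := by
  revert s t; decide

theorem chi_mul_self (s : ZMod 2) : chi s * chi s = 1 := by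
  revert s; decide

theorem chi_eq (s : ZMod 2) : chi s = 1 ∨ chi s = -1 := by
  revert s; decide

theorem card_V : Fintype.card (V n) = 2 ^ n := by
  rw [Fintype.card_fun, ZMod.card, Fintype.card_fin]

/-- Character orthogonality. -/
theorem sum_chi_dot (z : V n) :
    ∑ u : V n, chi (u ⬝ᵥ z) = if z = 0 then (2 : ℤ) ^ n else 0 := by
  split_ifs with h
  · subst h
    simp only [dotProduct_zero, chi_zero, Finset.sum_const, Finset.card_univ, card_V]
    simp
  · obtain ⟨i, hi⟩ : ∃ i, z i ≠ 0 := by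
      by_contra hcon
      push Not at hcon
      exact h (funext hcon)
    have hi1 : z i = 1 := by
      generalize z i = t at hi
      revert t; decide
    have hs : ∑ u : V n, chi (u ⬝ᵥ z) = ∑ u : V n, chi ((u + Pi.single i 1) ⬝ᵥ z) :=
      (Equiv.sum_comp (Equiv.addRight (Pi.single i 1 : V n)) (fun u => chi (u ⬝ᵥ z))).symm
    have hs2 : ∑ u : V n, chi ((u + Pi.single i 1) ⬝ᵥ z) = - ∑ u : V n, chi (u ⬝ᵥ z) := by
      rw [← Finset.sum_neg_distrib]
      refine Finset.sum_congr rfl fun u _ => ?_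
      rw [add_dotProduct, single_dotProduct, one_mul, hi1, chi_add, chi_one]
      ring
    linarith

theorem sum_chi_dot' (z : V n) :
    ∑ u : V n, chi (z ⬝ᵥ u) = if z = 0 then (2 : ℤ) ^ n else 0 := by
  rw [← sum_chi_dot z]
  exact Finset.sum_congr rfl fun u _ => by rw [dotProduct_comm]

theorem W_zero (F : V n → V n) (u : V n) : W F u 0 = if u = 0 then (2 : ℤ) ^ n else 0 := by
  unfold W
  simp only [zero_dotProduct, zero_add]
  exact sum_chi_dot' u

/-- Inversion in the first variable. -/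
theorem sum_W_chi (F : V n → V n) (a v : V n) :
    ∑ u, W F u v * chi (u ⬝ᵥ a) = 2 ^ n * chi (v ⬝ᵥ F a) := by
  unfold W
  simp_rw [Finset.sum_mul]
  rw [Finset.sum_comm]
  have h : ∀ x : V n, ∑ u : V n, chi (v ⬝ᵥ F x + u ⬝ᵥ x) * chi (u ⬝ᵥ a) =
      chi (v ⬝ᵥ F x) * if x + a = 0 then (2 : ℤ) ^ n else 0 := by
    intro x
    rw [← sum_chi_dot (x + a), Finset.mul_sum]
    refine Finset.sum_congr rfl fun u _ => ?_
    rw [chi_add, dotProduct_add, chi_add, mul_assoc]
  simp_rw [h, V_add_eq_zero]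
  rw [Finset.sum_eq_single a]
  · simp; ring
  · intro x _ hx
    simp [hx]
  · simp

/-- Sums of the Walsh transform at `u = 0` over `v`. -/
theorem sum_W_chi_right (F : V n → V n) (c : V n) :
    ∑ v, W F 0 v * chi (v ⬝ᵥ c) =
      2 ^ n * ((Finset.univ.filter fun x => F x = c).card : ℤ) := by
  unfold W
  simp_rw [Finset.sum_mul]
  rw [Finset.sum_comm]
  have h : ∀ x : V n, ∑ v : V n, chi (v ⬝ᵥ F x + 0 ⬝ᵥ x) * chi (v ⬝ᵥ c) =
      if F x = c then (2 : ℤ) ^ n else 0 := by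
    intro x
    have h2 : (F x = c) = (F x + c = 0) := by rw [V_add_eq_zero]
    simp only [h2]
    rw [← sum_chi_dot (F x + c)]
    refine Finset.sum_congr rfl fun v _ => ?_
    rw [zero_dotProduct, add_zero, dotProduct_add, chi_add]
  simp_rw [h]
  rw [← Finset.sum_filter, Finset.sum_const, nsmul_eq_mul]
  ring

/-- Parseval. -/
theorem parseval (F : V n → V n) (v : V n) : ∑ u, W F u v ^ 2 = (2 : ℤ) ^ n * 2 ^ n := by
  have h : ∀ u : V n, W F u v ^ 2 = ∑ x, chi (v ⬝ᵥ F x) * (W F u v * chi (u ⬝ᵥ x)) := by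
    intro u
    rw [sq]
    conv_lhs => rw [mul_comm]; lhs; unfold W
    rw [Finset.sum_mul]
    refine Finset.sum_congr rfl fun x _ => ?_
    rw [chi_add]; ring
  simp_rw [h]
  rw [Finset.sum_comm]
  simp_rw [← Finset.mul_sum, sum_W_chi]
  have h2 : ∀ x : V n, chi (v ⬝ᵥ F x) * (2 ^ n * chi (v ⬝ᵥ F x)) = (2 : ℤ) ^ n := by
    intro x
    have := chi_mul_self (v ⬝ᵥ F x)
    linear_combination (2 : ℤ) ^ n * this
  simp_rw [h2]
  rw [Finset.sum_const, Finset.card_univ, card_V, nsmul_eq_mul]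
  push_cast
  ring

/-- The amplitude of a plateaued component is a power of `2`, at least `2^(n/2)`. -/
theorem amplitude {F : V n → V n} {v : V n} {l : ℤ} (hl : 0 ≤ l)
    (h : ∀ u : V n, W F u v = 0 ∨ W F u v = l ∨ W F u v = -l) :
    ∃ j : ℕ, l = 2 ^ j ∧ n ≤ 2 * j := by
  have hpars := parseval F v
  have hsq : ∀ u, W F u v ^ 2 = if W F u v = 0 then 0 else l ^ 2 := by
    intro u
    split_ifs with h0
    · rw [h0]; ring
    · rcases h u with h' | h' | h'
      · exact absurd h' h0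
      · rw [h']
      · rw [h']; ring
  simp_rw [hsq] at hpars
  rw [Finset.sum_ite, Finset.sum_const_zero, zero_add, Finset.sum_const, nsmul_eq_mul] at hpars
  set k := (Finset.univ.filter fun u : V n => ¬ W F u v = 0).card with hk
  have hkle : k ≤ 2 ^ n := by
    rw [← card_V (n := n)]; exact Finset.card_le_univ _
  obtain ⟨m, rfl⟩ := Int.eq_ofNat_of_zero_le hl
  have hnat : k * m ^ 2 = 2 ^ (2 * n) := by
    have : ((k * m ^ 2 : ℕ) : ℤ) = ((2 ^ (2 * n) : ℕ) : ℤ) := by
      push_cast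
      rw [hpars]; ring
    exact_mod_cast this
  have hdvd : m ∣ 2 ^ (2 * n) := ⟨k * m, by rw [← hnat]; ring⟩
  obtain ⟨j, hj, rfl⟩ := (Nat.dvd_prime_pow Nat.prime_two).1 hdvd
  refine ⟨j, by push_cast; rfl, ?_⟩
  by_contra hlt
  push Not at hlt
  have h1 : k * (2 ^ j) ^ 2 ≤ 2 ^ n * 2 ^ (2 * j) := by
    rw [← pow_mul, mul_comm j 2]
    exact Nat.mul_le_mul_right _ hkle
  have h2 : 2 ^ n * 2 ^ (2 * j) < 2 ^ (2 * n) := by
    rw [← pow_add]
    exact Nat.pow_lt_pow_right (by norm_num) (by omega)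
  omega

/-- Third moments of a plateaued function. -/
theorem third_moment (F : V n → V n) (a b : V n) :
    ∑ v, (∑ u, W F u v ^ 3 * chi (u ⬝ᵥ a)) * chi (v ⬝ᵥ b) =
      2 ^ n * 2 ^ n * ((Finset.univ.filter fun q : V n × V n =>
        F q.1 + F q.2 + F (q.1 + q.2 + a) = b).card : ℤ) := by
  have h1 : ∀ v : V n, ∑ u, W F u v ^ 3 * chi (u ⬝ᵥ a) =
      ∑ x, ∑ y, 2 ^ n * chi (v ⬝ᵥ (F x + F y + F (x + y + a))) := by
    intro v
    have h2 : ∀ u : V n, W F u v ^ 3 * chi (u ⬝ᵥ a) =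
        ∑ x, ∑ y, chi (v ⬝ᵥ F x) * chi (v ⬝ᵥ F y) * (W F u v * chi (u ⬝ᵥ (x + y + a))) := by
      intro u
      have h3 : W F u v ^ 3 * chi (u ⬝ᵥ a) = W F u v * (W F u v * (W F u v * chi (u ⬝ᵥ a))) := by
        ring
      rw [h3]
      conv_lhs => lhs; unfold W
      rw [Finset.sum_mul]
      refine Finset.sum_congr rfl fun x _ => ?_
      conv_lhs => rhs; lhs; unfold W
      rw [Finset.sum_mul, Finset.mul_sum]
      refine Finset.sum_congr rfl fun y _ => ?_
      rw [chi_add, chi_add, dotProduct_add, dotProduct_add, chi_add, chi_add]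
      ring
    simp_rw [h2]
    rw [Finset.sum_comm]
    refine Finset.sum_congr rfl fun x _ => ?_
    rw [Finset.sum_comm]
    refine Finset.sum_congr rfl fun y _ => ?_
    rw [← Finset.mul_sum, sum_W_chi, dotProduct_add, dotProduct_add, chi_add, chi_add]
    ring
  simp_rw [h1, Finset.sum_mul]
  rw [Finset.sum_comm]
  have h4 : ∀ x y : V n, ∑ v : V n, 2 ^ n * chi (v ⬝ᵥ (F x + F y + F (x + y + a))) * chi (v ⬝ᵥ b) =
      if F x + F y + F (x + y + a) = b then (2 : ℤ) ^ n * 2 ^ n else 0 := by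
    intro x y
    have h5 : (F x + F y + F (x + y + a) = b) = (F x + F y + F (x + y + a) + b = 0) := by
      rw [V_add_eq_zero]
    simp only [h5]
    rw [← mul_ite_zero, ← sum_chi_dot, Finset.mul_sum]
    refine Finset.sum_congr rfl fun v _ => ?_
    rw [dotProduct_add v _ b, chi_add]
    ring
  have h6 : ∀ x : V n, ∑ v : V n, ∑ y : V n,
      2 ^ n * chi (v ⬝ᵥ (F x + F y + F (x + y + a))) * chi (v ⬝ᵥ b) =
      ∑ y : V n, if F x + F y + F (x + y + a) = b then (2 : ℤ) ^ n * 2 ^ n else 0 := by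
    intro x
    rw [Finset.sum_comm]
    exact Finset.sum_congr rfl fun y _ => h4 x y
  simp_rw [h6]
  rw [← Fintype.sum_prod_type (f := fun q : V n × V n =>
    if F q.1 + F q.2 + F (q.1 + q.2 + a) = b then (2 : ℤ) ^ n * 2 ^ n else 0),
    ← Finset.sum_filter, Finset.sum_const, nsmul_eq_mul]
  ring

/-- For plateaued `F` with amplitudes `l v` (`v ≠ 0`), the third moments in terms of the
amplitudes. -/
theorem third_moment_plateaued {F : V n → V n} {l : V n → ℤ}
    (h : ∀ v, v ≠ 0 → ∀ u, W F u v = 0 ∨ W F u v = l v ∨ W F u v = -l v) (a b : V n) :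
    2 ^ n * ((Finset.univ.filter fun q : V n × V n =>
        F q.1 + F q.2 + F (q.1 + q.2 + a) = b).card : ℤ) =
      2 ^ n * 2 ^ n + ∑ v ∈ Finset.univ.erase 0, l v ^ 2 * chi (v ⬝ᵥ (F a + b)) := by
  have h1 := third_moment F a b
  have h0 : (∑ u, W F u 0 ^ 3 * chi (u ⬝ᵥ a)) * chi ((0 : V n) ⬝ᵥ b) = 2 ^ n * (2 ^ n * 2 ^ n) := by
    simp_rw [W_zero]
    rw [Finset.sum_eq_single 0]
    · simp [chi_zero]; ring
    · intro u _ hu
      simp [hu]
    · simp
  have hv : ∀ v ∈ Finset.univ.erase (0 : V n),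
      (∑ u, W F u v ^ 3 * chi (u ⬝ᵥ a)) * chi (v ⬝ᵥ b) =
        2 ^ n * (l v ^ 2 * chi (v ⬝ᵥ (F a + b))) := by
    intro v hv
    have hv0 : v ≠ 0 := Finset.ne_of_mem_erase hv
    have h3 : ∀ u, W F u v ^ 3 * chi (u ⬝ᵥ a) = l v ^ 2 * (W F u v * chi (u ⬝ᵥ a)) := by
      intro u
      rcases h v hv0 u with h' | h' | h' <;> rw [h'] <;> ring
    simp_rw [h3]
    rw [← Finset.mul_sum, sum_W_chi, dotProduct_add, chi_add]
    ring
  rw [← Finset.add_sum_erase _ _ (Finset.mem_univ (0 : V n)), h0, Finset.sum_congr rfl hv,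
    ← Finset.mul_sum] at h1
  have hpos : (2 : ℤ) ^ n ≠ 0 := by positivity
  have h2 : (2 : ℤ) ^ n * (2 ^ n * 2 ^ n + ∑ v ∈ Finset.univ.erase 0, l v ^ 2 * chi (v ⬝ᵥ (F a + b)))
      = 2 ^ n * (2 ^ n * ((Finset.univ.filter fun q : V n × V n =>
        F q.1 + F q.2 + F (q.1 + q.2 + a) = b).card : ℤ)) := by
    rw [mul_add, h1]; ring
  exact (mul_left_cancel₀ hpos h2).symm

end Q157.Walsh
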