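import Mathlib
import Pool.Agent.Q157.WalshBasic

/-!
Counting Maiorana–McFarland functions `x * y + h y` for which some linear modification has the
extremal value distribution of type `(-)`.
-/

namespace Q157.Bent

open Q157.Walsh

variable {K : Type} [Field K] [Fintype K] [DecidableEq K] [Algebra (ZMod 2) K]

theorem sum_chi_linear (l : K →ₗ[ZMod 2] ZMod 2) :
    ∑ x, chi (l x) = if l = 0 then (Fintype.card K : ℤ) else 0 := by
  classical
  split_ifs with h
  · subst h
    simp [chi_zero]
  · obtain ⟨x₀, hx₀⟩ : ∃ x₀, l x₀ ≠ 0 := by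
      by_contra hcon
      push Not at hcon
      exact h (LinearMap.ext hcon)
    have hx1 : l x₀ = 1 := by
      generalize l x₀ = t at hx₀
      revert t; decide
    have h2 : ∑ x, chi (l x) = ∑ x, chi (l (x + x₀)) :=
      (Equiv.sum_comp (Equiv.addRight x₀) (fun x => chi (l x))).symm
    have h3 : ∑ x, chi (l (x + x₀)) = -∑ x, chi (l x) := by
      rw [← Finset.sum_neg_distrib]
      refine Finset.sum_congr rfl fun x _ => ?_
      rw [map_add, chi_add, hx1, chi_one]
      ring
    linarith

variable (φ : K →ₗ[ZMod 2] ZMod 2)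

/-- The functional `x ↦ φ (b * (x * y + A x))`. -/
def fn (A : K →ₗ[ZMod 2] K) (b y : K) : K →ₗ[ZMod 2] ZMod 2 :=
  φ.comp ((LinearMap.mulLeft (ZMod 2) b).comp (LinearMap.mulRight (ZMod 2) y + A))

omit [Fintype K] [DecidableEq K] in
theorem fn_apply (A : K →ₗ[ZMod 2] K) (b y x : K) : fn φ A b y x = φ (b * (x * y + A x)) := rfl

variable {φ}

omit [Fintype K] [DecidableEq K] in
theorem exists_ne (hφ : φ ≠ 0) {b : K} (hb : b ≠ 0) : ∃ z, φ (b * z) ≠ 0 := by
  obtain ⟨w, hw⟩ : ∃ w, φ w ≠ 0 := by
    by_contra hcon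
    push Not at hcon
    exact hφ (LinearMap.ext hcon)
  exact ⟨b⁻¹ * w, by rwa [mul_inv_cancel_left₀ hb]⟩

omit [Fintype K] [DecidableEq K] in
theorem fn_unique (hφ : φ ≠ 0) {A : K →ₗ[ZMod 2] K} {b y y' : K} (hb : b ≠ 0)
    (h : fn φ A b y = 0) (h' : fn φ A b y' = 0) : y = y' := by
  by_contra hne
  have hsub : y - y' ≠ 0 := sub_ne_zero.2 hne
  obtain ⟨z, hz⟩ := exists_ne hφ hb
  apply hz
  have h1 : φ (b * ((z * (y - y')⁻¹) * y + A (z * (y - y')⁻¹))) = 0 :=
    LinearMap.congr_fun h (z * (y - y')⁻¹)
  have h2 : φ (b * ((z * (y - y')⁻¹) * y' + A (z * (y - y')⁻¹))) = 0 :=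
    LinearMap.congr_fun h' (z * (y - y')⁻¹)
  have h3 : b * z = b * ((z * (y - y')⁻¹) * y + A (z * (y - y')⁻¹)) -
      b * ((z * (y - y')⁻¹) * y' + A (z * (y - y')⁻¹)) := by
    field_simp
    ring
  rw [h3, map_sub, h1, h2, sub_zero]

omit [DecidableEq K] in
theorem fn_exists (hφ : φ ≠ 0) (A : K →ₗ[ZMod 2] K) {b : K} (hb : b ≠ 0) :
    ∃ y, fn φ A b y = 0 := by
  have hfin : Module.Finite (ZMod 2) K := Module.Finite.of_finite
  let T : K →ₗ[ZMod 2] Module.Dual (ZMod 2) K :=
    { toFun := fun y => fn φ 0 b y
      map_add' := by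
        intro y y'
        ext x
        simp only [fn_apply, LinearMap.add_apply, LinearMap.zero_apply, add_zero]
        rw [← map_add]
        congr 1
        ring
      map_smul' := by
        intro c y
        ext x
        simp only [fn_apply, LinearMap.smul_apply, LinearMap.zero_apply, add_zero,
          RingHom.id_apply]
        rw [← map_smul]
        congr 1
        simp }
  have hinj : Function.Injective T := by
    intro y y' h
    have h0 : T (y - y') = 0 := by rw [map_sub, h, sub_self]
    have h1 : fn φ 0 b (y - y') = 0 := h0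
    have h2 : fn φ 0 b 0 = 0 := by
      have : T 0 = 0 := map_zero T
      exact this
    exact sub_eq_zero.1 (fn_unique hφ hb h1 h2)
  have hsurj : Function.Surjective T :=
    (LinearMap.injective_iff_surjective_of_finrank_eq_finrank
      (by rw [Subspace.dual_finrank_eq])).1 hinj
  obtain ⟨y, hy⟩ := hsurj (-(φ.comp ((LinearMap.mulLeft (ZMod 2) b).comp A)))
  refine ⟨y, ?_⟩
  ext x
  have h1 : fn φ 0 b y x = -(φ (b * A x)) := by
    have := LinearMap.congr_fun hy x
    exact this
  rw [fn_apply] at h1 ⊢
  simp only [LinearMap.zero_apply, add_zero] at h1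
  rw [mul_add, map_add, h1, LinearMap.zero_apply, neg_add_cancel]

/-- The function `x * y + h y + A x + C y`. -/
def G (h : K → K) (A C : K →ₗ[ZMod 2] K) (p : K × K) : K :=
  p.1 * p.2 + h p.2 + A p.1 + C p.2

/-- The linear conditions on `h` for type `(-)`. -/
theorem condition (hφ : φ ≠ 0) {h : K → K} {A C : K →ₗ[ZMod 2] K} {α : K}
    (h1 : (Finset.univ.filter fun p => G h A C p = α).card = 1)
    (h2 : ∀ β, β ≠ α → (Finset.univ.filter fun p => G h A C p = β).card = Fintype.card K + 1)
    {b y : K} (hb : b ≠ 0) (hy : fn φ A b y = 0) : φ (b * (h y + C y + α)) = 1 := by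
  have hcard : (0 : ℤ) < Fintype.card K := by exact_mod_cast Fintype.card_pos
  -- first evaluation
  have e1 : ∑ p : K × K, chi (φ (b * G h A C p)) =
      Fintype.card K * chi (φ (b * (h y + C y))) := by
    rw [Fintype.sum_prod_type_right]
    have e2 : ∀ z : K, ∑ x : K, chi (φ (b * G h A C (x, z))) =
        (∑ x : K, chi (fn φ A b z x)) * chi (φ (b * (h z + C z))) := by
      intro z
      rw [Finset.sum_mul]
      refine Finset.sum_congr rfl fun x _ => ?_
      rw [fn_apply, ← chi_add, ← map_add]
      congr 2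
      unfold G
      ring
    simp_rw [e2, sum_chi_linear]
    rw [Finset.sum_eq_single y]
    · rw [if_pos hy]
    · intro z _ hz
      rw [if_neg (fun h0 => hz (fn_unique hφ hb h0 hy)), zero_mul]
    · simp
  -- second evaluation
  have e3 : ∑ p : K × K, chi (φ (b * G h A C p)) = -(Fintype.card K * chi (φ (b * α))) := by
    have e4 : ∑ p : K × K, chi (φ (b * G h A C p)) =
        ∑ β : K, ((Finset.univ.filter fun p => G h A C p = β).card : ℤ) * chi (φ (b * β)) := by
      rw [← Finset.sum_fiberwise Finset.univ (G h A C)]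
      refine Finset.sum_congr rfl fun β _ => ?_
      rw [Finset.sum_congr rfl (g := fun _ => chi (φ (b * β)))
        (fun p hp => by rw [(Finset.mem_filter.1 hp).2]), Finset.sum_const, nsmul_eq_mul]
    have e5 : ∀ β : K, ((Finset.univ.filter fun p => G h A C p = β).card : ℤ) * chi (φ (b * β)) =
        (Fintype.card K + 1) * chi (φ (b * β)) -
          if β = α then Fintype.card K * chi (φ (b * α)) else 0 := by
      intro β
      split_ifs with hβ
      · subst hβ
        rw [h1]; push_cast; ring
      · rw [h2 β hβ]; push_cast; ring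
    rw [e4]
    simp_rw [e5]
    rw [Finset.sum_sub_distrib, ← Finset.mul_sum, Finset.sum_ite_eq' Finset.univ α]
    have e6 : ∑ β : K, chi (φ (b * β)) = 0 := by
      have e7 := sum_chi_linear (φ.comp (LinearMap.mulLeft (ZMod 2) b))
      rw [if_neg] at e7
      · exact e7
      · intro h0
        obtain ⟨z, hz⟩ := exists_ne hφ hb
        exact hz (LinearMap.congr_fun h0 z)
    rw [e6]
    simp
  have e8 : chi (φ (b * (h y + C y))) = -chi (φ (b * α)) := by
    have := e1.symm.trans e3
    have h0 : (Fintype.card K : ℤ) * (chi (φ (b * (h y + C y))) + chi (φ (b * α))) = 0 := by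
      linarith
    rcases mul_eq_zero.1 h0 with h | h
    · exact absurd h hcard.ne'
    · linarith
  have e9 : φ (b * (h y + C y + α)) = φ (b * (h y + C y)) + φ (b * α) := by
    rw [mul_add b (h y + C y), map_add]
  rw [e9]
  revert e8
  generalize φ (b * (h y + C y)) = s
  generalize φ (b * α) = t
  revert s t
  decide

/-- The functions `h` satisfying all the conditions for given `A, C, α`. -/
noncomputable def Bad (φ : K →ₗ[ZMod 2] ZMod 2) (A C : K →ₗ[ZMod 2] K) (α : K) :
    Finset (K → K) := by
  classical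
  exact Finset.univ.filter fun h =>
    ∀ b y, b ≠ 0 → fn φ A b y = 0 → φ (b * (h y + C y + α)) = 1

theorem card_half (hφ : φ ≠ 0) {b c : K} (hb : b ≠ 0) :
    2 * (Finset.univ.filter fun w => φ (b * (w + c)) = 1).card = Fintype.card K := by
  have h1 : ∑ w : K, chi (φ (b * (w + c))) = 0 := by
    have e7 := sum_chi_linear (φ.comp (LinearMap.mulLeft (ZMod 2) b))
    rw [if_neg] at e7
    · rw [← e7]
      exact Equiv.sum_comp (Equiv.addRight c) (fun w => chi (φ (b * w)))
    · intro h0
      obtain ⟨z, hz⟩ := exists_ne hφ hb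
      exact hz (LinearMap.congr_fun h0 z)
  have h2 : ∀ w : K, chi (φ (b * (w + c))) = 1 - 2 * if φ (b * (w + c)) = 1 then 1 else 0 := by
    intro w
    generalize φ (b * (w + c)) = t
    revert t; decide
  simp_rw [h2] at h1
  rw [Finset.sum_sub_distrib, ← Finset.mul_sum, ← Finset.sum_filter, Finset.sum_const,
    Finset.sum_const, Finset.card_univ, nsmul_eq_mul, nsmul_eq_mul] at h1
  have h3 : (2 : ℤ) * ((Finset.univ.filter fun w => φ (b * (w + c)) = 1).card : ℤ) =
      Fintype.card K := by linarith
  exact_mod_cast h3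

theorem card_Bad (hφ : φ ≠ 0) (A C : K →ₗ[ZMod 2] K) (α : K) :
    (Bad φ A C α).card * 2 ^ (Fintype.card K - 1) ≤ Fintype.card K ^ Fintype.card K := by
  classical
  choose! y hy using fun (b : K) (hb : b ≠ 0) => fn_exists hφ A hb
  by_cases hinj : ∀ b b' : K, b ≠ 0 → b' ≠ 0 → y b = y b' → b = b'
  · -- each value `y b` imposes one condition
    obtain ⟨I, hI⟩ : ∃ I : Finset K, I = (Finset.univ.erase (0 : K)).image y := ⟨_, rfl⟩
    have hIcard : I.card = Fintype.card K - 1 := by
      rw [hI, Finset.card_image_of_injOn, Finset.card_erase_of_mem (Finset.mem_univ _),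
        Finset.card_univ]
      intro b hb b' hb' h
      exact hinj b b' (Finset.ne_of_mem_erase hb) (Finset.ne_of_mem_erase hb') h
    let S : K → Finset K := fun z => Finset.univ.filter fun w =>
      ∀ b, b ≠ 0 → y b = z → φ (b * (w + (C z + α))) = 1
    have hsub : Bad φ A C α ⊆ Fintype.piFinset S := by
      intro h hh
      rw [Bad, Finset.mem_filter] at hh
      rw [Fintype.mem_piFinset]
      intro z
      rw [Finset.mem_filter]
      refine ⟨Finset.mem_univ _, fun b hb hbz => ?_⟩
      subst hbz
      rw [← add_assoc]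
      exact hh.2 b (y b) hb (hy b hb)
    have hS : ∀ z, (S z).card * (if z ∈ I then 2 else 1) = Fintype.card K := by
      intro z
      split_ifs with hz
      · rw [hI, Finset.mem_image] at hz
        obtain ⟨b, hb, rfl⟩ := hz
        have hb0 := Finset.ne_of_mem_erase hb
        rw [mul_comm, ← card_half hφ (c := C (y b) + α) hb0]
        congr 2
        ext w
        simp only [S, Finset.mem_filter, Finset.mem_univ, true_and]
        constructor
        · intro h; exact h b hb0 rfl
        · intro h b' hb' hyy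
          rw [hinj b' b hb' hb0 hyy]
          exact h
      · rw [mul_one, ← Finset.card_univ]
        congr 1
        ext w
        simp only [S, Finset.mem_filter, Finset.mem_univ, true_and, iff_true]
        intro b hb hyz
        exact absurd (by
          rw [hI, Finset.mem_image]
          exact ⟨b, Finset.mem_erase.2 ⟨hb, Finset.mem_univ _⟩, hyz⟩) hz
    have hprod : (Fintype.piFinset S).card * 2 ^ (Fintype.card K - 1) =
        Fintype.card K ^ Fintype.card K := by
      have h1 : ∏ z : K, ((S z).card * (if z ∈ I then 2 else 1)) =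
          Fintype.card K ^ Fintype.card K := by
        simp_rw [hS]
        rw [Finset.prod_const, Finset.card_univ]
      rw [← h1, Finset.prod_mul_distrib, Fintype.card_piFinset]
      congr 1
      rw [Finset.prod_ite, Finset.prod_const, Finset.prod_const_one, mul_one]
      congr 1
      rw [← hIcard]
      congr 1
      ext z; simp
    calc (Bad φ A C α).card * 2 ^ (Fintype.card K - 1)
        ≤ (Fintype.piFinset S).card * 2 ^ (Fintype.card K - 1) :=
          Nat.mul_le_mul_right _ (Finset.card_le_card hsub)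
      _ = _ := hprod
  · -- inconsistent conditions
    push Not at hinj
    obtain ⟨b, b', hb, hb', hyy, hne⟩ := hinj
    have hempty : Bad φ A C α = ∅ := by
      rw [Finset.eq_empty_iff_forall_notMem]
      intro h hh
      rw [Bad, Finset.mem_filter] at hh
      have k1 := hh.2 b (y b) hb (hy b hb)
      have k2 := hh.2 b' (y b) hb' (hyy ▸ hy b' hb')
      have hbb : b + b' ≠ 0 := by
        intro h0
        apply hne
        have hneg : -b' = b' := by
          have h2 : (2 : K) = 0 := by
            have h3 : algebraMap (ZMod 2) K 2 = 2 := map_ofNat _ 2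
            rw [← h3]
            have : (2 : ZMod 2) = 0 := by decide
            rw [this, map_zero]
          have : b' + b' = 0 := by rw [← two_mul, h2, zero_mul]
          exact neg_eq_of_add_eq_zero_left this
        rw [← hneg]
        exact eq_neg_of_add_eq_zero_left h0
      have k4 : fn φ A (b + b') (y b) = 0 := by
        ext x
        have i1 := LinearMap.congr_fun (hy b hb) x
        have i2 := LinearMap.congr_fun (hyy ▸ hy b' hb' : fn φ A b' (y b) = 0) x
        rw [fn_apply] at i1 i2 ⊢
        rw [add_mul, map_add, i1, i2]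
        simp
      have k3 := hh.2 (b + b') (y b) hbb k4
      rw [add_mul, map_add, k1, k2] at k3
      revert k3
      decide
    rw [hempty]
    simp

/-- Some `h` admits no linear modification of type `(-)`. -/
theorem exists_h {m : ℕ} (hm : 7 ≤ m) (hK : Fintype.card K = 2 ^ m) :
    ∃ h : K → K, ∀ (A C : K →ₗ[ZMod 2] K) (α : K),
      ¬ ((Finset.univ.filter fun p => G h A C p = α).card = 1 ∧
        ∀ β, β ≠ α → (Finset.univ.filter fun p => G h A C p = β).card = Fintype.card K + 1) := by
  classical
  have hfin : Module.Finite (ZMod 2) K := Module.Finite.of_finite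
  have hrank : Module.finrank (ZMod 2) K = m := by
    have h1 := Module.natCard_eq_pow_finrank (K := ZMod 2) (V := K)
    rw [Nat.card_eq_fintype_card, hK, Nat.card_eq_fintype_card, ZMod.card] at h1
    exact (Nat.pow_right_injective (le_refl 2) h1).symm
  have hfinite : Finite (K →ₗ[ZMod 2] K) := DFunLike.finite _
  let _ : Fintype (K →ₗ[ZMod 2] K) := Fintype.ofFinite _
  have hcardL : Fintype.card (K →ₗ[ZMod 2] K) = 2 ^ (m * m) := by
    have h1 := Module.natCard_eq_pow_finrank (K := ZMod 2) (V := K →ₗ[ZMod 2] K)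
    rw [Nat.card_eq_fintype_card, Nat.card_eq_fintype_card, ZMod.card,
      Module.finrank_linearMap, hrank] at h1
    exact h1
  obtain ⟨φ, hφ⟩ : ∃ φ : K →ₗ[ZMod 2] ZMod 2, φ ≠ 0 := by
    by_contra hcon
    push Not at hcon
    have h1 : Module.finrank (ZMod 2) (Module.Dual (ZMod 2) K) = m := by
      rw [Subspace.dual_finrank_eq, hrank]
    have h2 : Module.finrank (ZMod 2) (Module.Dual (ZMod 2) K) = 0 := by
      rw [Module.finrank_zero_iff]
      exact ⟨fun a b => (hcon a).trans (hcon b).symm⟩
    omega
  by_contra hcon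
  push Not at hcon
  have hcover : (Finset.univ : Finset (K → K)) ⊆
      (Finset.univ : Finset ((K →ₗ[ZMod 2] K) × (K →ₗ[ZMod 2] K) × K)).biUnion
        fun t => Bad φ t.1 t.2.1 t.2.2 := by
    intro h _
    obtain ⟨A, C, α, h1, h2⟩ := hcon h
    rw [Finset.mem_biUnion]
    refine ⟨(A, C, α), Finset.mem_univ _, ?_⟩
    rw [Bad, Finset.mem_filter]
    exact ⟨Finset.mem_univ _, fun b y hb hy => condition hφ h1 h2 hb hy⟩
  have h1 := (Finset.card_le_card hcover).trans Finset.card_biUnion_le
  rw [Finset.card_univ, Fintype.card_fun] at h1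
  have h2 : Fintype.card K ^ Fintype.card K * 2 ^ (Fintype.card K - 1) ≤
      2 ^ (2 * (m * m) + m) * Fintype.card K ^ Fintype.card K := by
    calc Fintype.card K ^ Fintype.card K * 2 ^ (Fintype.card K - 1)
        ≤ (∑ t : (K →ₗ[ZMod 2] K) × (K →ₗ[ZMod 2] K) × K, (Bad φ t.1 t.2.1 t.2.2).card) *
            2 ^ (Fintype.card K - 1) := Nat.mul_le_mul_right _ h1
      _ = ∑ t : (K →ₗ[ZMod 2] K) × (K →ₗ[ZMod 2] K) × K, (Bad φ t.1 t.2.1 t.2.2).card *
            2 ^ (Fintype.card K - 1) := by rw [Finset.sum_mul]
      _ ≤ ∑ t : (K →ₗ[ZMod 2] K) × (K →ₗ[ZMod 2] K) × K, Fintype.card K ^ Fintype.card K :=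
          Finset.sum_le_sum fun t _ => card_Bad hφ _ _ _
      _ = _ := by
          rw [Finset.sum_const, Finset.card_univ, Fintype.card_prod, Fintype.card_prod, hcardL,
            smul_eq_mul, hK, ← pow_add, ← pow_add]
          congr 2
          ring
  have hpos : 0 < Fintype.card K ^ Fintype.card K := pow_pos Fintype.card_pos _
  rw [mul_comm] at h2
  have h3 := Nat.le_of_mul_le_mul_right h2 hpos
  have h4 : Fintype.card K - 1 ≤ 2 * (m * m) + m :=
    (Nat.pow_le_pow_iff_right (by norm_num)).1 h3
  have h5 : ∀ k : ℕ, 2 * ((k + 7) * (k + 7)) + (k + 7) + 1 < 2 ^ (k + 7) := by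
    intro k
    induction k with
    | zero => norm_num
    | succ k ih =>
      rw [pow_succ]
      nlinarith
  have h6 := h5 (m - 7)
  rw [Nat.sub_add_cancel hm, ← hK] at h6
  omega

end Q157.Bent
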