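import Mathlib

/-!
# Dual pairs of clutters with few members

If `P`, `Q` are blocking clutters on `n` points with `|P| + |Q| = n + 1` then one of them has a
singleton member.  The proof uses a sign pattern argument in the spirit of Seymour's theorem on
critically non-2-colourable hypergraphs.
-/

set_option linter.dupNamespace false

namespace Pool.Agent.Q157.DualPair

open Classical in
/-- A square (or wide) nonnegative incidence pattern whose rows can be signed such that every column
sees both signs has a nonzero sign-balanced column vector. -/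
theorem balanced_vector {E C : Type*} [Fintype E] [Fintype C] [Nonempty E]
    (Inc : E → C → Prop) (σ : E → Bool)
    (hpos : ∀ c, ∃ e, Inc e c ∧ σ e = true) (hneg : ∀ c, ∃ e, Inc e c ∧ σ e = false)
    (hcard : Fintype.card E ≤ Fintype.card C) :
    ∃ y : C → ℝ, y ≠ 0 ∧ ∀ e, (∀ c, Inc e c → y c = 0) ∨
      ((∃ c, Inc e c ∧ 0 < y c) ∧ ∃ c, Inc e c ∧ y c < 0) := by
  -- the weights
  let cnt : Bool → C → ℕ := fun b c => (Finset.univ.filter fun e => Inc e c ∧ σ e = b).card
  have hcnt : ∀ b c, 0 < cnt b c := by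
    intro b c
    apply Finset.card_pos.2
    cases b
    · obtain ⟨e, he, hs⟩ := hneg c
      exact ⟨e, by simp [he, hs]⟩
    · obtain ⟨e, he, hs⟩ := hpos c
      exact ⟨e, by simp [he, hs]⟩
  let M : E → C → ℝ := fun e c => if Inc e c then 1 / (cnt (σ e) c : ℝ) else 0
  let s : E → ℝ := fun e => if σ e = true then 1 else -1
  have hM : ∀ e c, Inc e c → 0 < M e c := by
    intro e c h
    simp only [M, if_pos h]
    have := hcnt (σ e) c
    positivity
  have hM0 : ∀ e c, ¬ Inc e c → M e c = 0 := by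
    intro e c h
    simp only [M, if_neg h]
  have hcol : ∀ c, ∑ e, s e * M e c = 0 := by
    intro c
    have h1 : ∀ e, s e * M e c = (if Inc e c ∧ σ e = true then 1 / (cnt true c : ℝ) else 0) -
        (if Inc e c ∧ σ e = false then 1 / (cnt false c : ℝ) else 0) := by
      intro e
      by_cases h : Inc e c
      · cases h' : σ e <;> simp [s, M, h, h']
      · simp [s, M, h]
    simp only [h1, Finset.sum_sub_distrib, ← Finset.sum_filter, Finset.sum_const, nsmul_eq_mul]
    have h2 := hcnt true c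
    have h3 := hcnt false c
    change (cnt true c : ℝ) * (1 / (cnt true c : ℝ)) - (cnt false c : ℝ) * (1 / (cnt false c : ℝ))
      = 0
    have h4 : (cnt true c : ℝ) ≠ 0 := by positivity
    have h5 : (cnt false c : ℝ) ≠ 0 := by positivity
    field_simp
    norm_num
  let L : (C → ℝ) →ₗ[ℝ] (E → ℝ) :=
    { toFun := fun y e => ∑ c, M e c * y c
      map_add' := by
        intro x y; funext e
        simp only [Pi.add_apply, mul_add, Finset.sum_add_distrib]
      map_smul' := by
        intro r x; funext e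
        simp only [Pi.smul_apply, smul_eq_mul, RingHom.id_apply, Finset.mul_sum]
        exact Finset.sum_congr rfl fun c _ => by ring }
  have hL : ∀ y e, L y e = ∑ c, M e c * y c := fun _ _ => rfl
  have horth : ∀ y, ∑ e, s e * L y e = 0 := by
    intro y
    simp only [hL, Finset.mul_sum]
    rw [Finset.sum_comm]
    have : ∀ c, ∑ e, s e * (M e c * y c) = (∑ e, s e * M e c) * y c := by
      intro c; rw [Finset.sum_mul]; exact Finset.sum_congr rfl fun e _ => by ring
    simp only [this, hcol, zero_mul, Finset.sum_const_zero]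
  have hnsurj : ¬ Function.Surjective L := by
    intro h
    obtain ⟨y, hy⟩ := h s
    have h1 := horth y
    rw [hy] at h1
    have h2 : ∀ e, s e * s e = 1 := by intro e; simp only [s]; split_ifs <;> norm_num
    simp only [h2, Finset.sum_const, Finset.card_univ, nsmul_eq_mul, mul_one] at h1
    have : (Fintype.card E : ℝ) ≠ 0 := by
      have := Fintype.card_pos (α := E); positivity
    exact this h1
  have hninj : ¬ Function.Injective L := by
    intro h
    have h1 := LinearMap.finrank_le_finrank_of_injective h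
    rw [Module.finrank_fintype_fun_eq_card, Module.finrank_fintype_fun_eq_card] at h1
    have h2 : Module.finrank ℝ (C → ℝ) = Module.finrank ℝ (E → ℝ) := by
      rw [Module.finrank_fintype_fun_eq_card, Module.finrank_fintype_fun_eq_card]
      exact le_antisymm h1 hcard
    exact hnsurj ((LinearMap.injective_iff_surjective_of_finrank_eq_finrank h2).1 h)
  obtain ⟨y, hy, hy0⟩ : ∃ y, L y = 0 ∧ y ≠ 0 := by
    by_contra hcon
    push Not at hcon
    exact hninj ((injective_iff_map_eq_zero L).2 hcon)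
  refine ⟨y, hy0, fun e => ?_⟩
  by_cases hall : ∀ c, Inc e c → y c = 0
  · exact Or.inl hall
  · right
    push Not at hall
    obtain ⟨c0, hc0, hyc0⟩ := hall
    have hsum : ∑ c, M e c * y c = 0 := by rw [← hL, hy]; rfl
    have hne : ∃ c ∈ Finset.univ, M e c * y c ≠ 0 :=
      ⟨c0, Finset.mem_univ _, mul_ne_zero (hM e c0 hc0).ne' hyc0⟩
    constructor
    · obtain ⟨c, -, hc⟩ := Finset.exists_pos_of_sum_zero_of_exists_nonzero _ hsum hne
      have hinc : Inc e c := by
        by_contra h; rw [hM0 e c h, zero_mul] at hc; exact lt_irrefl _ hc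
      exact ⟨c, hinc, (pos_iff_pos_of_mul_pos hc).1 (hM e c hinc)⟩
    · have hsum' : ∑ c, -(M e c * y c) = 0 := by rw [Finset.sum_neg_distrib, hsum, neg_zero]
      have hne' : ∃ c ∈ Finset.univ, -(M e c * y c) ≠ 0 := by
        obtain ⟨c, h1, h2⟩ := hne
        exact ⟨c, h1, neg_ne_zero.2 h2⟩
      obtain ⟨c, -, hc⟩ := Finset.exists_pos_of_sum_zero_of_exists_nonzero _ hsum' hne'
      have hinc : Inc e c := by
        by_contra h; rw [hM0 e c h, zero_mul, neg_zero] at hc; exact lt_irrefl _ hc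
      refine ⟨c, hinc, ?_⟩
      have := hM e c hinc
      by_contra hcon
      push Not at hcon
      nlinarith [mul_nonneg this.le hcon]

variable {V : Type*} [Fintype V] [DecidableEq V]

/-- A dual pair of clutters. -/
structure DualPair (P Q : Finset (Finset V)) : Prop where
  meets : ∀ A ∈ P, ∀ B ∈ Q, (A ∩ B).Nonempty
  cover : ∀ S : Finset V, (∃ A ∈ P, A ⊆ S) ∨ (∃ B ∈ Q, Disjoint B S)
  antiP : ∀ A ∈ P, ∀ A' ∈ P, A ⊆ A' → A = A'
  antiQ : ∀ B ∈ Q, ∀ B' ∈ Q, B ⊆ B' → B = B'

theorem DualPair.symm {P Q : Finset (Finset V)} (h : DualPair P Q) : DualPair Q P where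
  meets A hA B hB := by rw [Finset.inter_comm]; exact h.meets B hB A hA
  cover S := by
    rcases h.cover Sᶜ with ⟨A, hA, hAS⟩ | ⟨B, hB, hBS⟩
    · exact Or.inr ⟨A, hA, Finset.disjoint_left.2 fun x hx hxS =>
        (Finset.mem_compl.1 (hAS hx)) hxS⟩
    · refine Or.inl ⟨B, hB, fun x hx => ?_⟩
      by_contra hxS
      exact Finset.disjoint_left.1 hBS hx (Finset.mem_compl.2 hxS)
  antiP := h.antiQ
  antiQ := h.antiP

/-- For `x ∈ A ∈ P` there is `B ∈ Q` with `A ∩ B = {x}`. -/
theorem DualPair.exists_single {P Q : Finset (Finset V)} (h : DualPair P Q) {A : Finset V}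
    (hA : A ∈ P) {x : V} (hx : x ∈ A) : ∃ B ∈ Q, x ∈ B ∧ ∀ y ∈ A, y ∈ B → y = x := by
  rcases h.cover (A.erase x) with ⟨A', hA', hsub⟩ | ⟨B, hB, hdis⟩
  · have h1 := h.antiP A' hA' A hA (hsub.trans (Finset.erase_subset _ _))
    rw [h1] at hsub
    exact absurd (hsub hx) (Finset.notMem_erase _ _)
  · have h2 : ∀ y ∈ A, y ∈ B → y = x := by
      intro y hy hyB
      by_contra hne
      exact Finset.disjoint_left.1 hdis hyB (Finset.mem_erase.2 ⟨hne, hy⟩)
    obtain ⟨z, hz⟩ := h.meets A hA B hB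
    rw [Finset.mem_inter] at hz
    have h3 := h2 z hz.1 hz.2
    exact ⟨B, hB, h3 ▸ hz.2, h2⟩

theorem DualPair.mem_union {P Q : Finset (Finset V)} (h : DualPair P Q) {x : V}
    (hx : ∃ A ∈ P, x ∈ A) : ∃ B ∈ Q, x ∈ B := by
  obtain ⟨A, hA, hxA⟩ := hx
  obtain ⟨B, hB, hxB, -⟩ := h.exists_single hA hxA
  exact ⟨B, hB, hxB⟩

/-- The points covered by the members of `P` (equivalently of `Q`). -/
def supp (P : Finset (Finset V)) : Finset V := Finset.univ.filter fun x => ∃ A ∈ P, x ∈ A

theorem mem_supp {P : Finset (Finset V)} {x : V} : x ∈ supp P ↔ ∃ A ∈ P, x ∈ A := by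
  simp [supp]

theorem DualPair.supp_eq {P Q : Finset (Finset V)} (h : DualPair P Q) : supp P = supp Q := by
  ext x
  rw [mem_supp, mem_supp]
  exact ⟨h.mem_union, h.symm.mem_union⟩

/-- If there are few members, every member of `Q` has a point in no other member of `Q`. -/
theorem DualPair.exists_private {P Q : Finset (Finset V)} (h : DualPair P Q)
    (hP : P.Nonempty) (hcard : P.card + Q.card ≤ (supp P).card + 1) {B₀ : Finset V}
    (hB₀ : B₀ ∈ Q) : ∃ x ∈ B₀, ∀ B ∈ Q, x ∈ B → B = B₀ := by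
  by_contra hcon
  push Not at hcon
  let E := Option ({A // A ∈ P} ⊕ {B // B ∈ Q})
  let C := Bool ⊕ {v // v ∈ supp P}
  let Inc : E → C → Prop := fun e c =>
    match e, c with
    | none, Sum.inl _ => True
    | none, Sum.inr _ => False
    | some (Sum.inl _), Sum.inl b => b = false
    | some (Sum.inl A), Sum.inr v => v.1 ∈ A.1
    | some (Sum.inr _), Sum.inl b => b = true
    | some (Sum.inr B), Sum.inr v => v.1 ∈ B.1
  let σ : E → Bool := fun e =>
    match e with
    | none => true
    | some (Sum.inl _) => false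
    | some (Sum.inr B) => decide (B.1 ≠ B₀)
  obtain ⟨A₁, hA₁⟩ := hP
  have hpos : ∀ c, ∃ e, Inc e c ∧ σ e = true := by
    intro c
    rcases c with b | ⟨v, hv⟩
    · exact ⟨none, trivial, rfl⟩
    · -- a member of `Q` different from `B₀` containing `v`
      have : ∃ B ∈ Q, v ∈ B ∧ B ≠ B₀ := by
        by_cases hvB : v ∈ B₀
        · exact hcon v hvB
        · rw [h.supp_eq, mem_supp] at hv
          obtain ⟨B, hB, hvB'⟩ := hv
          exact ⟨B, hB, hvB', fun h => hvB (h ▸ hvB')⟩
      obtain ⟨B, hB, hvB, hne⟩ := this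
      exact ⟨some (Sum.inr ⟨B, hB⟩), hvB, by simp [σ, hne]⟩
  have hneg : ∀ c, ∃ e, Inc e c ∧ σ e = false := by
    intro c
    rcases c with b | ⟨v, hv⟩
    · cases b
      · exact ⟨some (Sum.inl ⟨A₁, hA₁⟩), rfl, rfl⟩
      · exact ⟨some (Sum.inr ⟨B₀, hB₀⟩), rfl, by simp [σ]⟩
    · rw [mem_supp] at hv
      obtain ⟨A, hA, hvA⟩ := hv
      exact ⟨some (Sum.inl ⟨A, hA⟩), hvA, rfl⟩
  have hcardEC : Fintype.card E ≤ Fintype.card C := by
    simp only [E, C, Fintype.card_option, Fintype.card_sum, Fintype.card_coe, Fintype.card_bool]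
    omega
  obtain ⟨y, hy0, hy⟩ := balanced_vector Inc σ hpos hneg hcardEC
  -- the values on `V`
  let w : V → ℝ := fun v => if hv : v ∈ supp P then y (Sum.inr ⟨v, hv⟩) else 0
  have hw : ∀ v (hv : v ∈ supp P), w v = y (Sum.inr ⟨v, hv⟩) := fun v hv => dif_pos hv
  -- a positive `z` value (up to sign) is impossible
  have key : ∀ y : C → ℝ, (∀ e, (∀ c, Inc e c → y c = 0) ∨
      ((∃ c, Inc e c ∧ 0 < y c) ∧ ∃ c, Inc e c ∧ y c < 0)) →
      0 < y (Sum.inl false) → y (Sum.inl true) < 0 → False := by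
    intro y hy h1 h2
    rcases h.cover (Finset.univ.filter fun v => ∃ hv : v ∈ supp P, 0 ≤ y (Sum.inr ⟨v, hv⟩)) with
      ⟨A, hA, hAS⟩ | ⟨B, hB, hBS⟩
    · rcases hy (some (Sum.inl ⟨A, hA⟩)) with h3 | ⟨-, c, hc, hyc⟩
      · have := h3 (Sum.inl false) rfl
        linarith
      · rcases c with b | ⟨v, hv⟩
        · have hb : b = false := hc
          subst hb
          linarith
        · have hvA : v ∈ A := hc
          have := hAS hvA
          rw [Finset.mem_filter] at this
          obtain ⟨-, hv', h4⟩ := this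
          linarith
    · rcases hy (some (Sum.inr ⟨B, hB⟩)) with h3 | ⟨⟨c, hc, hyc⟩, -⟩
      · have := h3 (Sum.inl true) rfl
        linarith
      · rcases c with b | ⟨v, hv⟩
        · have hb : b = true := hc
          subst hb
          linarith
        · have hvB : v ∈ B := hc
          apply Finset.disjoint_left.1 hBS hvB
          rw [Finset.mem_filter]
          exact ⟨Finset.mem_univ _, hv, hyc.le⟩
  rcases lt_trichotomy (y (Sum.inl false)) 0 with hz | hz | hz
  · -- negative
    refine key (-y) ?_ ?_ ?_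
    · intro e
      rcases hy e with h1 | ⟨⟨c, hc, h1⟩, ⟨c', hc', h2⟩⟩
      · left
        intro c hc
        simp [h1 c hc]
      · right
        exact ⟨⟨c', hc', by simp only [Pi.neg_apply]; linarith⟩,
          ⟨c, hc, by simp only [Pi.neg_apply]; linarith⟩⟩
    · simp only [Pi.neg_apply]; linarith
    · rcases hy none with h1 | ⟨⟨c, hc, h1⟩, -⟩
      · have := h1 (Sum.inl false) trivial
        linarith
      · rcases c with b | v
        · cases b
          · linarith
          · simp only [Pi.neg_apply]; linarith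
        · exact hc.elim
  · -- zero
    have hz' : y (Sum.inl true) = 0 := by
      rcases hy none with h1 | ⟨⟨c, hc, h1⟩, ⟨c', hc', h2⟩⟩
      · exact h1 _ trivial
      · rcases c with b | v
        · rcases c' with b' | v'
          · cases b <;> cases b' <;> linarith
          · exact hc'.elim
        · exact hc.elim
    -- members either vanish or have both signs
    have hPs : ∀ A ∈ P, (∀ v ∈ A, w v = 0) ∨ ((∃ v ∈ A, 0 < w v) ∧ ∃ v ∈ A, w v < 0) := by
      intro A hA
      have hsup : ∀ v ∈ A, v ∈ supp P := fun v hv => mem_supp.2 ⟨A, hA, hv⟩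
      rcases hy (some (Sum.inl ⟨A, hA⟩)) with h1 | ⟨⟨c, hc, h1⟩, ⟨c', hc', h2⟩⟩
      · left
        intro v hv
        rw [hw v (hsup v hv)]
        exact h1 (Sum.inr ⟨v, hsup v hv⟩) hv
      · right
        constructor
        · rcases c with b | ⟨v, hv⟩
          · have hb : b = false := hc
            subst hb; linarith
          · exact ⟨v, hc, by rw [hw v hv]; exact h1⟩
        · rcases c' with b | ⟨v, hv⟩
          · have hb : b = false := hc'
            subst hb; linarith
          · exact ⟨v, hc', by rw [hw v hv]; exact h2⟩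
    have hQs : ∀ B ∈ Q, (∀ v ∈ B, w v = 0) ∨ ((∃ v ∈ B, 0 < w v) ∧ ∃ v ∈ B, w v < 0) := by
      intro B hB
      have hsup : ∀ v ∈ B, v ∈ supp P := fun v hv => by
        rw [h.supp_eq]; exact mem_supp.2 ⟨B, hB, hv⟩
      rcases hy (some (Sum.inr ⟨B, hB⟩)) with h1 | ⟨⟨c, hc, h1⟩, ⟨c', hc', h2⟩⟩
      · left
        intro v hv
        rw [hw v (hsup v hv)]
        exact h1 (Sum.inr ⟨v, hsup v hv⟩) hv
      · right
        constructor
        · rcases c with b | ⟨v, hv⟩
          · have hb : b = true := hc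
            subst hb; linarith
          · exact ⟨v, hc, by rw [hw v hv]; exact h1⟩
        · rcases c' with b | ⟨v, hv⟩
          · have hb : b = true := hc'
            subst hb; linarith
          · exact ⟨v, hc', by rw [hw v hv]; exact h2⟩
    -- some `w v` is nonzero
    obtain ⟨v, hv, hwv⟩ : ∃ v ∈ supp P, w v ≠ 0 := by
      by_contra hall
      push Not at hall
      apply hy0
      funext c
      rcases c with b | ⟨v, hv⟩
      · cases b
        · exact hz
        · exact hz'
      · rw [← hw v hv]; exact hall v hv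
    obtain ⟨A₂, hA₂, hvA₂⟩ := mem_supp.1 hv
    rcases h.cover (Finset.univ.filter fun u => 0 < w u ∨ (w u = 0 ∧ u ∈ A₂)) with
      ⟨A, hA, hAS⟩ | ⟨B, hB, hBS⟩
    · rcases hPs A hA with h1 | ⟨-, u, hu, hwu⟩
      · have hsub : A ⊆ A₂ := by
          intro u hu
          have h2 := hAS hu
          rw [Finset.mem_filter] at h2
          rcases h2.2 with h3 | h3
          · rw [h1 u hu] at h3; exact absurd h3 (lt_irrefl _)
          · exact h3.2
        have heq := h.antiP A hA A₂ hA₂ hsub
        rw [heq] at h1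
        exact hwv (h1 v hvA₂)
      · have h2 := hAS hu
        rw [Finset.mem_filter] at h2
        rcases h2.2 with h3 | h3
        · linarith
        · linarith [h3.1]
    · rcases hQs B hB with h1 | ⟨⟨u, hu, hwu⟩, -⟩
      · obtain ⟨u, hu⟩ := h.meets A₂ hA₂ B hB
        rw [Finset.mem_inter] at hu
        apply Finset.disjoint_left.1 hBS hu.2
        rw [Finset.mem_filter]
        exact ⟨Finset.mem_univ _, Or.inr ⟨h1 u hu.2, hu.1⟩⟩
      · apply Finset.disjoint_left.1 hBS hu
        rw [Finset.mem_filter]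
        exact ⟨Finset.mem_univ _, Or.inl hwu⟩
  · refine key y hy hz ?_
    rcases hy none with h1 | ⟨-, c, hc, h1⟩
    · have := h1 (Sum.inl false) trivial
      linarith
    · rcases c with b | v
      · cases b
        · linarith
        · exact h1
      · exact hc.elim

/-- **A dual pair with `|P| + |Q| = n + 1` has a singleton.** -/
theorem DualPair.exists_singleton {P Q : Finset (Finset V)} (h : DualPair P Q)
    (hP : P.Nonempty) (hQ : Q.Nonempty) (hcard : P.card + Q.card = (supp P).card + 1) :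
    ∃ v, ({v} : Finset V) ∈ P ∨ ({v} : Finset V) ∈ Q := by
  classical
  have hprivQ : ∀ B ∈ Q, ∃ x ∈ B, ∀ B' ∈ Q, x ∈ B' → B' = B :=
    fun B hB => h.exists_private hP hcard.le hB
  have hcard' : Q.card + P.card ≤ (supp Q).card + 1 := by rw [← h.supp_eq]; omega
  have hprivP : ∀ A ∈ P, ∃ x ∈ A, ∀ A' ∈ P, x ∈ A' → A' = A :=
    fun A hA => h.symm.exists_private hQ hcard' hA
  haveI : Nonempty V := by
    obtain ⟨A, hA⟩ := hP
    obtain ⟨x, -⟩ := hprivP A hA
    exact ⟨x⟩
  -- a common private point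
  obtain ⟨A₀, hA₀, B₀, hB₀, x, hxA, hxB, hxP, hxQ⟩ : ∃ A₀ ∈ P, ∃ B₀ ∈ Q, ∃ x, x ∈ A₀ ∧ x ∈ B₀ ∧
      (∀ A ∈ P, x ∈ A → A = A₀) ∧ (∀ B ∈ Q, x ∈ B → B = B₀) := by
    choose! p hp1 hp2 using hprivP
    choose! q hq1 hq2 using hprivQ
    by_contra hcon
    push Not at hcon
    have hdis : Disjoint (P.image p) (Q.image q) := by
      rw [Finset.disjoint_left]
      intro z hz hz'
      rw [Finset.mem_image] at hz hz'
      obtain ⟨A, hA, rfl⟩ := hz
      obtain ⟨B, hB, hBA⟩ := hz'
      obtain ⟨B', hB', h1, h2⟩ := hcon A hA B hB (p A) (hp1 A hA) (hBA ▸ hq1 B hB) (hp2 A hA)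
      exact h2 (hq2 B hB B' hB' (hBA ▸ h1))
    have h1 : (P.image p).card = P.card := Finset.card_image_of_injOn (by
      intro A hA A' hA' heq
      exact (hp2 A' hA' A hA (heq ▸ hp1 A hA)))
    have h2 : (Q.image q).card = Q.card := Finset.card_image_of_injOn (by
      intro B hB B' hB' heq
      exact (hq2 B' hB' B hB (heq ▸ hq1 B hB)))
    have h3 : P.image p ∪ Q.image q ⊆ supp P := by
      intro z hz
      rw [Finset.mem_union, Finset.mem_image, Finset.mem_image] at hz
      rcases hz with ⟨A, hA, rfl⟩ | ⟨B, hB, rfl⟩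
      · exact mem_supp.2 ⟨A, hA, hp1 A hA⟩
      · rw [h.supp_eq]; exact mem_supp.2 ⟨B, hB, hq1 B hB⟩
    have h4 := Finset.card_le_card h3
    rw [Finset.card_union_of_disjoint hdis] at h4
    omega
  -- `A₀ ∩ B₀ = {x}`
  have hAB : ∀ y ∈ A₀, y ∈ B₀ → y = x := by
    obtain ⟨B, hB, h1, h2⟩ := h.exists_single hA₀ hxA
    rw [hxQ B hB h1] at h2
    exact h2
  -- structure of the other members, for both sides
  have str : ∀ {P Q : Finset (Finset V)} (h : DualPair P Q) {A₀ B₀ : Finset V}, A₀ ∈ P →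
      B₀ ∈ Q → x ∈ A₀ → x ∈ B₀ → (∀ A ∈ P, x ∈ A → A = A₀) → (∀ B ∈ Q, x ∈ B → B = B₀) →
      (∀ y ∈ A₀, y ∈ B₀ → y = x) → (∀ A ∈ P, ∃ x ∈ A, ∀ A' ∈ P, x ∈ A' → A' = A) →
      ∀ d ∈ B₀, d ≠ x → ∃ A ∈ P, d ∈ A ∧ (∀ y ∈ A, y = d ∨ (y ∈ A₀ ∧ y ≠ x)) ∧
        ∀ A' ∈ P, d ∈ A' → A' = A := by
    intro P Q h A₀ B₀ hA₀ hB₀ hxA hxB hxP hxQ hAB hprivP d hd hdx
    rcases h.cover (insert d (A₀.erase x)) with ⟨A, hA, hAS⟩ | ⟨B, hB, hBS⟩
    · have hy : ∀ y ∈ A, y = d ∨ (y ∈ A₀ ∧ y ≠ x) := by
        intro y hy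
        have := hAS hy
        rw [Finset.mem_insert, Finset.mem_erase] at this
        tauto
      have hdA : d ∈ A := by
        obtain ⟨z, hz⟩ := h.meets A hA B₀ hB₀
        rw [Finset.mem_inter] at hz
        rcases hy z hz.1 with h1 | h1
        · rw [← h1]; exact hz.1
        · exact absurd (hAB z h1.1 hz.2) h1.2
      refine ⟨A, hA, hdA, hy, ?_⟩
      obtain ⟨u, hu, hupriv⟩ := hprivP A hA
      rcases hy u hu with h1 | h1
      · rw [← h1]; exact hupriv
      · have h2 := hupriv A₀ hA₀ h1.1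
        exfalso
        have h3 : x ∈ A := by rw [← h2]; exact hxA
        rcases hy x h3 with h4 | h4
        · exact hdx h4.symm
        · exact h4.2 rfl
    · exfalso
      obtain ⟨z, hz⟩ := h.meets A₀ hA₀ B hB
      rw [Finset.mem_inter] at hz
      have h1 : z = x := by
        by_contra hne
        exact Finset.disjoint_left.1 hBS hz.2
          (Finset.mem_insert.2 (Or.inr (Finset.mem_erase.2 ⟨hne, hz.1⟩)))
      have h2 := hxQ B hB (h1 ▸ hz.2)
      rw [h2] at hBS
      exact Finset.disjoint_left.1 hBS hd (Finset.mem_insert_self _ _)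
  have strP := str h hA₀ hB₀ hxA hxB hxP hxQ hAB hprivP
  have strQ := str h.symm hB₀ hA₀ hxB hxA hxQ hxP (fun y h1 h2 => hAB y h2 h1) hprivQ
  by_cases hAs : A₀ = {x}
  · exact ⟨x, Or.inl (hAs ▸ hA₀)⟩
  by_cases hBs : B₀ = {x}
  · exact ⟨x, Or.inr (hBs ▸ hB₀)⟩
  -- `P d` and `Q a`
  choose! Pd hPd1 hPd2 hPd3 hPd4 using strP
  choose! Qa hQa1 hQa2 hQa3 hQa4 using strQ
  -- pick `a` with smallest `Qa a`
  have hne : (A₀.erase x).Nonempty := by
    rw [Finset.nonempty_iff_ne_empty]
    intro h1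
    apply hAs
    apply Finset.eq_singleton_iff_unique_mem.2 ⟨hxA, fun y hy => ?_⟩
    by_contra h2
    have : y ∈ A₀.erase x := Finset.mem_erase.2 ⟨h2, hy⟩
    rw [h1] at this
    exact absurd this (Finset.notMem_empty _)
  obtain ⟨a, ha, hmin⟩ := Finset.exists_min_image (A₀.erase x) (fun a => (Qa a).card) hne
  have ha0 := Finset.mem_of_mem_erase ha
  have hax := Finset.ne_of_mem_erase ha
  by_cases hQs : Qa a = {a}
  · exact ⟨a, Or.inr (hQs ▸ hQa1 a ha0 hax)⟩
  obtain ⟨d, hd, hda⟩ : ∃ d ∈ Qa a, d ≠ a := by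
    by_contra hcon
    push Not at hcon
    exact hQs (Finset.eq_singleton_iff_unique_mem.2 ⟨hQa2 a ha0 hax, hcon⟩)
  have hd0 : d ∈ B₀ ∧ d ≠ x := by
    rcases hQa3 a ha0 hax d hd with h1 | h1
    · exact absurd h1 hda
    · exact h1
  refine ⟨d, Or.inl ?_⟩
  suffices hs : Pd d = {d} by rw [← hs]; exact hPd1 d hd0.1 hd0.2
  by_contra hPs
  obtain ⟨a', ha'd, hne'⟩ : ∃ a' ∈ Pd d, a' ≠ d := by
    by_contra hcon
    push Not at hcon
    exact hPs (Finset.eq_singleton_iff_unique_mem.2 ⟨hPd2 d hd0.1 hd0.2, hcon⟩)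
  have ha' : a' ∈ A₀ ∧ a' ≠ x := by
    rcases hPd3 d hd0.1 hd0.2 a' ha'd with h1 | h1
    · exact absurd h1 hne'
    · exact h1
  -- `a' ∈ Pd d` implies `d ∉ Qa a'`
  have hdQ : ∀ b ∈ Pd d, b ∈ A₀ → b ≠ x → d ∉ Qa b := by
    intro b hb hbA hbx hdb
    obtain ⟨B, hB, h1, h2⟩ := h.exists_single (hPd1 d hd0.1 hd0.2) hb
    rw [hQa4 b hbA hbx B hB h1] at h2
    have := h2 d (hPd2 d hd0.1 hd0.2) hdb
    rw [this] at hd0
    exact hbx (hAB b hbA hd0.1)
  have hda' : d ∉ Qa a' := hdQ a' ha'd ha'.1 ha'.2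
  -- the transversal
  set T : Finset V := insert a (insert a' (Qa a ∩ Qa a')) with hT
  have hTt : ∀ A ∈ P, ¬ A ⊆ Tᶜ := by
    intro A hA hsub
    have hnT : ∀ y ∈ A, y ∉ T := fun y hy => Finset.mem_compl.1 (hsub hy)
    have haA : a ∉ A := fun h1 => hnT a h1 (Finset.mem_insert_self _ _)
    have ha'A : a' ∉ A := fun h1 => hnT a' h1 (Finset.mem_insert_of_mem (Finset.mem_insert_self _ _))
    have hAne : A ≠ A₀ := fun h1 => haA (h1 ▸ ha0)
    obtain ⟨d', hd'⟩ := h.meets A hA B₀ hB₀
    rw [Finset.mem_inter] at hd'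
    have hd'x : d' ≠ x := by
      intro h1
      exact hAne (hxP A hA (h1 ▸ hd'.1))
    have hAP : A = Pd d' := hPd4 d' hd'.2 hd'x A hA hd'.1
    have aux : ∀ b ∈ A₀, b ≠ x → b ∉ A → d' ∈ Qa b := by
      intro b hb hbx hbA
      obtain ⟨z, hz⟩ := h.meets A hA (Qa b) (hQa1 b hb hbx)
      rw [Finset.mem_inter] at hz
      rw [hAP] at hz
      rcases hPd3 d' hd'.2 hd'x z hz.1 with h1 | h1
      · rw [← h1]; exact hz.2
      · rcases hQa3 b hb hbx z hz.2 with h2 | h2
        · exfalso
          apply hbA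
          rw [hAP, ← h2]; exact hz.1
        · exact absurd (hAB z h1.1 h2.1) h1.2
    apply hnT d' hd'.1
    apply Finset.mem_insert_of_mem
    apply Finset.mem_insert_of_mem
    rw [Finset.mem_inter]
    exact ⟨aux a ha0 hax haA, aux a' ha'.1 ha'.2 ha'A⟩
  rcases h.cover Tᶜ with ⟨A, hA, hAS⟩ | ⟨B, hB, hBS⟩
  · exact hTt A hA hAS
  · have hBT : B ⊆ T := by
      intro y hy
      by_contra h1
      exact Finset.disjoint_left.1 hBS hy (Finset.mem_compl.2 h1)
    -- `B` contains a point of `A₀`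
    obtain ⟨b, hb⟩ := h.meets A₀ hA₀ B hB
    rw [Finset.mem_inter] at hb
    have hQaB : ∀ c ∈ A₀, c ≠ x → ∀ y ∈ Qa c, y ∈ A₀ → y = c := by
      intro c hc hcx y hy hyA
      rcases hQa3 c hc hcx y hy with h1 | h1
      · exact h1
      · exact absurd (hAB y hyA h1.1) h1.2
    have hbT := hBT hb.2
    rw [hT, Finset.mem_insert, Finset.mem_insert, Finset.mem_inter] at hbT
    have hbb : b = a ∨ b = a' := by
      rcases hbT with h1 | h1 | h1
      · exact Or.inl h1
      · exact Or.inr h1
      · exact Or.inl (hQaB a ha0 hax b h1.1 hb.1)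
    rcases hbb with h1 | h1
    · -- `B = Qa a`
      have hBa : B = Qa a := hQa4 a ha0 hax B hB (h1 ▸ hb.2)
      have hdB : d ∈ B := by rw [hBa]; exact hd
      have := hBT hdB
      rw [hT, Finset.mem_insert, Finset.mem_insert, Finset.mem_inter] at this
      rcases this with h2 | h2 | h2
      · exact hda h2
      · exact hne' h2.symm
      · exact hda' h2.2
    · have hBa : B = Qa a' := hQa4 a' ha'.1 ha'.2 B hB (h1 ▸ hb.2)
      -- `Qa a'` is smaller
      have haa : a ≠ a' := by
        intro h2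
        apply hda'
        rw [← h2]; exact hd
      have hinj : (Qa a').card < (Qa a).card := by
        have hsub : (Qa a').erase a' ⊆ ((Qa a).erase a).erase d := by
          intro y hy
          have hy1 := Finset.mem_of_mem_erase hy
          have hy2 := Finset.ne_of_mem_erase hy
          have hyT := hBT (hBa ▸ hy1)
          rw [hT, Finset.mem_insert, Finset.mem_insert, Finset.mem_inter] at hyT
          have hya : y ≠ a := by
            intro h2
            exact haa (hQaB a' ha'.1 ha'.2 a (h2 ▸ hy1) ha0)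
          rcases hyT with h2 | h2 | h2
          · exact absurd h2 hya
          · exact absurd h2 hy2
          · refine Finset.mem_erase.2 ⟨?_, Finset.mem_erase.2 ⟨hya, h2.1⟩⟩
            intro h3
            exact hda' (h3 ▸ h2.2)
        have h2 := Finset.card_le_card hsub
        have h3 : d ∈ (Qa a).erase a := Finset.mem_erase.2 ⟨hda, hd⟩
        have h4 := Finset.card_erase_add_one h3
        have h5 := Finset.card_erase_add_one (hQa2 a ha0 hax)
        have h6 := Finset.card_erase_add_one (hQa2 a' ha'.1 ha'.2)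
        omega
      exact absurd (hmin a' (Finset.mem_erase.2 ⟨ha'.2, ha'.1⟩)) (not_le.2 hinj)

end Pool.Agent.Q157.DualPair
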