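import Mathlib

/-!
# Free groups of rank continuum of unit quaternions

For every type `ι` of cardinality at most the continuum there are unit quaternions `u i`, `i : ι`,
generating a free group.  They are `ℓ / ‖ℓ‖` with `ℓ = (1 + t²) + s ((1 - t²) i + 2 t j)` for
algebraically independent reals `s`, `t`; freeness is seen by specialising `s` to `√-1`.
-/

namespace Pool.Agent.Q157.FreeQuat

open Quaternion

section lett

variable {R : Type*} [CommRing R]

/-- The letters. -/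
def lett (s t ε : R) : ℍ[R] := ⟨1 + t ^ 2, s * (ε * (1 - t ^ 2)), s * (ε * (2 * t)), 0⟩

theorem lett_re (s t ε : R) : (lett s t ε).re = 1 + t ^ 2 := rfl
theorem lett_imI (s t ε : R) : (lett s t ε).imI = s * (ε * (1 - t ^ 2)) := rfl
theorem lett_imJ (s t ε : R) : (lett s t ε).imJ = s * (ε * (2 * t)) := rfl
theorem lett_imK (s t ε : R) : (lett s t ε).imK = 0 := rfl

/-- General form of the triple product. -/
theorem triple_aux (s p a b p' a' b' : R) (hs : s ^ 2 = -1) (h1 : a ^ 2 + b ^ 2 = p ^ 2)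
    (x y : ℍ[R]) (hx : x = ⟨p, s * a, s * b, 0⟩) (hy : y = ⟨p', s * a', s * b', 0⟩) :
    x * y * x = (2 * (p * p' + (a * a' + b * b'))) • x := by
  have r1 : x.re = p := by rw [hx]
  have r2 : x.imI = s * a := by rw [hx]
  have r3 : x.imJ = s * b := by rw [hx]
  have r4 : x.imK = 0 := by rw [hx]
  have q1 : y.re = p' := by rw [hy]
  have q2 : y.imI = s * a' := by rw [hy]
  have q3 : y.imJ = s * b' := by rw [hy]
  have q4 : y.imK = 0 := by rw [hy]
  apply Quaternion.ext <;> simp only [Quaternion.re_mul, Quaternion.imI_mul, Quaternion.imJ_mul,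
    Quaternion.imK_mul, Quaternion.re_smul, Quaternion.imI_smul, Quaternion.imJ_smul,
    Quaternion.imK_smul, smul_eq_mul, r1, r2, r3, r4, q1, q2, q3, q4]
  · linear_combination (-2 * p * (a * a' + b * b') - p' * (a ^ 2 + b ^ 2)) * hs + p' * h1
  · linear_combination (-s * (a' * (a ^ 2 - b ^ 2) + 2 * a * b * b')) * hs - s * a' * h1
  · linear_combination (-s * (b' * (b ^ 2 - a ^ 2) + 2 * a * b * a')) * hs - s * b' * h1
  · ring

theorem lett_triple {s t t' ε ε' : R} (hs : s ^ 2 = -1) (hε : ε ^ 2 = 1) :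
    lett s t ε * lett s t' ε' * lett s t ε = (2 * ((1 + t ^ 2) * (1 + t' ^ 2) +
      ((ε * (1 - t ^ 2)) * (ε' * (1 - t' ^ 2)) + (ε * (2 * t)) * (ε' * (2 * t'))))) •
      lett s t ε :=
  triple_aux s _ _ _ _ _ _ hs (by linear_combination ((1 - t ^ 2) ^ 2 + (2 * t) ^ 2) * hε) _ _
    rfl rfl

theorem lett_sq {s t ε : R} (hs : s ^ 2 = -1) (hε : ε ^ 2 = 1) :
    lett s t ε * lett s t ε = (2 * (1 + t ^ 2)) • lett s t ε := by
  apply Quaternion.ext <;> simp only [Quaternion.re_mul, Quaternion.imI_mul, Quaternion.imJ_mul,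
    Quaternion.imK_mul, Quaternion.re_smul, Quaternion.imI_smul, Quaternion.imJ_smul,
    Quaternion.imK_smul, lett_re, lett_imI, lett_imJ, lett_imK, smul_eq_mul]
  · linear_combination (-ε ^ 2 * (1 - t ^ 2) ^ 2 - ε ^ 2 * (2 * t) ^ 2) * hs +
      ((1 - t ^ 2) ^ 2 + (2 * t) ^ 2) * hε
  · ring
  · ring
  · ring

theorem lett_mul_neg {s t ε : R} (hs : s ^ 2 = -1) (hε : ε ^ 2 = 1) :
    lett s t (-ε) * lett s t ε = 0 := by
  apply Quaternion.ext <;> simp only [Quaternion.re_mul, Quaternion.imI_mul, Quaternion.imJ_mul,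
    Quaternion.imK_mul, Quaternion.re_zero, Quaternion.imI_zero, Quaternion.imJ_zero,
    Quaternion.imK_zero, lett_re, lett_imI, lett_imJ, lett_imK]
  · linear_combination (ε ^ 2 * (1 - t ^ 2) ^ 2 + ε ^ 2 * (2 * t) ^ 2) * hs -
      ((1 - t ^ 2) ^ 2 + (2 * t) ^ 2) * hε
  · ring
  · ring
  · ring

/-- The sign of a letter. -/
def sg (b : Bool) : R := if b then 1 else -1

theorem sg_sq (b : Bool) : (sg b : R) ^ 2 = 1 := by cases b <;> simp [sg]

theorem neg_sg (b : Bool) : -(sg b : R) = sg (!b) := by cases b <;> simp [sg]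

/-- The product of the letters of a word. -/
def wprod {ι : Type*} (s t : ι → R) (L : List (ι × Bool)) : ℍ[R] :=
  (L.map fun x => lett (s x.1) (t x.1) (sg x.2)).prod

theorem wprod_cons {ι : Type*} (s t : ι → R) (x : ι × Bool) (L : List (ι × Bool)) :
    wprod s t (x :: L) = lett (s x.1) (t x.1) (sg x.2) * wprod s t L := by
  simp [wprod]

theorem wprod_nil {ι : Type*} (s t : ι → R) : wprod s t [] = 1 := by simp [wprod]

/-- Apply a ring homomorphism to the components. -/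
def qmap {S : Type*} [CommRing S] (f : R →+* S) (q : ℍ[R]) : ℍ[S] :=
  ⟨f q.re, f q.imI, f q.imJ, f q.imK⟩

theorem qmap_mul {S : Type*} [CommRing S] (f : R →+* S) (x y : ℍ[R]) :
    qmap f (x * y) = qmap f x * qmap f y := by
  have h1 : ∀ q : ℍ[R], (qmap f q).re = f q.re := fun _ => rfl
  have h2 : ∀ q : ℍ[R], (qmap f q).imI = f q.imI := fun _ => rfl
  have h3 : ∀ q : ℍ[R], (qmap f q).imJ = f q.imJ := fun _ => rfl
  have h4 : ∀ q : ℍ[R], (qmap f q).imK = f q.imK := fun _ => rfl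
  apply Quaternion.ext <;> simp only [Quaternion.re_mul, Quaternion.imI_mul, Quaternion.imJ_mul,
    Quaternion.imK_mul, h1, h2, h3, h4, map_add, map_sub, map_mul]

theorem qmap_lett {S : Type*} [CommRing S] (f : R →+* S) (s t : R) (b : Bool) :
    qmap f (lett s t (sg b)) = lett (f s) (f t) (sg b) := by
  apply Quaternion.ext
  · change f (1 + t ^ 2) = 1 + (f t) ^ 2
    simp
  · change f (s * (sg b * (1 - t ^ 2))) = f s * (sg b * (1 - (f t) ^ 2))
    cases b <;> simp [sg]
  · change f (s * (sg b * (2 * t))) = f s * (sg b * (2 * f t))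
    have h2 : f 2 = 2 := map_ofNat f 2
    cases b <;> simp [sg, h2]
  · change f 0 = 0
    simp

theorem qmap_one {S : Type*} [CommRing S] (f : R →+* S) : qmap f 1 = 1 := by
  apply Quaternion.ext
  · change f 1 = 1; simp
  · change f 0 = 0; simp
  · change f 0 = 0; simp
  · change f 0 = 0; simp

theorem qmap_wprod {S : Type*} [CommRing S] {ι : Type*} (f : R →+* S) (s t : ι → R)
    (L : List (ι × Bool)) : qmap f (wprod s t L) = wprod (fun i => f (s i)) (fun i => f (t i)) L := by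
  induction L with
  | nil => rw [wprod_nil, wprod_nil, qmap_one]
  | cons x L ih => rw [wprod_cons, wprod_cons, qmap_mul, qmap_lett, ih]

end lett

/-! ## The specialisation -/

section special

variable {ι : Type*} {τ : ι → ℝ}

theorem lett_ne_zero (t : ℝ) (b : Bool) : lett Complex.I (t : ℂ) (sg b) ≠ 0 := by
  intro h
  have h1 := congrArg (fun q : ℍ[ℂ] => q.re) h
  have h2 : (1 : ℂ) + (t : ℂ) ^ 2 = 0 := h1
  have h3 : ((1 + t ^ 2 : ℝ) : ℂ) = 0 := by push_cast; exact h2
  have h4 : (1 + t ^ 2 : ℝ) = 0 := by exact_mod_cast h3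
  nlinarith [sq_nonneg t]

theorem wprod_ne_zero (hτ : ∀ i, 0 < τ i) (hinj : Function.Injective τ) :
    ∀ L : List (ι × Bool), FreeGroup.IsReduced L →
      wprod (fun _ => Complex.I) (fun i => (τ i : ℂ)) L ≠ 0 := by
  have hI : Complex.I ^ 2 = -1 := Complex.I_sq
  intro L
  induction L with
  | nil => intro _; rw [wprod_nil]; exact one_ne_zero
  | cons a L ih =>
    intro hred
    rcases L with _ | ⟨b, L⟩
    · rw [wprod_cons, wprod_nil, mul_one]
      exact lett_ne_zero _ _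
    · have hred' : (a.1 = b.1 → a.2 = b.2) ∧ FreeGroup.IsReduced (b :: L) :=
        FreeGroup.isReduced_cons_cons.1 hred
      have hY := ih hred'.2
      intro hX
      rw [wprod_cons] at hX
      set Y := wprod (fun _ => Complex.I) (fun i => (τ i : ℂ)) (b :: L) with hYdef
      have hYc : Y = lett Complex.I (τ b.1 : ℂ) (sg b.2) *
          wprod (fun _ => Complex.I) (fun i => (τ i : ℂ)) L := by rw [hYdef, wprod_cons]
      by_cases hab : a.1 = b.1
      · have h2 := hred'.1 hab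
        rw [hab, h2, hYc, ← mul_assoc, lett_sq hI (sg_sq _), smul_mul_assoc, ← hYc] at hX
        rcases smul_eq_zero.1 hX with h3 | h3
        · have h4 : ((2 * (1 + τ b.1 ^ 2) : ℝ) : ℂ) = 0 := by push_cast; exact h3
          have h5 : (2 * (1 + τ b.1 ^ 2) : ℝ) = 0 := by exact_mod_cast h4
          nlinarith [sq_nonneg (τ b.1)]
        · exact hY h3
      · have h1 : lett Complex.I (τ b.1 : ℂ) (sg b.2) *
            (lett Complex.I (τ a.1 : ℂ) (sg a.2) * Y) = 0 := by rw [hX, mul_zero]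
        rw [hYc, ← mul_assoc, ← mul_assoc, lett_triple hI (sg_sq _), smul_mul_assoc, ← hYc] at h1
        rcases smul_eq_zero.1 h1 with h3 | h3
        · have hne : τ a.1 ≠ τ b.1 := fun h => hab (hinj h)
          have ha := hτ a.1
          have hb := hτ b.1
          have h4 : ∀ e : ℝ, (e = 1 ∨ e = -1) → (2 * ((1 + τ b.1 ^ 2) * (1 + τ a.1 ^ 2) +
              e * ((1 - τ b.1 ^ 2) * (1 - τ a.1 ^ 2) + (2 * τ b.1) * (2 * τ a.1))) : ℝ) ≠ 0 := by
            rintro e (rfl | rfl)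
            · have : (2 * ((1 + τ b.1 ^ 2) * (1 + τ a.1 ^ 2) +
                1 * ((1 - τ b.1 ^ 2) * (1 - τ a.1 ^ 2) + (2 * τ b.1) * (2 * τ a.1))) : ℝ) =
                4 * (1 + τ a.1 * τ b.1) ^ 2 := by ring
              rw [this]
              positivity
            · have : (2 * ((1 + τ b.1 ^ 2) * (1 + τ a.1 ^ 2) +
                -1 * ((1 - τ b.1 ^ 2) * (1 - τ a.1 ^ 2) + (2 * τ b.1) * (2 * τ a.1))) : ℝ) =
                4 * (τ a.1 - τ b.1) ^ 2 := by ring
              rw [this]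
              have h5 : τ a.1 - τ b.1 ≠ 0 := sub_ne_zero.2 hne
              positivity
          have h5 : ∃ e : ℝ, (e = 1 ∨ e = -1) ∧ (sg b.2 : ℂ) * sg a.2 = (e : ℂ) := by
            cases a.2 <;> cases b.2
            · exact ⟨1, Or.inl rfl, by simp [sg]⟩
            · exact ⟨-1, Or.inr rfl, by simp [sg]⟩
            · exact ⟨-1, Or.inr rfl, by simp [sg]⟩
            · exact ⟨1, Or.inl rfl, by simp [sg]⟩
          obtain ⟨e, he, hse⟩ := h5
          apply h4 e he
          have h6 : ((2 * ((1 + τ b.1 ^ 2) * (1 + τ a.1 ^ 2) +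
              e * ((1 - τ b.1 ^ 2) * (1 - τ a.1 ^ 2) + (2 * τ b.1) * (2 * τ a.1))) : ℝ) : ℂ) = 0 := by
            push_cast
            rw [← hse, ← h3]
            ring
          exact_mod_cast h6
        · exact hY h3

/-- The specialised product of a nonempty reduced word is not a scalar. -/
theorem wprod_not_scalar (hτ : ∀ i, 0 < τ i) (hinj : Function.Injective τ)
    (L : List (ι × Bool)) (hL : L ≠ []) (hred : FreeGroup.IsReduced L) :
    ¬ ((wprod (fun _ => Complex.I) (fun i => (τ i : ℂ)) L).imI = 0 ∧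
      (wprod (fun _ => Complex.I) (fun i => (τ i : ℂ)) L).imJ = 0 ∧
      (wprod (fun _ => Complex.I) (fun i => (τ i : ℂ)) L).imK = 0) := by
  rintro ⟨h1, h2, h3⟩
  have hne := wprod_ne_zero hτ hinj L hred
  rcases L with _ | ⟨a, L⟩
  · exact hL rfl
  have h4 : lett Complex.I (τ a.1 : ℂ) (-sg a.2) *
      wprod (fun _ => Complex.I) (fun i => (τ i : ℂ)) (a :: L) = 0 := by
    rw [wprod_cons, ← mul_assoc, lett_mul_neg Complex.I_sq (sg_sq _), zero_mul]
  set X := wprod (fun _ => Complex.I) (fun i => (τ i : ℂ)) (a :: L) with hX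
  have h5 := congrArg (fun q : ℍ[ℂ] => q.re) h4
  simp only [Quaternion.re_mul, h1, h2, h3, mul_zero, sub_zero, Quaternion.re_zero] at h5
  rcases mul_eq_zero.1 h5 with h6 | h6
  · rw [neg_sg] at h6
    have h7 : ((1 + τ a.1 ^ 2 : ℝ) : ℂ) = 0 := by push_cast; exact h6
    have h8 : (1 + τ a.1 ^ 2 : ℝ) = 0 := by exact_mod_cast h7
    nlinarith [sq_nonneg (τ a.1)]
  · exact hne (Quaternion.ext _ _ h6 h1 h2 h3)

end special

/-! ## Algebraically independent reals -/

open Cardinal in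
theorem exists_algebraicIndependent (ι : Type) (hι : #ι ≤ 𝔠) :
    ∃ r : ι → ℝ, AlgebraicIndependent ℚ r := by
  obtain ⟨κ, x, hx⟩ := exists_isTranscendenceBasis' ℚ ℝ
  have h1 : 𝔠 ≤ #κ := by
    have := hx.isAlgebraic
    have h2 := Algebra.IsAlgebraic.cardinalMk_le_max (Algebra.adjoin ℚ (Set.range x)) ℝ
    have h3 : #(Algebra.adjoin ℚ (Set.range x)) = #(MvPolynomial κ ℚ) :=
      (mk_congr hx.1.aevalEquiv.toEquiv).symm
    have h4 : #(MvPolynomial κ ℚ) ≤ max (max #ℚ #κ) ℵ₀ := MvPolynomial.cardinalMk_le_max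
    rw [h3, mk_real] at h2
    have h5 : #ℚ = ℵ₀ := Cardinal.mkRat
    rw [h5] at h4
    by_contra hcon
    push Not at hcon
    have h6 : max (max ℵ₀ #κ) ℵ₀ < 𝔠 :=
      max_lt (max_lt aleph0_lt_continuum hcon) aleph0_lt_continuum
    have h7 := h2.trans (max_le_max h4 le_rfl)
    exact absurd h7 (not_le.2 (max_lt h6 aleph0_lt_continuum))
  obtain ⟨f⟩ := (hι.trans h1)
  exact ⟨x ∘ f, hx.1.comp f f.injective⟩

/-! ## The free group -/

open Cardinal in
/-- Unit quaternions generating a free group of rank `#ι ≤ 𝔠`. -/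
theorem exists_free (ι : Type) (hι : #ι ≤ 𝔠) :
    ∃ u : ι → (ℍ[ℝ])ˣ, (∀ i, ‖(u i : ℍ[ℝ])‖ = 1) ∧ Function.Injective (FreeGroup.lift u) := by
  classical
  -- algebraically independent parameters
  obtain ⟨r, hr⟩ := exists_algebraicIndependent (ι ⊕ ι) (by
    rw [mk_sum]
    simp only [lift_id]
    exact (add_le_add hι hι).trans (by rw [continuum_add_self]))
  let s : ι → ℝ := fun i => r (Sum.inl i)
  let t : ι → ℝ := fun i => r (Sum.inr i)
  have hne : ∀ (s t ε : ℝ), lett s t ε ≠ 0 := by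
    intro s t ε h
    have h1 := congrArg (fun q : ℍ[ℝ] => q.re) h
    have h2 : 1 + t ^ 2 = 0 := h1
    nlinarith [sq_nonneg t]
  let l : ι → ℍ[ℝ] := fun i => lett (s i) (t i) 1
  have hl : ∀ i, l i ≠ 0 := fun i => hne _ _ _
  let u : ι → (ℍ[ℝ])ˣ := fun i => Units.mk0 (((‖l i‖)⁻¹ : ℝ) • l i)
    (smul_ne_zero (inv_ne_zero (norm_ne_zero_iff.2 (hl i))) (hl i))
  have hu : ∀ i, ((u i : (ℍ[ℝ])ˣ) : ℍ[ℝ]) = ((‖l i‖)⁻¹ : ℝ) • l i := fun _ => rfl
  have hnorm : ∀ i, ‖(u i : ℍ[ℝ])‖ = 1 := by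
    intro i
    rw [hu, norm_smul, norm_inv, norm_norm, inv_mul_cancel₀ (norm_ne_zero_iff.2 (hl i))]
  refine ⟨u, hnorm, ?_⟩
  -- each letter is a nonzero multiple of `lett`
  have hlet : ∀ x : ι × Bool, ∃ c : ℝ, c ≠ 0 ∧
      (((cond x.2 (u x.1) (u x.1)⁻¹ : (ℍ[ℝ])ˣ)) : ℍ[ℝ]) = c • lett (s x.1) (t x.1) (sg x.2) := by
    rintro ⟨i, b⟩
    cases b
    · refine ⟨(‖l i‖)⁻¹, inv_ne_zero (norm_ne_zero_iff.2 (hl i)), ?_⟩
      change (((u i)⁻¹ : (ℍ[ℝ])ˣ) : ℍ[ℝ]) = _
      have h1 : (((u i)⁻¹ : (ℍ[ℝ])ˣ) : ℍ[ℝ]) = star (u i : ℍ[ℝ]) := by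
        apply Units.inv_eq_of_mul_eq_one_right
        rw [Quaternion.self_mul_star, Quaternion.normSq_eq_norm_mul_self, hnorm i]
        simp
      rw [h1, hu, Quaternion.star_smul]
      congr 1
      apply Quaternion.ext
      · rw [Quaternion.re_star]; rfl
      · change -(s i * (1 * (1 - t i ^ 2))) = s i * (sg false * (1 - t i ^ 2))
        simp only [sg, Bool.false_eq_true, if_false]
        ring
      · change -(s i * (1 * (2 * t i))) = s i * (sg false * (2 * t i))
        simp [sg]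
      · change -(0 : ℝ) = 0
        simp
    · exact ⟨(‖l i‖)⁻¹, inv_ne_zero (norm_ne_zero_iff.2 (hl i)), by
        change ((u i : (ℍ[ℝ])ˣ) : ℍ[ℝ]) = _
        rw [hu]
        simp [l, sg]⟩
  have hword : ∀ L : List (ι × Bool), ∃ c : ℝ, c ≠ 0 ∧
      ((FreeGroup.lift u (FreeGroup.mk L) : (ℍ[ℝ])ˣ) : ℍ[ℝ]) = c • wprod s t L := by
    intro L
    induction L with
    | nil => exact ⟨1, one_ne_zero, by rw [wprod_nil, FreeGroup.lift_mk]; simp⟩
    | cons x L ih =>
      obtain ⟨c, hc, h⟩ := ih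
      obtain ⟨c', hc', h'⟩ := hlet x
      refine ⟨c' * c, mul_ne_zero hc' hc, ?_⟩
      rw [FreeGroup.lift_mk] at h ⊢
      rw [List.map_cons, List.prod_cons, Units.val_mul, h, h', wprod_cons, smul_mul_smul_comm]
  rw [injective_iff_map_eq_one]
  intro w hw
  by_contra hw1
  have hL : w.toWord ≠ [] := fun h => hw1 (FreeGroup.toWord_eq_nil_iff.1 h)
  obtain ⟨c, hc, h⟩ := hword w.toWord
  rw [FreeGroup.mk_toWord, hw, Units.val_one] at h
  -- the product is a scalar
  have h1 : wprod s t w.toWord = (c⁻¹ : ℝ) • (1 : ℍ[ℝ]) := by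
    rw [h, smul_smul, inv_mul_cancel₀ hc, one_smul]
  have hI : (wprod s t w.toWord).imI = 0 := by rw [h1]; simp
  have hJ : (wprod s t w.toWord).imJ = 0 := by rw [h1]; simp
  have hK : (wprod s t w.toWord).imK = 0 := by rw [h1]; simp
  -- the polynomial version
  let A := MvPolynomial (ι ⊕ ι) ℚ
  let φ : A →+* ℝ := (MvPolynomial.aeval r : A →ₐ[ℚ] ℝ).toRingHom
  have hφ : Function.Injective φ := hr
  let sA : ι → A := fun i => MvPolynomial.X (Sum.inl i)
  let tA : ι → A := fun i => MvPolynomial.X (Sum.inr i)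
  have hφs : ∀ i, φ (sA i) = s i := fun i => MvPolynomial.aeval_X r _
  have hφt : ∀ i, φ (tA i) = t i := fun i => MvPolynomial.aeval_X r _
  have hφw := qmap_wprod φ sA tA w.toWord
  simp only [hφs, hφt] at hφw
  have hIA : (wprod sA tA w.toWord).imI = 0 := by
    apply hφ
    rw [map_zero, ← hI, ← hφw]; rfl
  have hJA : (wprod sA tA w.toWord).imJ = 0 := by
    apply hφ
    rw [map_zero, ← hJ, ← hφw]; rfl
  have hKA : (wprod sA tA w.toWord).imK = 0 := by
    apply hφ
    rw [map_zero, ← hK, ← hφw]; rfl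
  -- specialise
  let τ : ι → ℝ := fun i => Real.exp (r (Sum.inl i))
  have hτ : ∀ i, 0 < τ i := fun i => Real.exp_pos _
  have hτi : Function.Injective τ := by
    intro i j hij
    have h2 := hr.injective (Real.exp_injective hij)
    exact Sum.inl_injective h2
  let ψ : A →+* ℂ := (MvPolynomial.aeval (Sum.elim (fun _ => Complex.I) fun i => (τ i : ℂ)) :
    A →ₐ[ℚ] ℂ).toRingHom
  have hψs : ∀ i, ψ (sA i) = Complex.I := fun i => MvPolynomial.aeval_X _ _
  have hψt : ∀ i, ψ (tA i) = (τ i : ℂ) := fun i => MvPolynomial.aeval_X _ _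
  have hψw := qmap_wprod ψ sA tA w.toWord
  simp only [hψs, hψt] at hψw
  apply wprod_not_scalar hτ hτi w.toWord hL FreeGroup.isReduced_toWord
  rw [← hψw]
  refine ⟨?_, ?_, ?_⟩
  · change ψ (wprod sA tA w.toWord).imI = 0
    rw [hIA, map_zero]
  · change ψ (wprod sA tA w.toWord).imJ = 0
    rw [hJA, map_zero]
  · change ψ (wprod sA tA w.toWord).imK = 0
    rw [hKA, map_zero]

end Pool.Agent.Q157.FreeQuat
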