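import Mathlib
import Pool.Agent.Q157.Walsh

/-!
Quadratic maps `𝔽₂ⁿ → 𝔽₂ⁿ`, ortho-derivatives and nonlinearity. Definitions.
-/

namespace Q157.Walsh

open Matrix

variable {n : ℕ}

/-- The derivative `D_a F(x) = F(x + a) + F(x)`. -/
def D (F : V n → V n) (a x : V n) : V n := F (x + a) + F x

/-- `f` is given by a polynomial of degree at most `2`:
`f(x) = c + ∑ l_i x_i + ∑ q_ij x_i x_j`. -/
def DegreeLETwo (f : V n → ZMod 2) : Prop :=
  ∃ (c : ZMod 2) (l : V n) (q : Matrix (Fin n) (Fin n) (ZMod 2)),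
    ∀ x, f x = c + l ⬝ᵥ x + x ⬝ᵥ (q *ᵥ x)

/-- `f` is affine, `f(x) = c + ∑ l_i x_i`. -/
def IsAffineFun (f : V n → ZMod 2) : Prop :=
  ∃ (c : ZMod 2) (l : V n), ∀ x, f x = c + l ⬝ᵥ x

/-- `F` is quadratic: its algebraic degree equals `2`. -/
def IsQuadratic (F : V n → V n) : Prop :=
  (∀ i, DegreeLETwo fun x => F x i) ∧ ¬ ∀ i, IsAffineFun fun x => F x i

/-- `G` is an ortho-derivative of `F`: `G(0) = 0`, and for `a ≠ 0` the vector `G(a)` is nonzero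
and orthogonal to all `D_a F(x) + D_a F(0)`. -/
def IsOrthoDerivative (F G : V n → V n) : Prop :=
  G 0 = 0 ∧ ∀ a, a ≠ 0 → G a ≠ 0 ∧ ∀ x, G a ⬝ᵥ (D F a x + D F a 0) = 0

/-- The nonlinearity of `G`: the minimum of `#{x : b · G(x) ≠ u · x + c}` over `b ≠ 0` and all
affine functions `x ↦ u · x + c`. -/
noncomputable def NL (G : V n → V n) : ℕ :=
  sInf {k | ∃ (b u : V n) (c : ZMod 2), b ≠ 0 ∧
    k = (Finset.univ.filter fun x => b ⬝ᵥ G x ≠ u ⬝ᵥ x + c).card}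

end Q157.Walsh
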