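import Mathlib
import Pool.Agent.Q157.WalshBasic

/-! Counting sums of three points of the graph of an APN function. -/

namespace Q157.Walsh

open Matrix

variable {n : ℕ}

theorem apn_pair {F : V n → V n} (hF : IsAPN F) {x y z : V n} (hxy : x ≠ y)
    (h : F z + F (z + (x + y)) = F x + F y) : z = x ∨ z = y := by
  by_contra hcon
  push Not at hcon
  have hne : x + y ≠ 0 := fun h0 => hxy (V_add_eq_zero.1 h0)
  have hcard := hF (x + y) hne (F x + F y)
  have hsub : ({x, y, z} : Finset (V n)) ⊆
      Finset.univ.filter fun w => F w + F (w + (x + y)) = F x + F y := by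
    intro w hw
    rw [Finset.mem_filter]
    refine ⟨Finset.mem_univ _, ?_⟩
    simp only [Finset.mem_insert, Finset.mem_singleton] at hw
    rcases hw with rfl | rfl | rfl
    · rw [V_add_cancel]
    · rw [add_comm x w, V_add_cancel, add_comm]
    · exact h
  have h3 : ({x, y, z} : Finset (V n)).card = 3 :=
    Finset.card_eq_three.2 ⟨x, y, z, hxy, hcon.1.symm, hcon.2.symm, rfl⟩
  have := Finset.card_le_card hsub
  omega

/-- The solutions of `F x + F y + F (x + y + a) = F a` for APN `F`. -/
theorem card_on_graph {F : V n → V n} (hF : IsAPN F) (a : V n) :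
    (Finset.univ.filter fun q : V n × V n =>
        F q.1 + F q.2 + F (q.1 + q.2 + a) = F a).card + 2 = 3 * 2 ^ n := by
  classical
  set D : Finset (V n × V n) := Finset.univ.image fun x : V n => (x, x) with hD
  set R : Finset (V n × V n) := Finset.univ.image fun x : V n => (a, x) with hR
  set C : Finset (V n × V n) := Finset.univ.image fun x : V n => (x, a) with hC
  have hDc : D.card = 2 ^ n := by
    rw [hD, Finset.card_image_of_injective _ (fun x y h => (Prod.mk.inj h).1), Finset.card_univ,
      card_V]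
  have hRc : R.card = 2 ^ n := by
    rw [hR, Finset.card_image_of_injective _ (fun x y h => (Prod.mk.inj h).2), Finset.card_univ,
      card_V]
  have hCc : C.card = 2 ^ n := by
    rw [hC, Finset.card_image_of_injective _ (fun x y h => (Prod.mk.inj h).1), Finset.card_univ,
      card_V]
  have heq : (Finset.univ.filter fun q : V n × V n =>
        F q.1 + F q.2 + F (q.1 + q.2 + a) = F a) = (D ∪ R) ∪ C := by
    ext ⟨x, y⟩
    simp only [Finset.mem_filter, Finset.mem_univ, true_and, Finset.mem_union, hD, hR, hC,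
      Finset.mem_image, Prod.mk.injEq]
    constructor
    · intro h
      by_cases hxy : x = y
      · left; left; exact ⟨x, rfl, hxy⟩
      · have h' : F a + F (a + (x + y)) = F x + F y := by
          rw [← h, add_comm a, add_assoc (F x + F y), V_add_self, add_zero]
        rcases apn_pair hF hxy h' with h1 | h1
        · left; right; exact ⟨y, h1, rfl⟩
        · right; exact ⟨x, rfl, h1⟩
    · rintro ((⟨w, rfl, rfl⟩ | ⟨w, rfl, rfl⟩) | ⟨w, rfl, rfl⟩)
      · rw [V_add_self, zero_add, V_add_self, zero_add]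
      · rw [add_comm (a + w) a, V_add_cancel, add_assoc, V_add_self, add_zero]
      · rw [add_assoc w a a, V_add_self, add_zero, add_comm (F w), add_assoc, V_add_self, add_zero]
  have hDR : (D ∪ R).card + 1 = 2 ^ n + 2 ^ n := by
    have hinter : D ∩ R = {(a, a)} := by
      ext ⟨x, y⟩
      simp only [hD, hR, Finset.mem_inter, Finset.mem_image, Finset.mem_univ, true_and,
        Prod.mk.injEq, Finset.mem_singleton]
      constructor
      · rintro ⟨⟨w, rfl, rfl⟩, ⟨w', rfl, rfl⟩⟩
        exact ⟨rfl, rfl⟩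
      · rintro ⟨rfl, rfl⟩
        exact ⟨⟨_, rfl, rfl⟩, ⟨_, rfl, rfl⟩⟩
    have h := Finset.card_union_add_card_inter D R
    rw [hinter, Finset.card_singleton, hDc, hRc] at h
    exact h
  have hDRC : ((D ∪ R) ∪ C).card + 1 = (D ∪ R).card + 2 ^ n := by
    have hinter : (D ∪ R) ∩ C = {(a, a)} := by
      ext ⟨x, y⟩
      simp only [hD, hR, hC, Finset.mem_inter, Finset.mem_union, Finset.mem_image,
        Finset.mem_univ, true_and, Prod.mk.injEq, Finset.mem_singleton]
      constructor
      · rintro ⟨(⟨w, rfl, rfl⟩ | ⟨w, rfl, rfl⟩), ⟨w', rfl, rfl⟩⟩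
        · exact ⟨rfl, rfl⟩
        · exact ⟨rfl, rfl⟩
      · rintro ⟨rfl, rfl⟩
        exact ⟨Or.inl ⟨_, rfl, rfl⟩, ⟨_, rfl, rfl⟩⟩
    have h := Finset.card_union_add_card_inter (D ∪ R) C
    rw [hinter, Finset.card_singleton, hCc] at h
    exact h
  rw [heq]
  omega

theorem mem_graph {F : V n → V n} {p : V n × V n} : p ∈ graph F ↔ p.2 = F p.1 := by
  unfold graph
  rw [Finset.mem_image]
  constructor
  · rintro ⟨x, _, rfl⟩; rfl
  · intro h
    exact ⟨p.1, Finset.mem_univ _, by rw [← h]⟩

theorem exists_third {α : Type*} [DecidableEq α] {T : Finset α} (hT : T.card = 3) {P R : α}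
    (hP : P ∈ T) (hR : R ∈ T) (hPR : P ≠ R) : ∃ S, P ≠ S ∧ R ≠ S ∧ T = {P, R, S} := by
  have h1 : (T.erase P).card = 2 := by rw [Finset.card_erase_of_mem hP, hT]
  have hR' : R ∈ T.erase P := Finset.mem_erase.2 ⟨hPR.symm, hR⟩
  have h2 : ((T.erase P).erase R).card = 1 := by rw [Finset.card_erase_of_mem hR', h1]
  obtain ⟨S, hS⟩ := Finset.card_eq_one.1 h2
  have hSm : S ∈ (T.erase P).erase R := by rw [hS]; simp
  rw [Finset.mem_erase, Finset.mem_erase] at hSm
  refine ⟨S, hSm.2.1.symm, hSm.1.symm, ?_⟩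
  rw [← Finset.insert_erase hP, ← Finset.insert_erase hR', hS]

theorem sum_three {α M : Type*} [DecidableEq α] [AddCommMonoid M] (f : α → M) {P R S : α}
    (h1 : P ≠ R) (h2 : P ≠ S) (h3 : R ≠ S) :
    ∑ t ∈ ({P, R, S} : Finset α), f t = f P + f R + f S := by
  rw [Finset.sum_insert (by simp [h1, h2]), Finset.sum_insert (by simp [h3]),
    Finset.sum_singleton, add_assoc]

/-- Ordered pairs and `3`-subsets: `6 m_F(a, b)` is the number of solutions of
`F x + F y + F (x + y + a) = b`. -/
theorem card_eq_six_mul_mult (F : V n → V n) {a b : V n} (hb : F a ≠ b) :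
    (Finset.univ.filter fun q : V n × V n =>
        F q.1 + F q.2 + F (q.1 + q.2 + a) = b).card = 6 * mult (graph F) (a, b) := by
  classical
  set Q := Finset.univ.filter fun q : V n × V n => F q.1 + F q.2 + F (q.1 + q.2 + a) = b with hQ
  set TT := ((graph F).powersetCard 3).filter fun T => ∑ t ∈ T, t = (a, b) with hTT
  let g : V n → V n × V n := fun x => (x, F x)
  have hg : Function.Injective g := fun x y h => (Prod.mk.inj h).1
  have hgg : ∀ x, g x ∈ graph F := fun x => mem_graph.2 rfl
  let Φ : V n × V n → Finset (V n × V n) := fun q => {g q.1, g q.2, g (q.1 + q.2 + a)}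
  have hdist : ∀ x y : V n, F x + F y + F (x + y + a) = b →
      x ≠ y ∧ x ≠ x + y + a ∧ y ≠ x + y + a := by
    intro x y h
    refine ⟨?_, ?_, ?_⟩
    · rintro rfl
      rw [V_add_self, zero_add, V_add_self, zero_add] at h
      exact hb h
    · intro h1
      have hya : y = a := by
        have : x + (x + y + a) = 0 := by rw [← h1, V_add_self]
        rw [add_assoc, V_add_cancel] at this
        exact V_add_eq_zero.1 this
      subst hya
      rw [add_assoc x y y, V_add_self, add_zero, add_comm (F x), add_assoc, V_add_self,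
        add_zero] at h
      exact hb h
    · intro h1
      have hxa : x = a := by
        have : y + (x + y + a) = 0 := by rw [← h1, V_add_self]
        rw [add_comm x y, add_assoc, V_add_cancel] at this
        exact V_add_eq_zero.1 this
      subst hxa
      rw [add_comm (x + y) x, V_add_cancel, add_assoc, V_add_self, add_zero] at h
      exact hb h
  have hmaps : ∀ q ∈ Q, Φ q ∈ TT := by
    intro q hq
    rw [hQ, Finset.mem_filter] at hq
    obtain ⟨h1, h2, h3⟩ := hdist q.1 q.2 hq.2
    rw [hTT, Finset.mem_filter, Finset.mem_powersetCard]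
    refine ⟨⟨?_, ?_⟩, ?_⟩
    · intro t ht
      simp only [Φ, Finset.mem_insert, Finset.mem_singleton] at ht
      rcases ht with rfl | rfl | rfl <;> exact hgg _
    · exact Finset.card_eq_three.2 ⟨_, _, _, hg.ne h1, hg.ne h2, hg.ne h3, rfl⟩
    · simp only [Φ]
      rw [sum_three _ (hg.ne h1) (hg.ne h2) (hg.ne h3)]
      simp only [g, Prod.mk_add_mk, hq.2, Prod.mk.injEq, and_true]
      rw [V_add_cancel]
  rw [Finset.card_eq_sum_card_fiberwise hmaps]
  have hfib : ∀ T ∈ TT, (Q.filter fun q => Φ q = T).card = 6 := by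
    intro T hT
    rw [hTT, Finset.mem_filter, Finset.mem_powersetCard] at hT
    obtain ⟨⟨hTG, hT3⟩, hTs⟩ := hT
    have hoff : T.offDiag.card = 6 := by rw [Finset.offDiag_card, hT3]
    rw [← hoff]
    refine Finset.card_bij (fun q _ => (g q.1, g q.2)) ?_ ?_ ?_
    · intro q hq
      rw [Finset.mem_filter, hQ, Finset.mem_filter] at hq
      obtain ⟨⟨_, hq1⟩, hq2⟩ := hq
      rw [Finset.mem_offDiag, ← hq2]
      refine ⟨by simp [Φ], by simp [Φ], ?_⟩
      exact hg.ne (hdist _ _ hq1).1
    · intro q _ q' _ h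
      exact Prod.ext (hg (Prod.mk.inj h).1) (hg (Prod.mk.inj h).2)
    · rintro ⟨P, R⟩ hPR
      rw [Finset.mem_offDiag] at hPR
      obtain ⟨hP, hR, hne⟩ := hPR
      simp only at hP hR hne
      obtain ⟨S, hPS, hRS, hTeq⟩ := exists_third hT3 hP hR hne
      have hS : S ∈ T := by rw [hTeq]; simp
      have hP2 := mem_graph.1 (hTG hP)
      have hR2 := mem_graph.1 (hTG hR)
      have hS2 := mem_graph.1 (hTG hS)
      rw [hTeq, sum_three _ hne hPS hRS] at hTs
      have e1 : P.1 + R.1 + S.1 = a := congrArg Prod.fst hTs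
      have e2 : P.2 + R.2 + S.2 = b := congrArg Prod.snd hTs
      have e3 : P.1 + R.1 + a = S.1 := by rw [← e1, V_add_cancel]
      have hPg : P = g P.1 := Prod.ext rfl hP2
      have hRg : R = g R.1 := Prod.ext rfl hR2
      have hSg : S = g S.1 := Prod.ext rfl hS2
      refine ⟨(P.1, R.1), ?_, ?_⟩
      · rw [Finset.mem_filter, hQ, Finset.mem_filter]
        refine ⟨⟨Finset.mem_univ _, ?_⟩, ?_⟩
        · simp only
          rw [e3, ← hP2, ← hR2, ← hS2, e2]
        · simp only [Φ]
          rw [e3, ← hPg, ← hRg, ← hSg, hTeq]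
      · simp only
        rw [← hPg, ← hRg]
  rw [Finset.sum_congr rfl hfib, Finset.sum_const, smul_eq_mul, mul_comm]
  rfl

/-- For a plateaued APN function with amplitudes `l v`, the sum of the squared amplitudes. -/
theorem sum_amplitude_sq {F : V n → V n} (hF : IsAPN F) {l : V n → ℤ}
    (h : ∀ v, v ≠ 0 → ∀ u, W F u v = 0 ∨ W F u v = l v ∨ W F u v = -l v) :
    ∑ v ∈ Finset.univ.erase 0, l v ^ 2 = 2 ^ n * (2 * 2 ^ n - 2) := by
  have h1 := third_moment_plateaued h 0 (F 0)
  have h2 := card_on_graph hF 0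
  have h3 : ((Finset.univ.filter fun q : V n × V n =>
        F q.1 + F q.2 + F (q.1 + q.2 + 0) = F 0).card : ℤ) = 3 * 2 ^ n - 2 := by
    have : ((Finset.univ.filter fun q : V n × V n =>
        F q.1 + F q.2 + F (q.1 + q.2 + 0) = F 0).card : ℤ) + 2 = 3 * 2 ^ n := by
      exact_mod_cast h2
    linarith
  rw [h3] at h1
  simp only [V_add_self, dotProduct_zero, chi_zero, mul_one] at h1
  linarith

/-- Exclude multiplicities in terms of the amplitudes. -/
theorem six_mult {F : V n → V n} {l : V n → ℤ}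
    (h : ∀ v, v ≠ 0 → ∀ u, W F u v = 0 ∨ W F u v = l v ∨ W F u v = -l v) {a b : V n}
    (hb : F a ≠ b) :
    2 ^ n * (6 * (mult (graph F) (a, b) : ℤ)) =
      2 ^ n * 2 ^ n + ∑ v ∈ Finset.univ.erase 0, l v ^ 2 * chi (v ⬝ᵥ (F a + b)) := by
  rw [← third_moment_plateaued h a b, card_eq_six_mul_mult F hb]
  push_cast
  ring

end Q157.Walsh
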