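import Mathlib
import Pool.Agent.Q157.OrthoDefs
import Pool.Agent.Q157.WalshGraph

/-! Ortho-derivatives of quadratic APN functions. -/

namespace Q157.Walsh

open Matrix

variable {n : ℕ}

/-- The polar form of `F`. -/
def B (F : V n → V n) (x y : V n) : V n := F (x + y) + F x + F y + F 0

theorem two_zero : (2 : ZMod 2) = 0 := by decide

theorem B_eq_D (F : V n → V n) (a x : V n) : D F a x + D F a 0 = B F a x := by
  unfold D B
  rw [zero_add, add_comm x a]
  funext i
  simp only [Pi.add_apply]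
  ring

theorem B_comm (F : V n → V n) (x y : V n) : B F x y = B F y x := by
  unfold B
  rw [add_comm x y]
  funext i
  simp only [Pi.add_apply]
  ring

theorem third_difference {f : V n → ZMod 2} (hf : DegreeLETwo f) (x y z : V n) :
    f (x + (y + z)) = f (x + y) + f (x + z) + f (y + z) + f x + f y + f z + f 0 := by
  obtain ⟨c, l, q, h⟩ := hf
  simp only [h, dotProduct_add, add_dotProduct, mulVec_add, dotProduct_zero, zero_dotProduct]
  linear_combination (-(3 * c + l ⬝ᵥ x + l ⬝ᵥ y + l ⬝ᵥ z + x ⬝ᵥ q *ᵥ x + y ⬝ᵥ q *ᵥ y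
    + z ⬝ᵥ q *ᵥ z)) * two_zero

theorem B_add {F : V n → V n} (hF : ∀ i, DegreeLETwo fun x => F x i) (x y z : V n) :
    B F x (y + z) = B F x y + B F x z := by
  funext i
  have h := third_difference (hF i) x y z
  simp only [B, Pi.add_apply] at h ⊢
  rw [h]
  linear_combination (F (y + z) i) * two_zero

theorem B_zero {F : V n → V n} (hF : ∀ i, DegreeLETwo fun x => F x i) (x : V n) :
    B F x 0 = 0 := by
  have h := B_add hF x 0 0
  rw [add_zero, V_add_self] at h
  exact h

theorem B_self {F : V n → V n} (x : V n) : B F x x = 0 := by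
  unfold B
  rw [V_add_self]
  funext i
  simp only [Pi.add_apply, Pi.zero_apply]
  linear_combination (F 0 i + F x i) * two_zero

/-- The kernel of `B(a, ·)` for APN `F`. -/
theorem B_eq_zero {F : V n → V n} (hA : IsAPN F) {a y : V n} (ha : a ≠ 0) (h : B F a y = 0) :
    y = 0 ∨ y = a := by
  have h1 : F y + F (y + (0 + a)) = F 0 + F a := by
    have h2 : B F a y = (F y + F (y + (0 + a))) + (F 0 + F a) := by
      unfold B
      rw [zero_add, add_comm y a]
      funext i
      simp only [Pi.add_apply]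
      ring
    rw [h2] at h
    exact V_add_eq_zero.1 h
  exact apn_pair hA (Ne.symm ha) h1

theorem B_eq_iff {F : V n → V n} (hF : ∀ i, DegreeLETwo fun x => F x i) (hA : IsAPN F)
    {a y z : V n} (ha : a ≠ 0) : B F a y = B F a z ↔ y = z ∨ y = z + a := by
  constructor
  · intro h
    have h1 : B F a (y + z) = 0 := by rw [B_add hF, h, V_add_self]
    rcases B_eq_zero hA ha h1 with h2 | h2
    · left; exact V_add_eq_zero.1 h2
    · right; rw [← h2, add_comm y z, V_add_cancel]
  · rintro (rfl | rfl)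
    · rfl
    · rw [B_add hF, B_self, add_zero]

/-- The image `H_a`. -/
def Im (F : V n → V n) (a : V n) : Finset (V n) := Finset.univ.image (B F a)

theorem mem_Im {F : V n → V n} {a w : V n} : w ∈ Im F a ↔ ∃ y, B F a y = w := by
  simp [Im]

theorem fiber_card {F : V n → V n} (hF : ∀ i, DegreeLETwo fun x => F x i) (hA : IsAPN F)
    {a : V n} (ha : a ≠ 0) {w : V n} (hw : w ∈ Im F a) :
    (Finset.univ.filter fun y => B F a y = w).card = 2 := by
  obtain ⟨z, rfl⟩ := mem_Im.1 hw
  have : (Finset.univ.filter fun y => B F a y = B F a z) = {z, z + a} := by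
    ext y
    simp [B_eq_iff hF hA ha]
  rw [this, Finset.card_pair]
  intro h
  apply ha
  have h2 := congrArg (fun t => z + t) h
  simp only [V_add_self, V_add_cancel] at h2
  exact h2.symm

theorem two_mul_card_Im {F : V n → V n} (hF : ∀ i, DegreeLETwo fun x => F x i) (hA : IsAPN F)
    {a : V n} (ha : a ≠ 0) : 2 * (Im F a).card = 2 ^ n := by
  have h := Finset.card_eq_sum_card_image (B F a) Finset.univ
  rw [Finset.card_univ, card_V] at h
  rw [h]
  change 2 * (Im F a).card = ∑ w ∈ Im F a, _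
  rw [Finset.sum_congr rfl (fun w hw => fiber_card hF hA ha hw), Finset.sum_const, smul_eq_mul,
    mul_comm]

theorem two_mul_card_orth {v : V n} (hv : v ≠ 0) :
    2 * (Finset.univ.filter fun w : V n => v ⬝ᵥ w = 0).card = 2 ^ n := by
  have h := sum_chi_dot' v
  rw [if_neg hv] at h
  have h1 : ∀ w : V n, chi (v ⬝ᵥ w) = 2 * (if v ⬝ᵥ w = 0 then 1 else 0) - 1 := by
    intro w
    generalize v ⬝ᵥ w = t
    revert t; decide
  simp_rw [h1] at h
  rw [Finset.sum_sub_distrib, ← Finset.mul_sum, ← Finset.sum_filter, Finset.sum_const,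
    Finset.sum_const, Finset.card_univ, card_V, nsmul_eq_mul, nsmul_eq_mul] at h
  have h2 : (2 : ℤ) * ((Finset.univ.filter fun w : V n => v ⬝ᵥ w = 0).card : ℤ) = 2 ^ n := by
    push_cast at h
    linarith
  exact_mod_cast h2

/-- For an orthogonal vector `v ≠ 0` of `H_a`, `H_a` is the whole hyperplane. -/
theorem Im_eq {F : V n → V n} (hF : ∀ i, DegreeLETwo fun x => F x i) (hA : IsAPN F)
    {a : V n} (ha : a ≠ 0) {v : V n} (hv : v ≠ 0) (h : ∀ x, v ⬝ᵥ B F a x = 0) :
    Im F a = Finset.univ.filter fun w : V n => v ⬝ᵥ w = 0 := by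
  apply Finset.eq_of_subset_of_card_le
  · intro w hw
    obtain ⟨y, rfl⟩ := mem_Im.1 hw
    rw [Finset.mem_filter]
    exact ⟨Finset.mem_univ _, h y⟩
  · have h1 := two_mul_card_Im hF hA ha
    have h2 := two_mul_card_orth hv
    omega

theorem exists_orth {F : V n → V n} (hF : ∀ i, DegreeLETwo fun x => F x i) (hA : IsAPN F)
    {a : V n} (ha : a ≠ 0) : ∃ v : V n, v ≠ 0 ∧ ∀ x, v ⬝ᵥ B F a x = 0 := by
  by_contra hcon
  push Not at hcon
  -- double counting of characters
  have h1 : ∀ v : V n, v ≠ 0 → ∑ x : V n, chi (v ⬝ᵥ B F a x) = 0 := by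
    intro v hv
    obtain ⟨x₀, hx₀⟩ := hcon v hv
    have hx1 : v ⬝ᵥ B F a x₀ = 1 := by
      generalize v ⬝ᵥ B F a x₀ = t at hx₀
      revert t; decide
    have h2 : ∑ x : V n, chi (v ⬝ᵥ B F a x) = ∑ x : V n, chi (v ⬝ᵥ B F a (x + x₀)) :=
      (Equiv.sum_comp (Equiv.addRight x₀) (fun x => chi (v ⬝ᵥ B F a x))).symm
    have h3 : ∑ x : V n, chi (v ⬝ᵥ B F a (x + x₀)) = -∑ x : V n, chi (v ⬝ᵥ B F a x) := by
      rw [← Finset.sum_neg_distrib]
      refine Finset.sum_congr rfl fun x _ => ?_
      rw [B_add hF, dotProduct_add, chi_add, hx1, chi_one]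
      ring
    linarith
  have h4 : ∑ v : V n, ∑ x : V n, chi (v ⬝ᵥ B F a x) = 2 ^ n := by
    rw [Finset.sum_eq_single 0]
    · simp only [zero_dotProduct, chi_zero, Finset.sum_const, Finset.card_univ, card_V]
      simp
    · intro v _ hv
      exact h1 v hv
    · simp
  rw [Finset.sum_comm] at h4
  simp_rw [sum_chi_dot] at h4
  rw [← Finset.sum_filter, Finset.sum_const, nsmul_eq_mul] at h4
  have h5 := fiber_card hF hA ha (mem_Im.2 ⟨0, B_zero hF a⟩)
  rw [h5] at h4
  have : (0 : ℤ) < 2 ^ n := by positivity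
  push_cast at h4
  linarith

/-- Existence and uniqueness of the ortho-derivative. -/
theorem exists_orthoDerivative {F : V n → V n} (hF : ∀ i, DegreeLETwo fun x => F x i)
    (hA : IsAPN F) : ∃ G, IsOrthoDerivative F G ∧ ∀ G', IsOrthoDerivative F G' → G' = G := by
  classical
  choose! g hg using fun (a : V n) (ha : a ≠ 0) => exists_orth hF hA ha
  refine ⟨fun a => if a = 0 then 0 else g a, ⟨by simp, fun a ha => ?_⟩, fun G' hG' => ?_⟩
  · simp only [if_neg ha]
    refine ⟨(hg a ha).1, fun x => ?_⟩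
    rw [B_eq_D]
    exact (hg a ha).2 x
  · funext a
    by_cases ha : a = 0
    · rw [if_pos ha, ha, hG'.1]
    · rw [if_neg ha]
      have h1 := Im_eq hF hA ha (hg a ha).1 (hg a ha).2
      have h2 := Im_eq hF hA ha (hG'.2 a ha).1 (fun x => by rw [← B_eq_D]; exact (hG'.2 a ha).2 x)
      have h3 : ∀ w : V n, G' a ⬝ᵥ w = g a ⬝ᵥ w := by
        intro w
        have h4 : w ∈ (Finset.univ.filter fun w : V n => G' a ⬝ᵥ w = 0) ↔
            w ∈ Finset.univ.filter fun w : V n => g a ⬝ᵥ w = 0 := by rw [← h1, ← h2]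
        simp only [Finset.mem_filter, Finset.mem_univ, true_and] at h4
        revert h4
        generalize G' a ⬝ᵥ w = s
        generalize g a ⬝ᵥ w = t
        revert s t; decide
      funext i
      have := h3 (Pi.single i 1)
      rwa [dotProduct_single, dotProduct_single, mul_one, mul_one] at this

/-- Expansion of an alternating bilinear function in coordinates (via third differences), as a
statement about sums: if all sums of the `2 × 2` minors vanish, so does the sum of the values. -/
theorem sum_B_eq_zero {F : V n → V n} (hF : ∀ i, DegreeLETwo fun x => F x i)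
    {ι : Type*} (s : Finset ι) (p q : ι → V n)
    (h : ∀ i j : Fin n, ∑ t ∈ s, (p t i * q t j + p t j * q t i) = 0) :
    ∑ t ∈ s, B F (p t) (q t) = 0 := by
  classical
  have hB : ∀ k : Fin n, ∃ Q : Matrix (Fin n) (Fin n) (ZMod 2),
      ∀ x y, B F x y k = ∑ i, ∑ j, Q i j * (x i * y j + x j * y i) := by
    intro k
    obtain ⟨c, l, Q, hQ⟩ := hF k
    refine ⟨Q, fun x y => ?_⟩
    have h1 : B F x y k = x ⬝ᵥ (Q *ᵥ y) + y ⬝ᵥ (Q *ᵥ x) := by
      simp only [B, Pi.add_apply]
      have e := hQ
      simp only at e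
      rw [e, e, e, e]
      simp only [dotProduct_add, add_dotProduct, mulVec_add, dotProduct_zero, zero_dotProduct]
      linear_combination (2 * c + l ⬝ᵥ x + l ⬝ᵥ y + x ⬝ᵥ Q *ᵥ x + y ⬝ᵥ Q *ᵥ y) * two_zero
    rw [h1]
    simp only [dotProduct, mulVec, Finset.mul_sum]
    rw [← Finset.sum_add_distrib]
    refine Finset.sum_congr rfl fun i _ => ?_
    rw [← Finset.sum_add_distrib]
    refine Finset.sum_congr rfl fun j _ => ?_
    ring
  funext k
  obtain ⟨Q, hQ⟩ := hB k
  rw [Finset.sum_apply, Pi.zero_apply]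
  simp_rw [hQ]
  rw [Finset.sum_comm]
  refine Finset.sum_eq_zero fun i _ => ?_
  rw [Finset.sum_comm]
  refine Finset.sum_eq_zero fun j _ => ?_
  rw [← Finset.mul_sum, h i j, mul_zero]

/-- For `n ≥ 4` no component of the ortho-derivative is affine. -/
theorem not_affine {F G : V n → V n} (hn : 4 ≤ n) (hF : ∀ i, DegreeLETwo fun x => F x i)
    (hA : IsAPN F) (hG : IsOrthoDerivative F G) {b u : V n} {c : ZMod 2} (hb : b ≠ 0)
    (h : ∀ x, b ⬝ᵥ G x = u ⬝ᵥ x + c) : False := by
  classical
  have hc : c = 0 := by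
    have := h 0
    rw [hG.1, dotProduct_zero, dotProduct_zero, zero_add] at this
    exact this.symm
  subst hc
  -- `b` lies in `H_a` iff `u · a = 0`
  have hIm : ∀ a, a ≠ 0 → (u ⬝ᵥ a = 0 ↔ ∃ y, B F a y = b) := by
    intro a ha
    have h1 := Im_eq hF hA ha (hG.2 a ha).1 (fun x => by rw [← B_eq_D]; exact (hG.2 a ha).2 x)
    have h2 : b ∈ Im F a ↔ G a ⬝ᵥ b = 0 := by
      rw [h1]; simp
    rw [mem_Im] at h2
    rw [h2, dotProduct_comm (G a) b, h a, add_zero]
  -- `U` minus the origin
  set U := (Finset.univ.erase (0 : V n)).filter fun a => u ⬝ᵥ a = 0 with hU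
  have hmemU : ∀ {a}, a ∈ U ↔ a ≠ 0 ∧ u ⬝ᵥ a = 0 := by
    intro a; simp [hU]
  choose! y hy using fun (a : V n) (ha : a ∈ U) => (hIm a (hmemU.1 ha).1).1 (hmemU.1 ha).2
  -- values: the solutions of `B a t = b`
  have hsol : ∀ a ∈ U, (Finset.univ.filter fun t => B F a t = b) = {y a, y a + a} := by
    intro a ha
    ext t
    rw [Finset.mem_filter, ← hy a ha, B_eq_iff hF hA (hmemU.1 ha).1]
    simp
  have hne : ∀ a ∈ U, y a ≠ y a + a := by
    intro a ha h1
    apply (hmemU.1 ha).1
    have h2 := congrArg (fun t => y a + t) h1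
    simp only [V_add_self, V_add_cancel] at h2
    exact h2.symm
  have hsolU : ∀ a t, B F a t = b → a ≠ 0 → t ∈ U := by
    intro a t h1 ha
    have ht : t ≠ 0 := by
      rintro rfl
      rw [B_zero hF] at h1
      exact hb h1.symm
    refine hmemU.2 ⟨ht, (hIm t ht).2 ⟨a, by rw [B_comm]; exact h1⟩⟩
  -- cardinalities modulo 2 through a nonzero common zero
  have hexists : ∀ i j : Fin n, ∃ t₀ : V n, t₀ ≠ 0 ∧ u ⬝ᵥ t₀ = 0 ∧ t₀ i = 0 ∧ t₀ j = 0 := by
    intro i j
    obtain ⟨x, x', hxx', heq⟩ := Fintype.exists_ne_map_eq_of_card_lt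
      (fun x : V n => (u ⬝ᵥ x, x i, x j)) (by
        rw [Fintype.card_prod, Fintype.card_prod, ZMod.card, card_V]
        calc 2 * (2 * 2) = 2 ^ 3 := by norm_num
          _ < 2 ^ n := Nat.pow_lt_pow_right (by norm_num) (by omega))
    simp only [Prod.mk.injEq] at heq
    refine ⟨x + x', fun h0 => hxx' (V_add_eq_zero.1 h0), ?_, ?_, ?_⟩
    · rw [dotProduct_add, heq.1, add_self_zmod]
    · rw [Pi.add_apply, heq.2.1, add_self_zmod]
    · rw [Pi.add_apply, heq.2.2, add_self_zmod]
  have hsum0 : ∑ a ∈ U, B F a (y a) = 0 := by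
    apply sum_B_eq_zero hF
    intro i j
    obtain ⟨t₀, ht0, htu, hti, htj⟩ := hexists i j
    let τ : V n → ZMod 2 := fun t => (1 + t i) * (1 + t j)
    have hpt : ∀ a ∈ U, a i * y a j + a j * y a i = 1 + τ a + (τ (y a) + τ (y a + a)) := by
      intro a _
      simp only [τ, Pi.add_apply]
      linear_combination (-2 - a i - a j - a i * a j - y a i - y a j - y a i * y a j) * two_zero
    rw [Finset.sum_congr rfl hpt, Finset.sum_add_distrib]
    have e1 : ∑ a ∈ U, (τ (y a) + τ (y a + a)) = 0 := by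
      have e2 : ∀ a ∈ U, τ (y a) + τ (y a + a) = ∑ t ∈ U, if B F a t = b then τ t else 0 := by
        intro a ha
        rw [← Finset.sum_filter]
        have e3 : U.filter (fun t => B F a t = b) = {y a, y a + a} := by
          rw [← hsol a ha]
          ext t
          simp only [Finset.mem_filter, Finset.mem_univ, true_and]
          exact ⟨fun h => h.2, fun h => ⟨hsolU a t h (hmemU.1 ha).1, h⟩⟩
        rw [e3, Finset.sum_pair (hne a ha)]
      rw [Finset.sum_congr rfl e2, Finset.sum_comm]
      refine Finset.sum_eq_zero fun t ht => ?_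
      have e4 : U.filter (fun a => B F a t = b) = {y t, y t + t} := by
        rw [← hsol t ht]
        ext a
        simp only [Finset.mem_filter, Finset.mem_univ, true_and]
        rw [B_comm]
        exact ⟨fun h => h.2, fun h => ⟨hsolU t a h (hmemU.1 ht).1, h⟩⟩
      rw [← Finset.sum_filter, e4, Finset.sum_pair (hne t ht)]
      exact add_self_zmod _
    rw [e1, add_zero]
    -- the sum over the whole kernel vanishes by the involution `a ↦ a + t₀`
    have e5 : ∑ a ∈ Finset.univ.filter (fun a : V n => u ⬝ᵥ a = 0), (1 + τ a) = 0 := by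
      refine Finset.sum_involution (fun a _ => a + t₀) ?_ ?_ ?_ ?_
      · intro a _
        have : τ (a + t₀) = τ a := by simp [τ, hti, htj]
        rw [this]
        exact add_self_zmod _
      · intro a _ _ h1
        apply ht0
        have h2 := congrArg (fun t => a + t) h1
        simp only [V_add_self, V_add_cancel] at h2
        exact h2
      · intro a ha
        rw [Finset.mem_filter] at ha ⊢
        exact ⟨Finset.mem_univ _, by rw [dotProduct_add, ha.2, htu, add_zero]⟩
      · intro a _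
        rw [add_assoc, V_add_self, add_zero]
    have e6 : U = (Finset.univ.filter (fun a : V n => u ⬝ᵥ a = 0)).erase 0 := by
      ext a
      simp [hU]
    rw [e6]
    have e7 : (0 : V n) ∈ Finset.univ.filter (fun a : V n => u ⬝ᵥ a = 0) := by simp
    rw [← Finset.add_sum_erase _ _ e7] at e5
    have e8 : (1 : ZMod 2) + τ 0 = 0 := by simp [τ]; decide
    rw [e8, zero_add] at e5
    exact e5
  -- but the sum of the values is `|U| b = b`
  rw [Finset.sum_congr rfl hy, Finset.sum_const] at hsum0
  have hcardU : (U.card : ZMod 2) = 1 := by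
    obtain ⟨t₀, ht0, htu, -, -⟩ := hexists ⟨0, by omega⟩ ⟨0, by omega⟩
    have e5 : ∑ a ∈ Finset.univ.filter (fun a : V n => u ⬝ᵥ a = 0), (1 : ZMod 2) = 0 := by
      refine Finset.sum_involution (fun a _ => a + t₀) ?_ ?_ ?_ ?_
      · intro a _
        exact add_self_zmod _
      · intro a _ _ h1
        apply ht0
        have h2 := congrArg (fun t => a + t) h1
        simp only [V_add_self, V_add_cancel] at h2
        exact h2
      · intro a ha
        rw [Finset.mem_filter] at ha ⊢
        exact ⟨Finset.mem_univ _, by rw [dotProduct_add, ha.2, htu, add_zero]⟩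
      · intro a _
        rw [add_assoc, V_add_self, add_zero]
    have e6 : U = (Finset.univ.filter (fun a : V n => u ⬝ᵥ a = 0)).erase 0 := by
      ext a
      simp [hU]
    have e7 : (0 : V n) ∈ Finset.univ.filter (fun a : V n => u ⬝ᵥ a = 0) := by simp
    rw [← Finset.add_sum_erase _ _ e7, ← e6, Finset.sum_const, nsmul_eq_mul, mul_one] at e5
    generalize (U.card : ZMod 2) = t at e5
    revert t; decide
  apply hb
  funext i
  have := congrFun hsum0 i
  rw [Pi.smul_apply, nsmul_eq_mul, hcardU, one_mul] at this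
  exact this

end Q157.Walsh
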