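import Mathlib
import Pool.Agent.Q157.Ortho

/-! The case `n = 3` of ortho-derivatives of quadratic APN functions. -/

namespace Q157.Walsh

open Matrix

/-- The coordinate form of the polar form. -/
theorem B_coord {n : ℕ} {F : V n → V n} (hF : ∀ i, DegreeLETwo fun x => F x i) (k : Fin n) :
    ∃ Q : Matrix (Fin n) (Fin n) (ZMod 2),
      ∀ x y, B F x y k = ∑ i, ∑ j, Q i j * (x i * y j + x j * y i) := by
  obtain ⟨c, l, Q, hQ⟩ := hF k
  refine ⟨Q, fun x y => ?_⟩
  have h1 : B F x y k = x ⬝ᵥ (Q *ᵥ y) + y ⬝ᵥ (Q *ᵥ x) := by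
    simp only [B, Pi.add_apply]
    have e := hQ
    simp only at e
    rw [e, e, e, e]
    simp only [dotProduct_add, add_dotProduct, mulVec_add, dotProduct_zero, zero_dotProduct]
    linear_combination (2 * c + l ⬝ᵥ x + l ⬝ᵥ y + x ⬝ᵥ Q *ᵥ x + y ⬝ᵥ Q *ᵥ y) * two_zero
  rw [h1]
  simp only [dotProduct, mulVec, Finset.mul_sum]
  rw [← Finset.sum_add_distrib]
  refine Finset.sum_congr rfl fun i _ => ?_
  rw [← Finset.sum_add_distrib]
  refine Finset.sum_congr rfl fun j _ => ?_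
  ring

/-- The cross product. -/
def cross (x y : V 3) : V 3 :=
  ![x 1 * y 2 + x 2 * y 1, x 2 * y 0 + x 0 * y 2, x 0 * y 1 + x 1 * y 0]

theorem cross_surj : ∀ z : V 3, z ≠ 0 → ∃ x y : V 3, cross x y = z := by decide

theorem eq_of_cross : ∀ a r : V 3, r ≠ 0 → (∀ y : V 3, r ⬝ᵥ cross a y = 0) → a ≠ 0 → r = a := by
  decide

theorem cross_zero_left : ∀ y : V 3, cross 0 y = 0 := by decide

theorem cross_zero_right : ∀ y : V 3, cross y 0 = 0 := by decide

theorem cross_self : ∀ y : V 3, cross y y = 0 := by decide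

/-- For `n = 3` the ortho-derivative has a linear component. -/
theorem linear_three {F G : V 3 → V 3} (hF : ∀ i, DegreeLETwo fun x => F x i)
    (hA : IsAPN F) (hG : IsOrthoDerivative F G) :
    ∃ b u : V 3, b ≠ 0 ∧ ∀ x, b ⬝ᵥ G x = u ⬝ᵥ x := by
  choose Q hQ using B_coord hF
  let M : Matrix (Fin 3) (Fin 3) (ZMod 2) := Matrix.of fun k =>
    ![Q k 1 2 + Q k 2 1, Q k 2 0 + Q k 0 2, Q k 0 1 + Q k 1 0]
  have hB : ∀ x y, B F x y = M *ᵥ cross x y := by
    intro x y
    funext k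
    rw [hQ]
    simp only [mulVec, dotProduct, Fin.sum_univ_three, cross, M, Matrix.of_apply,
      Matrix.cons_val_zero, Matrix.cons_val_one, Matrix.cons_val]
    linear_combination (Q k 0 0 * x 0 * y 0 + Q k 1 1 * x 1 * y 1 + Q k 2 2 * x 2 * y 2) * two_zero
  have hMinj : ∀ z : V 3, z ≠ 0 → M *ᵥ z ≠ 0 := by
    intro z hz h0
    obtain ⟨x, y, rfl⟩ := cross_surj z hz
    rw [← hB] at h0
    have hx : x ≠ 0 := by
      rintro rfl
      exact hz (cross_zero_left y)
    rcases B_eq_zero hA hx h0 with h1 | h1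
    · subst h1; exact hz (cross_zero_right x)
    · subst h1; exact hz (cross_self y)
  have hdet : M.det ≠ 0 := by
    intro h0
    obtain ⟨v, hv, hv0⟩ := Matrix.exists_mulVec_eq_zero_iff.2 h0
    exact hMinj v hv hv0
  have hGM : ∀ a, G a ᵥ* M = a := by
    intro a
    by_cases ha : a = 0
    · rw [ha, hG.1, zero_vecMul]
    · apply eq_of_cross a _ _ _ ha
      · intro h0
        exact hdet (Matrix.exists_vecMul_eq_zero_iff.1 ⟨G a, (hG.2 a ha).1, h0⟩)
      · intro y
        rw [← dotProduct_mulVec, ← hB, ← B_eq_D]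
        exact (hG.2 a ha).2 y
  refine ⟨M *ᵥ Pi.single 0 1, Pi.single 0 1, hMinj _ (by decide), fun a => ?_⟩
  rw [dotProduct_comm, dotProduct_mulVec, hGM, dotProduct_comm]

end Q157.Walsh
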