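import Pool.Agent.Q157.PracGen

open Polynomial

namespace Q157.Prac

/-- the polynomial whose coefficients are the binary digits of `v` (below `2 ^ 13`) -/
noncomputable def bp (v : ℕ) : (ZMod 2)[X] := ∑ i ∈ Finset.range 13, if v.testBit i then X ^ i else 0

/-- multiplication by `X` modulo `bp F` -/
def stp (F v : ℕ) : ℕ := if (2 * v).testBit 12 then (2 * v) ^^^ F else 2 * v

lemma bp_xor (v w : ℕ) : bp (v ^^^ w) = bp v + bp w := by
  unfold bp
  rw [← Finset.sum_add_distrib]
  refine Finset.sum_congr rfl fun i _ => ?_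
  rw [Nat.testBit_xor]
  cases v.testBit i <;> cases w.testBit i <;> simp [CharTwo.add_self_eq_zero]

lemma bp_two_mul {v : ℕ} (hv : v < 2 ^ 12) : bp (2 * v) = X * bp v := by
  unfold bp
  rw [Finset.sum_range_succ']
  have h0 : (2 * v).testBit 0 = false := by simp
  rw [h0, Finset.sum_range_succ (fun i => if v.testBit i then (X : (ZMod 2)[X]) ^ i else 0) 12]
  have h1 : v.testBit 12 = false := Nat.testBit_lt_two_pow hv
  rw [h1, mul_add, Finset.mul_sum]
  simp only [Bool.false_eq_true, if_false, mul_zero]
  congr 1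
  refine Finset.sum_congr rfl fun i _ => ?_
  have h2 : (2 * v).testBit (i + 1) = v.testBit i := by
    rw [Nat.testBit_succ, Nat.mul_div_cancel_left v (by norm_num)]
  rw [h2]
  split_ifs
  · rw [pow_succ']
  · simp

lemma stp_lt {F v : ℕ} (hF : F < 2 ^ 13) (hF' : F.testBit 12 = true) (hv : v < 2 ^ 12) :
    stp F v < 2 ^ 12 := by
  have h2 : 2 * v < 2 ^ 13 := by omega
  apply Nat.lt_pow_two_of_testBit
  intro i hi
  unfold stp
  rcases Nat.lt_or_ge i 13 with h | h
  · have : i = 12 := by omega
    subst this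
    split_ifs with hc
    · rw [Nat.testBit_xor, hc, hF']; rfl
    · simpa using hc
  · have hFi : F.testBit i = false :=
      Nat.testBit_lt_two_pow (lt_of_lt_of_le hF (Nat.pow_le_pow_right (by norm_num) h))
    have hvi : (2 * v).testBit i = false :=
      Nat.testBit_lt_two_pow (lt_of_lt_of_le h2 (Nat.pow_le_pow_right (by norm_num) h))
    split_ifs with hc
    · rw [Nat.testBit_xor, hFi, hvi]; rfl
    · exact hvi

lemma bp_stp {F v : ℕ} (hv : v < 2 ^ 12) : bp F ∣ bp (stp F v) - X * bp v := by
  unfold stp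
  split_ifs with hc
  · rw [bp_xor, bp_two_mul hv, add_sub_cancel_left]
  · rw [bp_two_mul hv, sub_self]
    exact dvd_zero _

/-- the list consists of consecutive powers of `X` modulo `bp F` -/
def okChain (F : ℕ) : List ℕ → Bool
  | [] => true
  | a :: l => match l with
    | [] => true
    | b :: l' => decide (stp F a = b) && okChain F (b :: l')

lemma chain_getElem (F : ℕ) : ∀ (l : List ℕ) (a : ℕ), okChain F (a :: l) = true →
    ∀ i, (hi : i < (a :: l).length) → (a :: l)[i] = (stp F)^[i] a := by
  intro l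
  induction l with
  | nil =>
    intro a _ i hi
    have : i = 0 := by simpa using hi
    subst this
    rfl
  | cons b l ih =>
    intro a h i hi
    rw [okChain, Bool.and_eq_true, decide_eq_true_eq] at h
    cases i with
    | zero => rfl
    | succ i =>
      rw [List.getElem_cons_succ, Function.iterate_succ_apply, h.1]
      exact ih b h.2 i (by simpa using hi)

lemma iter_lt {F : ℕ} (hF : F < 2 ^ 13) (hF' : F.testBit 12 = true) (i : ℕ) :
    (stp F)^[i] 1 < 2 ^ 12 := by
  induction i with
  | zero => norm_num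
  | succ i ih => rw [Function.iterate_succ_apply']; exact stp_lt hF hF' ih

lemma bp_one : bp 1 = 1 := by
  unfold bp
  simp [Finset.sum_range_succ, Nat.testBit]

lemma dvd_pow_sub {F : ℕ} (hF : F < 2 ^ 13) (hF' : F.testBit 12 = true) (i : ℕ) :
    bp F ∣ bp ((stp F)^[i] 1) - X ^ i := by
  induction i with
  | zero => simp [bp_one]
  | succ i ih =>
    rw [Function.iterate_succ_apply']
    have h1 := bp_stp (F := F) (iter_lt hF hF' i)
    have h2 : bp F ∣ X * (bp ((stp F)^[i] 1) - X ^ i) := ih.mul_left _
    have h3 := dvd_add h1 h2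
    have h4 : bp (stp F ((stp F)^[i] 1)) - X * bp ((stp F)^[i] 1) +
        X * (bp ((stp F)^[i] 1) - X ^ i) = bp (stp F ((stp F)^[i] 1)) - X ^ (i + 1) := by ring
    rwa [h4] at h3

/-- the exclusive or of a list of numbers -/
def xors (l : List ℕ) : ℕ := l.foldr (· ^^^ ·) 0

lemma bp_zero : bp 0 = 0 := by
  unfold bp
  simp

lemma bp_xors (l : List ℕ) : bp (xors l) = (l.map bp).sum := by
  induction l with
  | nil => simp [xors, bp_zero]
  | cons a l ih =>
    rw [List.map_cons, List.sum_cons, ← ih]
    exact bp_xor _ _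

/-- A polynomial that is a sum of monomials, reduced modulo `bp F`. -/
lemma dvd_sum_pow {F : ℕ} (hF : F < 2 ^ 13) (hF' : F.testBit 12 = true) (l : List ℕ) :
    bp F ∣ bp (xors (l.map fun i => (stp F)^[i] 1)) - (l.map fun i => (X : (ZMod 2)[X]) ^ i).sum := by
  induction l with
  | nil => simp [xors, bp_zero]
  | cons a l ih =>
    have h1 : xors ((a :: l).map fun i => (stp F)^[i] 1) =
        (stp F)^[a] 1 ^^^ xors (l.map fun i => (stp F)^[i] 1) := rfl
    rw [h1, bp_xor, List.map_cons, List.sum_cons]
    have h2 := dvd_add (dvd_pow_sub hF hF' a) ih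
    convert h2 using 1
    ring

end Q157.Prac
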