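import Mathlib

/-!
# Pseudo-random array codes obtained by folding: the definitions

All polynomials and arrays are over the field with two elements.
-/

open Polynomial

namespace Q157.Prac

/-- Doubly periodic binary arrays with `r₁` rows and `r₂` columns. -/
abbrev Arr (r₁ r₂ : ℕ) := ZMod r₁ → ZMod r₂ → ZMod 2

/-- The cyclic shift of an array. -/
def shift {r₁ r₂ : ℕ} (a : ZMod r₁) (b : ZMod r₂) (A : Arr r₁ r₂) : Arr r₁ r₂ :=
  fun i j => A (i + a) (j + b)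

/-- The `n₁ × n₂` window of `A` at `(i, j)`: the matrix with the entries `A (i + a) (j + b)`,
`0 ≤ a < n₁`, `0 ≤ b < n₂`. -/
def window (n₁ n₂ : ℕ) {r₁ r₂ : ℕ} (A : Arr r₁ r₂) (i : ZMod r₁) (j : ZMod r₂) :
    Matrix (Fin n₁) (Fin n₂) (ZMod 2) :=
  fun a b => A (i + ((a : ℕ) : ZMod r₁)) (j + ((b : ℕ) : ZMod r₂))

/-- `C` is an `(r₁, r₂; n₁, n₂)`-PRAC (pseudo-random array code): `r₁ r₂` divides
`2 ^ (n₁ n₂) - 1`; every nonzero `n₁ × n₂` matrix is the window of exactly one array of `C`,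
at exactly one place; and the sum of two distinct members of `C`, or of a member of `C` and a
nontrivial cyclic shift of it, is a cyclic shift of a member of `C`. -/
structure IsPRAC (r₁ r₂ n₁ n₂ : ℕ) (C : Set (Arr r₁ r₂)) : Prop where
  dvd : r₁ * r₂ ∣ 2 ^ (n₁ * n₂) - 1
  windows : ∀ M : Matrix (Fin n₁) (Fin n₂) (ZMod 2), M ≠ 0 →
    ∃! p : Arr r₁ r₂ × ZMod r₁ × ZMod r₂, p.1 ∈ C ∧ window n₁ n₂ p.1 p.2.1 p.2.2 = M
  shift_add : ∀ A ∈ C, ∀ B : Arr r₁ r₂,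
    (B ∈ C ∧ B ≠ A) ∨ (∃ a b, (a, b) ≠ (0, 0) ∧ B = shift a b A) →
      ∃ D ∈ C, ∃ a b, A + B = shift a b D

/-- The sequence `s` is generated by `f`: it satisfies the linear recurrence with characteristic
polynomial `f`. -/
def Generated (f : (ZMod 2)[X]) (s : ℕ → ZMod 2) : Prop :=
  ∀ t, ∑ i ∈ Finset.range (f.natDegree + 1), f.coeff i * s (t + i) = 0

/-- `e` is the exponent of `f`: the least `e ≥ 1` with `f ∣ X ^ e - 1`. -/
def IsExponent (f : (ZMod 2)[X]) (e : ℕ) : Prop :=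
  IsLeast {e : ℕ | 1 ≤ e ∧ f ∣ X ^ e - 1} e

/-- `C` is a set of arrays obtained by folding the nonzero sequences generated by `f`: there is a
set `R` of nonzero sequences generated by `f`, containing exactly one sequence of each class under
shifts, and `C` is the set of the arrays `A` with `A[i mod r₁, i mod r₂] = s_i` for
`0 ≤ i < r₁ r₂`, where `s` runs over `R`. -/
def IsFolding (r₁ r₂ : ℕ) (f : (ZMod 2)[X]) (C : Set (Arr r₁ r₂)) : Prop :=
  ∃ R : Set (ℕ → ZMod 2), (∀ r ∈ R, Generated f r ∧ r ≠ 0) ∧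
    (∀ s, Generated f s → s ≠ 0 → ∃! r, r ∈ R ∧ ∃ k, ∀ t, s t = r (t + k)) ∧
    C = {A | ∃ s ∈ R, ∀ i < r₁ * r₂, A (i : ZMod r₁) (i : ZMod r₂) = s i}

/-- The conjecture: if `n₁ < r₁ < 2 n₁` and `f i` are distinct irreducible polynomials of degree
`n₁ n₂` and exponent `r₁ r₂` whose nonzero sequences fold into `(r₁, r₂; n₁, n₂)`-PRACs, then the
nonzero sequences generated by the product of any `k ≥ 1` of them fold into an
`(r₁, r₂; n₁, k n₂)`-PRAC. -/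
def Conjecture : Prop :=
  ∀ (r₁ r₂ n₁ n₂ ℓ : ℕ) (f : Fin ℓ → (ZMod 2)[X]), Nat.Coprime r₁ r₂ → n₁ < r₁ → r₁ < 2 * n₁ →
    Function.Injective f →
    (∀ i, Irreducible (f i) ∧ (f i).natDegree = n₁ * n₂ ∧ IsExponent (f i) (r₁ * r₂) ∧
      ∀ C, IsFolding r₁ r₂ (f i) C → IsPRAC r₁ r₂ n₁ n₂ C) →
    ∀ S : Finset (Fin ℓ), S.Nonempty →
      ∀ C, IsFolding r₁ r₂ (∏ i ∈ S, f i) C → IsPRAC r₁ r₂ n₁ (S.card * n₂) C

end Q157.Prac
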