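import Pool.Agent.Q157.PracDefs

open Polynomial

namespace Q157.Prac

/-- the shift of sequences, as a linear map -/
def T : Module.End (ZMod 2) (ℕ → ZMod 2) := LinearMap.funLeft (ZMod 2) (ZMod 2) Nat.succ

lemma T_apply (s : ℕ → ZMod 2) (t : ℕ) : T s t = s (t + 1) := rfl

lemma T_pow_apply (k : ℕ) (s : ℕ → ZMod 2) (t : ℕ) : (T ^ k) s t = s (t + k) := by
  induction k generalizing s t with
  | zero => simp
  | succ k ih =>
    rw [pow_succ, Module.End.mul_apply, ih, T_apply]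
    congr 1

lemma aeval_T (f : (ZMod 2)[X]) (s : ℕ → ZMod 2) (t : ℕ) :
    aeval T f s t = ∑ i ∈ Finset.range (f.natDegree + 1), f.coeff i * s (t + i) := by
  rw [aeval_eq_sum_range, LinearMap.sum_apply, Finset.sum_apply]
  refine Finset.sum_congr rfl fun i _ => ?_
  rw [LinearMap.smul_apply, Pi.smul_apply, T_pow_apply, smul_eq_mul]

lemma generated_iff (f : (ZMod 2)[X]) (s : ℕ → ZMod 2) : Generated f s ↔ aeval T f s = 0 := by
  constructor
  · intro h
    funext t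
    rw [aeval_T]
    exact h t
  · intro h t
    rw [← aeval_T, h]
    rfl

lemma aeval_of_dvd {f P : (ZMod 2)[X]} {s : ℕ → ZMod 2} (h : Generated f s) (hd : f ∣ P) :
    aeval T P s = 0 := by
  obtain ⟨Q, rfl⟩ := hd
  rw [mul_comm, map_mul, Module.End.mul_apply, (generated_iff f s).1 h, map_zero]

lemma generated_of_dvd {f P : (ZMod 2)[X]} {s : ℕ → ZMod 2} (h : Generated f s) (hd : f ∣ P) :
    Generated P s := (generated_iff P s).2 (aeval_of_dvd h hd)

lemma Generated.add {f : (ZMod 2)[X]} {s s' : ℕ → ZMod 2} (h : Generated f s)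
    (h' : Generated f s') : Generated f (s + s') := by
  rw [generated_iff] at *
  rw [map_add, h, h', add_zero]

lemma Generated.shift {f : (ZMod 2)[X]} {s : ℕ → ZMod 2} (h : Generated f s) (k : ℕ) :
    Generated f ((T ^ k) s) := by
  intro t
  have := h (t + k)
  rw [← this]
  refine Finset.sum_congr rfl fun i _ => ?_
  rw [T_pow_apply]
  congr 2
  omega

lemma period_of_dvd {f : (ZMod 2)[X]} {e : ℕ} {s : ℕ → ZMod 2} (h : Generated f s)
    (hd : f ∣ X ^ e - 1) (t : ℕ) : s (t + e) = s t := by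
  have := congrFun (aeval_of_dvd h hd) t
  rw [map_sub, map_pow, aeval_X, map_one, LinearMap.sub_apply, Pi.sub_apply, T_pow_apply,
    Module.End.one_apply, Pi.zero_apply, sub_eq_zero] at this
  exact this

lemma period_mul {e : ℕ} {s : ℕ → ZMod 2} (h : ∀ t, s (t + e) = s t) (t k : ℕ) :
    s (t + k * e) = s t := by
  induction k with
  | zero => simp
  | succ k ih => rw [Nat.succ_mul, ← add_assoc, h, ih]

lemma period_modEq {e : ℕ} {s : ℕ → ZMod 2} (h : ∀ t, s (t + e) = s t) {a b : ℕ}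
    (hab : a ≡ b [MOD e]) : s a = s b := by
  have key : ∀ c, s c = s (c % e) := by
    intro c
    conv_lhs => rw [← Nat.mod_add_div c e, mul_comm]
    exact period_mul h _ _
  rw [key a, key b, hab]

lemma dvd_of_irreducible {f P : (ZMod 2)[X]} {s : ℕ → ZMod 2} (hf : Irreducible f)
    (h : Generated f s) (hs : s ≠ 0) (hP : aeval T P s = 0) : f ∣ P := by
  by_contra hnd
  have hc : IsCoprime f P := (hf.coprime_iff_not_dvd).2 hnd
  obtain ⟨a, b, hab⟩ := hc
  apply hs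
  have h1 : aeval T (a * f + b * P) s = s := by rw [hab, map_one]; rfl
  rw [← h1, map_add, map_mul, map_mul, LinearMap.add_apply, Module.End.mul_apply,
    Module.End.mul_apply, (generated_iff f s).1 h, hP, map_zero, map_zero, add_zero]

lemma not_X_dvd {f : (ZMod 2)[X]} {e : ℕ} (hf : Irreducible f) (he : 1 ≤ e)
    (hd : f ∣ X ^ e - 1) : ¬ f ∣ X := by
  intro h
  have h1 : f ∣ X ^ e := h.trans (dvd_pow_self _ (by omega))
  have h2 : f ∣ 1 := by
    have := dvd_sub h1 hd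
    simpa using this
  exact hf.not_isUnit (isUnit_of_dvd_one h2)

lemma exponent_dvd {f : (ZMod 2)[X]} {e k : ℕ} (he : IsExponent f e) (hf : Irreducible f)
    (hk : f ∣ X ^ k - 1) : e ∣ k := by
  obtain ⟨⟨he1, hed⟩, hmin⟩ := he
  have hmod : f ∣ X ^ (k % e) - 1 := by
    have h1 : f ∣ X ^ (e * (k / e)) - 1 := by
      refine hed.trans ?_
      rw [pow_mul]
      simpa using sub_one_dvd_pow_sub_one (X ^ e : (ZMod 2)[X]) (k / e)
    have h2 : (X ^ k - 1 : (ZMod 2)[X]) =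
        X ^ (k % e) * (X ^ (e * (k / e)) - 1) + (X ^ (k % e) - 1) := by
      have : k = k % e + e * (k / e) := (Nat.mod_add_div k e).symm
      conv_lhs => rw [this, pow_add]
      ring
    rw [h2] at hk
    exact (dvd_add_right (h1.mul_left _)).1 hk
  by_contra hnd
  have hpos : 1 ≤ k % e := by
    rcases Nat.eq_zero_or_pos (k % e) with h0 | h0
    · exact absurd (Nat.dvd_of_mod_eq_zero h0) hnd
    · exact h0
  have := hmin ⟨hpos, hmod⟩
  have h3 := Nat.mod_lt k (by omega : 0 < e)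
  omega

lemma shift_eq_imp {f : (ZMod 2)[X]} {e a b : ℕ} (he : IsExponent f e) (hf : Irreducible f)
    {s : ℕ → ZMod 2} (h : Generated f s) (hs : s ≠ 0) (hab : (T ^ a) s = (T ^ b) s) :
    a ≡ b [MOD e] := by
  wlog hle : a ≤ b generalizing a b
  · exact (this hab.symm (by omega)).symm
  obtain ⟨d, rfl⟩ := Nat.exists_eq_add_of_le hle
  have hP : aeval T ((X : (ZMod 2)[X]) ^ a * (X ^ d - 1)) s = 0 := by
    have hid : (X : (ZMod 2)[X]) ^ a * (X ^ d - 1) = X ^ (a + d) - X ^ a := by ring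
    rw [hid, map_sub, map_pow, map_pow, aeval_X, LinearMap.sub_apply, hab, sub_self]
  have hd := dvd_of_irreducible hf h hs hP
  rcases hf.prime.dvd_or_dvd hd with h1 | h1
  · exact absurd (hf.prime.dvd_of_dvd_pow h1) (not_X_dvd hf he.1.1 he.1.2)
  · have := exponent_dvd he hf h1
    exact (Nat.modEq_iff_dvd' (by omega)).2 (by simpa using this)

/-- the number between `0` and `r₁ r₂` with given residues -/
noncomputable def crt {r₁ r₂ : ℕ} (h : Nat.Coprime r₁ r₂) (i : ZMod r₁) (j : ZMod r₂) : ℕ :=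
  ((ZMod.chineseRemainder h).symm (i, j)).val

variable {r₁ r₂ : ℕ} [NeZero r₁] [NeZero r₂]

lemma crt_spec (h : Nat.Coprime r₁ r₂) (i : ZMod r₁) (j : ZMod r₂) :
    ((crt h i j : ℕ) : ZMod r₁) = i ∧ ((crt h i j : ℕ) : ZMod r₂) = j ∧
      crt h i j < r₁ * r₂ := by
  have : NeZero (r₁ * r₂) := ⟨Nat.mul_ne_zero (NeZero.ne _) (NeZero.ne _)⟩
  have h1 : ZMod.chineseRemainder h ((crt h i j : ℕ) : ZMod (r₁ * r₂)) = (i, j) := by
    unfold crt
    rw [ZMod.natCast_zmod_val, RingEquiv.apply_symm_apply]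
  rw [map_natCast] at h1
  refine ⟨congrArg Prod.fst h1, congrArg Prod.snd h1, ZMod.val_lt _⟩

omit [NeZero r₁] [NeZero r₂] in
lemma modEq_crt (h : Nat.Coprime r₁ r₂) {a b : ℕ} (h1 : (a : ZMod r₁) = b)
    (h2 : (a : ZMod r₂) = b) : a ≡ b [MOD r₁ * r₂] :=
  (Nat.modEq_and_modEq_iff_modEq_mul h).1
    ⟨(ZMod.natCast_eq_natCast_iff _ _ _).1 h1, (ZMod.natCast_eq_natCast_iff _ _ _).1 h2⟩

lemma fold_val (h : Nat.Coprime r₁ r₂) {s : ℕ → ZMod 2} (hp : ∀ t, s (t + r₁ * r₂) = s t)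
    {A : Arr r₁ r₂} (hA : ∀ i < r₁ * r₂, A (i : ZMod r₁) (i : ZMod r₂) = s i)
    (t : ℕ) : A (t : ZMod r₁) (t : ZMod r₂) = s t := by
  have hpos : 0 < r₁ * r₂ := Nat.mul_pos (Nat.pos_of_ne_zero (NeZero.ne _))
    (Nat.pos_of_ne_zero (NeZero.ne _))
  have h1 := hA (t % (r₁ * r₂)) (Nat.mod_lt _ hpos)
  have e1 : ((t % (r₁ * r₂) : ℕ) : ZMod r₁) = t :=
    (ZMod.natCast_eq_natCast_iff _ _ _).2 ((Nat.mod_modEq t (r₁ * r₂)).of_mul_right r₂)
  have e2 : ((t % (r₁ * r₂) : ℕ) : ZMod r₂) = t :=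
    (ZMod.natCast_eq_natCast_iff _ _ _).2 ((Nat.mod_modEq t (r₁ * r₂)).of_mul_left r₁)
  rw [e1, e2] at h1
  rw [h1]
  exact period_modEq hp (Nat.mod_modEq _ _)

/-- the folded array of a sequence -/
noncomputable def fold (h : Nat.Coprime r₁ r₂) (s : ℕ → ZMod 2) : Arr r₁ r₂ :=
  fun i j => s (crt h i j)

lemma fold_cast (h : Nat.Coprime r₁ r₂) {s : ℕ → ZMod 2} (hp : ∀ t, s (t + r₁ * r₂) = s t)
    (t : ℕ) : fold h s (t : ZMod r₁) (t : ZMod r₂) = s t := by
  unfold fold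
  obtain ⟨h1, h2, -⟩ := crt_spec h (t : ZMod r₁) (t : ZMod r₂)
  exact period_modEq hp (modEq_crt h h1 h2)

lemma fold_unique (h : Nat.Coprime r₁ r₂) {s : ℕ → ZMod 2} (hp : ∀ t, s (t + r₁ * r₂) = s t)
    {A : Arr r₁ r₂} (hA : ∀ i < r₁ * r₂, A (i : ZMod r₁) (i : ZMod r₂) = s i) :
    A = fold h s := by
  funext i j
  obtain ⟨h1, h2, h3⟩ := crt_spec h i j
  have := fold_val h hp hA (crt h i j)
  rw [h1, h2] at this
  exact this

lemma mem_folding_iff (h : Nat.Coprime r₁ r₂) {f : (ZMod 2)[X]} (hd : f ∣ X ^ (r₁ * r₂) - 1)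
    {R : Set (ℕ → ZMod 2)} (hR : ∀ r ∈ R, Generated f r ∧ r ≠ 0) (A : Arr r₁ r₂) :
    (∃ s ∈ R, ∀ i < r₁ * r₂, A (i : ZMod r₁) (i : ZMod r₂) = s i) ↔
      ∃ s ∈ R, A = fold h s := by
  constructor
  · rintro ⟨s, hs, hA⟩
    exact ⟨s, hs, fold_unique h (period_of_dvd (hR s hs).1 hd) hA⟩
  · rintro ⟨s, hs, rfl⟩
    exact ⟨s, hs, fun i _ => fold_cast h (period_of_dvd (hR s hs).1 hd) i⟩

/-- the window of a sequence -/
noncomputable def W (h : Nat.Coprime r₁ r₂) (n₁ n₂ : ℕ) (s : ℕ → ZMod 2) :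
    Matrix (Fin n₁) (Fin n₂) (ZMod 2) :=
  fun a b => s (crt h ((a : ℕ) : ZMod r₁) ((b : ℕ) : ZMod r₂))

lemma window_fold (h : Nat.Coprime r₁ r₂) (n₁ n₂ : ℕ) {s : ℕ → ZMod 2}
    (hp : ∀ t, s (t + r₁ * r₂) = s t) (i : ZMod r₁) (j : ZMod r₂) (k : ℕ)
    (hi : (k : ZMod r₁) = i) (hj : (k : ZMod r₂) = j) :
    window n₁ n₂ (fold h s) i j = W h n₁ n₂ ((T ^ k) s) := by
  funext a b
  show fold h s (i + ((a : ℕ) : ZMod r₁)) (j + ((b : ℕ) : ZMod r₂)) =
    (T ^ k) s (crt h ((a : ℕ) : ZMod r₁) ((b : ℕ) : ZMod r₂))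
  rw [T_pow_apply]
  obtain ⟨h1, h2, -⟩ := crt_spec h ((a : ℕ) : ZMod r₁) ((b : ℕ) : ZMod r₂)
  rw [← fold_cast h hp]
  congr 1
  · rw [Nat.cast_add, h1, hi, add_comm]
  · rw [Nat.cast_add, h2, hj, add_comm]


lemma solSpace_iff {f : (ZMod 2)[X]} (hf : f.Monic) (s : ℕ → ZMod 2) :
    (LinearRecurrence.mk f.natDegree fun i => f.coeff i).IsSolution s ↔ Generated f s := by
  unfold LinearRecurrence.IsSolution Generated
  refine forall_congr' fun t => ?_
  simp only []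
  rw [Finset.sum_range_succ, hf.coeff_natDegree, one_mul, Finset.sum_range]
  constructor
  · intro h
    rw [h]
    exact CharTwo.add_self_eq_zero _
  · intro h
    exact (CharTwo.add_eq_zero).1 ((add_comm _ _).trans h)

/-- A family of linear recurring sequences folds into a PRAC as soon as only the zero sequence has
the zero window. -/
theorem prac_of_inj (h : Nat.Coprime r₁ r₂) (n₁ n₂ : ℕ) {f : (ZMod 2)[X]} (hf : Irreducible f)
    (hm : f.Monic) (hdeg : f.natDegree = n₁ * n₂) (he : IsExponent f (r₁ * r₂))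
    (hdvd : r₁ * r₂ ∣ 2 ^ (n₁ * n₂) - 1)
    (hinj : ∀ s, Generated f s → W h n₁ n₂ s = 0 → s = 0)
    {C : Set (Arr r₁ r₂)} (hC : IsFolding r₁ r₂ f C) : IsPRAC r₁ r₂ n₁ n₂ C := by
  obtain ⟨R, hR, hRu, rfl⟩ := hC
  have hp : ∀ s, Generated f s → ∀ t, s (t + r₁ * r₂) = s t := fun s hs =>
    period_of_dvd hs he.1.2
  have hmem : ∀ A : Arr r₁ r₂, (∃ s ∈ R, ∀ i < r₁ * r₂, A (i : ZMod r₁) (i : ZMod r₂) = s i) ↔
      ∃ s ∈ R, A = fold h s := fun A => mem_folding_iff h he.1.2 hR A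
  -- surjectivity of the window map
  have hsurj : ∀ M : Matrix (Fin n₁) (Fin n₂) (ZMod 2), ∃ s, Generated f s ∧ W h n₁ n₂ s = M := by
    set E : LinearRecurrence (ZMod 2) := LinearRecurrence.mk f.natDegree fun i => f.coeff i with hE
    let g : (Fin E.order → ZMod 2) → Matrix (Fin n₁) (Fin n₂) (ZMod 2) :=
      fun v => W h n₁ n₂ (E.toInit.symm v : ℕ → ZMod 2)
    have hgen : ∀ v, Generated f (E.toInit.symm v : ℕ → ZMod 2) := fun v =>
      (solSpace_iff hm _).1 (E.toInit.symm v).2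
    have hginj : Function.Injective g := by
      intro v w hvw
      have h1 : (E.toInit.symm v : ℕ → ZMod 2) + (E.toInit.symm w : ℕ → ZMod 2) = 0 := by
        apply hinj _ ((hgen v).add (hgen w))
        funext a b
        have h2 : g v a b = g w a b := by rw [hvw]
        show g v a b + g w a b = 0
        rw [h2]
        exact CharTwo.add_self_eq_zero _
      have h2 : E.toInit.symm v = E.toInit.symm w := by
        apply Subtype.ext
        funext t
        have h3 := congrFun h1 t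
        exact (CharTwo.add_eq_zero).1 h3
      exact E.toInit.symm.injective h2
    have hcard : Fintype.card (Fin E.order → ZMod 2) =
        Fintype.card (Matrix (Fin n₁) (Fin n₂) (ZMod 2)) := by
      have e1 : Fintype.card (Matrix (Fin n₁) (Fin n₂) (ZMod 2)) = 2 ^ (n₁ * n₂) := by
        rw [show Fintype.card (Matrix (Fin n₁) (Fin n₂) (ZMod 2)) =
          Fintype.card (Fin n₁ → Fin n₂ → ZMod 2) from Fintype.card_congr Matrix.of.symm]
        rw [Fintype.card_fun, Fintype.card_fun, ZMod.card, Fintype.card_fin, Fintype.card_fin,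
          ← pow_mul, mul_comm]
      rw [e1, Fintype.card_fun, ZMod.card, Fintype.card_fin]
      show 2 ^ f.natDegree = _
      rw [hdeg]
    have hbij : Function.Bijective g :=
      (Fintype.bijective_iff_injective_and_card g).2 ⟨hginj, hcard⟩
    intro M
    obtain ⟨v, hv⟩ := hbij.2 M
    exact ⟨_, hgen v, hv⟩
  have hWinj : ∀ s s', Generated f s → Generated f s' → W h n₁ n₂ s = W h n₁ n₂ s' → s = s' := by
    intro s s' hs hs' hW
    have h1 : s + s' = 0 := by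
      apply hinj _ (hs.add hs')
      funext a b
      show W h n₁ n₂ s a b + W h n₁ n₂ s' a b = 0
      rw [hW]
      exact CharTwo.add_self_eq_zero _
    funext t
    exact (CharTwo.add_eq_zero).1 (congrFun h1 t)
  have hrep : ∀ s, Generated f s → s ≠ 0 → ∃ r ∈ R, ∃ k, s = (T ^ k) r := by
    intro s hs hs0
    obtain ⟨r, ⟨hr, k, hk⟩, -⟩ := hRu s hs hs0
    exact ⟨r, hr, k, by funext t; rw [hk t, T_pow_apply]⟩
  have hsum : ∀ (s : ℕ → ZMod 2), Generated f s → s ≠ 0 → ∃ D : Arr r₁ r₂,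
      (∃ s ∈ R, ∀ i < r₁ * r₂, D (i : ZMod r₁) (i : ZMod r₂) = s i) ∧
        ∃ a b, fold h s = shift a b D := by
    intro s hs hs0
    obtain ⟨r, hr, k, hk⟩ := hrep s hs hs0
    refine ⟨fold h r, (hmem _).2 ⟨r, hr, rfl⟩, (k : ZMod r₁), (k : ZMod r₂), ?_⟩
    funext i j
    show s (crt h i j) = fold h r (i + k) (j + k)
    obtain ⟨h1, h2, -⟩ := crt_spec h i j
    rw [hk, T_pow_apply, ← fold_cast h (hp r (hR r hr).1), Nat.cast_add, Nat.cast_add, h1, h2]
  refine ⟨hdvd, ?_, ?_⟩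
  · intro M hM
    obtain ⟨s, hs, hsM⟩ := hsurj M
    have hs0 : s ≠ 0 := by
      rintro rfl
      apply hM
      rw [← hsM]
      rfl
    obtain ⟨r, ⟨hr, k, hk⟩, huniq⟩ := hRu s hs hs0
    have hsk : s = (T ^ k) r := by funext t; rw [hk t, T_pow_apply]
    refine ⟨(fold h r, (k : ZMod r₁), (k : ZMod r₂)), ⟨(hmem _).2 ⟨r, hr, rfl⟩, ?_⟩, ?_⟩
    · show window n₁ n₂ (fold h r) (k : ZMod r₁) (k : ZMod r₂) = M
      rw [window_fold h n₁ n₂ (hp r (hR r hr).1) _ _ k rfl rfl, ← hsk, hsM]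
    · rintro ⟨A', i', j'⟩ ⟨hA', hW'⟩
      obtain ⟨r', hr', rfl⟩ := (hmem A').1 hA'
      obtain ⟨c1, c2, -⟩ := crt_spec h i' j'
      have hW'' : window n₁ n₂ (fold h r') i' j' = M := hW'
      rw [window_fold h n₁ n₂ (hp r' (hR r' hr').1) _ _ _ c1 c2, ← hsM] at hW''
      have hs' : (T ^ crt h i' j') r' = s := hWinj _ _ ((hR r' hr').1.shift _) hs hW''
      have hrr : r' = r := huniq r' ⟨hr', crt h i' j', fun t => by rw [← hs', T_pow_apply]⟩
      subst hrr
      have hmod := shift_eq_imp he hf (hR r' hr').1 (hR r' hr').2 (hs'.trans hsk)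
      have hmod' := (Nat.modEq_and_modEq_iff_modEq_mul h).2 hmod
      have e1 := (ZMod.natCast_eq_natCast_iff _ _ _).2 hmod'.1
      have e2 := (ZMod.natCast_eq_natCast_iff _ _ _).2 hmod'.2
      rw [c1] at e1
      rw [c2] at e2
      rw [e1, e2]
  · rintro A hA B hB
    obtain ⟨r, hr, rfl⟩ := (hmem A).1 hA
    rcases hB with ⟨hB, hne⟩ | ⟨a, b, hab, rfl⟩
    · obtain ⟨r', hr', rfl⟩ := (hmem B).1 hB
      have hne' : r + r' ≠ 0 := by
        intro h0
        apply hne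
        congr 1
        funext t
        exact ((CharTwo.add_eq_zero).1 (congrFun h0 t)).symm
      obtain ⟨D, hD, a, b, hab⟩ := hsum (r + r') ((hR r hr).1.add (hR r' hr').1) hne'
      exact ⟨D, hD, a, b, hab⟩
    · obtain ⟨c1, c2, -⟩ := crt_spec h a b
      have hne' : r + (T ^ crt h a b) r ≠ 0 := by
        intro h0
        apply hab
        have h1 : (T ^ crt h a b) r = (T ^ 0) r := by
          funext t
          have := (CharTwo.add_eq_zero).1 (congrFun h0 t)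
          rw [pow_zero, Module.End.one_apply]
          exact this.symm
        have hmod := shift_eq_imp he hf (hR r hr).1 (hR r hr).2 h1
        have hmod' := (Nat.modEq_and_modEq_iff_modEq_mul h).2 hmod
        have e1 := (ZMod.natCast_eq_natCast_iff _ _ _).2 hmod'.1
        have e2 := (ZMod.natCast_eq_natCast_iff _ _ _).2 hmod'.2
        rw [c1, Nat.cast_zero] at e1
        rw [c2, Nat.cast_zero] at e2
        rw [e1, e2]
      obtain ⟨D, hD, a', b', hab'⟩ := hsum (r + (T ^ crt h a b) r)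
        ((hR r hr).1.add ((hR r hr).1.shift _)) hne'
      refine ⟨D, hD, a', b', ?_⟩
      rw [← hab']
      funext i j
      show fold h r i j + fold h r (i + a) (j + b) =
        r (crt h i j) + (T ^ crt h a b) r (crt h i j)
      rw [T_pow_apply]
      congr 1
      obtain ⟨d1, d2, -⟩ := crt_spec h i j
      rw [← fold_cast h (hp r (hR r hr).1) (crt h i j + crt h a b), Nat.cast_add, Nat.cast_add,
        c1, c2, d1, d2]

/-- A linear relation between the entries of the windows of all sequences generated by `f`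
destroys the PRAC property. -/
theorem not_prac_of_rel (h : Nat.Coprime r₁ r₂) (n₁ n₂ : ℕ) {f : (ZMod 2)[X]}
    (hd : f ∣ X ^ (r₁ * r₂) - 1) (φ : Matrix (Fin n₁) (Fin n₂) (ZMod 2) → ZMod 2)
    (M : Matrix (Fin n₁) (Fin n₂) (ZMod 2)) (hM : M ≠ 0) (hφ : φ M ≠ 0)
    (hrel : ∀ s, Generated f s → φ (W h n₁ n₂ s) = 0)
    {C : Set (Arr r₁ r₂)} (hC : IsFolding r₁ r₂ f C) : ¬ IsPRAC r₁ r₂ n₁ n₂ C := by
  intro hP
  obtain ⟨R, hR, -, rfl⟩ := hC
  obtain ⟨⟨A, i, j⟩, ⟨hA, hW⟩, -⟩ := hP.windows M hM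
  obtain ⟨r, hr, rfl⟩ := (mem_folding_iff h hd hR A).1 hA
  obtain ⟨c1, c2, -⟩ := crt_spec h i j
  have hW' : window n₁ n₂ (fold h r) i j = M := hW
  rw [window_fold h n₁ n₂ (period_of_dvd (hR r hr).1 hd) _ _ _ c1 c2] at hW'
  apply hφ
  rw [← hW']
  exact hrel _ ((hR r hr).1.shift _)

end Q157.Prac
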