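import Pool.Agent.Q157.PracBits

open Polynomial

namespace Q157.Prac

lemma bp_monic {F : ℕ} (hF' : F.testBit 12 = true) : (bp F).Monic ∧ (bp F).natDegree = 12 := by
  have h1 : bp F = X ^ 12 + ∑ i ∈ Finset.range 12, if F.testBit i then (X : (ZMod 2)[X]) ^ i else 0 := by
    unfold bp
    rw [Finset.sum_range_succ, hF', add_comm]
    simp
  have h2 : (∑ i ∈ Finset.range 12, if F.testBit i then (X : (ZMod 2)[X]) ^ i else 0).degree < 12 := by
    refine (Polynomial.mem_degreeLT (n := 12)).1 ?_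
    refine Submodule.sum_mem _ fun i hi => ?_
    split_ifs
    · rw [Polynomial.mem_degreeLT, degree_X_pow]
      exact_mod_cast Finset.mem_range.1 hi
    · exact Submodule.zero_mem _
  constructor
  · rw [h1]
    exact monic_X_pow_add h2
  · rw [h1, natDegree_eq_of_degree_eq_some (n := 12)]
    rw [degree_add_eq_left_of_degree_lt]
    · rw [degree_X_pow]
    · rw [degree_X_pow]; exact h2

lemma list_mul_pow (l : List ℕ) (e : ℕ) :
    (l.map fun i => (X : (ZMod 2)[X]) ^ (e + i)).sum = X ^ e * (l.map fun i => (X : (ZMod 2)[X]) ^ i).sum := by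
  induction l with
  | nil => simp
  | cons a l ih => simp only [List.map_cons, List.sum_cons]; rw [ih, pow_add]; ring

/-- the data that certify irreducibility and exponent 585 -/
structure Cert (F : ℕ) : Prop where
  lt : F < 2 ^ 13
  bit : F.testBit 12 = true
  one : (stp F)^[585] 1 = 1
  cop : ∀ e ∈ [195, 117, 45], ∃ l : List ℕ,
    xors ((l.map (e + ·) ++ l).map fun i => (stp F)^[i] 1) = 1

lemma cop_dvd {F e : ℕ} (hF : F < 2 ^ 13) (hF' : F.testBit 12 = true) {l : List ℕ}
    (hl : xors ((l.map (e + ·) ++ l).map fun i => (stp F)^[i] 1) = 1) :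
    ∃ q : (ZMod 2)[X], bp F ∣ 1 - q * (X ^ e - 1) := by
  have h := dvd_sum_pow hF hF' (l.map (e + ·) ++ l)
  rw [hl, bp_one, List.map_append, List.sum_append, List.map_map] at h
  refine ⟨(l.map fun i => (X : (ZMod 2)[X]) ^ i).sum, ?_⟩
  have h2 : (List.map ((fun i => (X : (ZMod 2)[X]) ^ i) ∘ fun x => e + x) l).sum =
      X ^ e * (l.map fun i => (X : (ZMod 2)[X]) ^ i).sum := by
    rw [← list_mul_pow]
    rfl
  rw [h2] at h
  have h3 : (1 : (ZMod 2)[X]) = -1 := by
    have : (1 : (ZMod 2)[X]) + 1 = 0 := CharTwo.add_self_eq_zero _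
    exact eq_neg_of_add_eq_zero_left this
  convert h using 1
  have h4 : (l.map fun i => (X : (ZMod 2)[X]) ^ i).sum + (l.map fun i => (X : (ZMod 2)[X]) ^ i).sum = 0 :=
    CharTwo.add_self_eq_zero _
  linear_combination h4

lemma dvd_of_iter {F k : ℕ} (hF : F < 2 ^ 13) (hF' : F.testBit 12 = true)
    (h : (stp F)^[k] 1 = 1) : bp F ∣ X ^ k - 1 := by
  have h1 := dvd_pow_sub hF hF' k
  rw [h, bp_one] at h1
  have h2 := (dvd_neg.2 h1)
  rwa [neg_sub] at h2

lemma order_root {F : ℕ} (hC : Cert F) {g : (ZMod 2)[X]} (hg : g ∣ bp F) (hu : ¬ IsUnit g) :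
    orderOf (AdjoinRoot.mk g X) = 585 := by
  have key : ∀ k, AdjoinRoot.mk g X ^ k = 1 ↔ g ∣ X ^ k - 1 := by
    intro k
    rw [← map_pow, ← sub_eq_zero, ← map_one (AdjoinRoot.mk g), ← map_sub, AdjoinRoot.mk_eq_zero]
  apply orderOf_eq_of_pow_and_pow_div_prime (by norm_num)
  · rw [key]
    exact hg.trans (dvd_of_iter hC.lt hC.bit hC.one)
  · intro p hp hpd
    have hp3 : p = 3 ∨ p = 5 ∨ p = 13 := by
      have h1 : p ∣ 3 * 3 * 5 * 13 := by
        have e : (585 : ℕ) = 3 * 3 * 5 * 13 := by norm_num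
        rwa [e] at hpd
      rcases (Nat.Prime.dvd_mul hp).1 h1 with h | h
      · rcases (Nat.Prime.dvd_mul hp).1 h with h | h
        · rcases (Nat.Prime.dvd_mul hp).1 h with h | h <;>
          exact Or.inl ((Nat.prime_dvd_prime_iff_eq hp Nat.prime_three).1 h)
        · exact Or.inr (Or.inl ((Nat.prime_dvd_prime_iff_eq hp Nat.prime_five).1 h))
      · exact Or.inr (Or.inr ((Nat.prime_dvd_prime_iff_eq hp (by norm_num)).1 h))
    have hmain : ∀ e ∈ [195, 117, 45], AdjoinRoot.mk g X ^ e ≠ 1 := by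
      intro e he h1
      rw [key] at h1
      obtain ⟨l, hl⟩ := hC.cop e he
      obtain ⟨q, hq⟩ := cop_dvd hC.lt hC.bit hl
      have h2 : g ∣ 1 - q * (X ^ e - 1) + q * (X ^ e - 1) := dvd_add (hg.trans hq) (h1.mul_left q)
      rw [sub_add_cancel] at h2
      exact hu (isUnit_of_dvd_one h2)
    rcases hp3 with rfl | rfl | rfl
    · exact hmain 195 (by simp)
    · exact hmain 117 (by simp)
    · exact hmain 45 (by simp)

lemma irr_of_cert {F : ℕ} (hC : Cert F) : Irreducible (bp F) := by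
  obtain ⟨hmon, hdeg⟩ := bp_monic hC.bit
  have hne : bp F ≠ 0 := hmon.ne_zero
  have hnu : ¬ IsUnit (bp F) := by
    intro h
    have := natDegree_eq_zero_of_isUnit h
    omega
  obtain ⟨g, hgi, hgd⟩ := WfDvdMonoid.exists_irreducible_factor hnu hne
  have hord := order_root hC hgd hgi.not_isUnit
  have hgdeg : g.natDegree ≤ 12 := hdeg ▸ natDegree_le_of_dvd hgd hne
  have hgpos : 0 < g.natDegree := hgi.natDegree_pos
  have : Fact (Irreducible g) := ⟨hgi⟩
  have hfin : Module.Finite (ZMod 2) (AdjoinRoot g) :=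
    (AdjoinRoot.powerBasis hgi.ne_zero).finite
  have hfin' : Finite (AdjoinRoot g) := Module.finite_of_finite (ZMod 2)
  have := Fintype.ofFinite (AdjoinRoot g)
  have hcard : Fintype.card (AdjoinRoot g) = 2 ^ g.natDegree := by
    rw [Module.card_eq_pow_finrank (K := ZMod 2) (V := AdjoinRoot g), ZMod.card,
      (AdjoinRoot.powerBasis hgi.ne_zero).finrank, AdjoinRoot.powerBasis_dim]
  have hx0 : AdjoinRoot.mk g X ≠ 0 := by
    intro h0
    have h1 : AdjoinRoot.mk g X ^ 585 = 1 := by rw [← hord]; exact pow_orderOf_eq_one _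
    rw [h0, zero_pow (by norm_num)] at h1
    exact zero_ne_one h1
  have hdvd : 585 ∣ 2 ^ g.natDegree - 1 := by
    rw [← hord, ← hcard]
    exact orderOf_dvd_of_pow_eq_one (FiniteField.pow_card_sub_one_eq_one _ hx0)
  have hg12 : g.natDegree = 12 := by
    interval_cases h : g.natDegree <;> first | rfl | (exfalso; revert hdvd; decide)
  obtain ⟨q, hq⟩ := hgd
  have hq0 : q ≠ 0 := by
    rintro rfl
    rw [mul_zero] at hq
    exact hne hq
  have hqdeg : q.natDegree = 0 := by
    have := congrArg natDegree hq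
    rw [natDegree_mul hgi.ne_zero hq0, hdeg, hg12] at this
    omega
  have hqu : IsUnit q := by
    rw [Polynomial.isUnit_iff_degree_eq_zero, degree_eq_natDegree hq0, hqdeg]
    rfl
  have hassoc : Associated g (bp F) := by
    rw [hq]
    exact (associated_mul_unit_right g q hqu)
  exact hassoc.irreducible hgi

lemma exponent_of_cert {F : ℕ} (hC : Cert F) : IsExponent (bp F) 585 := by
  have hirr := irr_of_cert hC
  have hord := order_root hC (dvd_refl (bp F)) hirr.not_isUnit
  have key : ∀ k, AdjoinRoot.mk (bp F) X ^ k = 1 ↔ bp F ∣ X ^ k - 1 := by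
    intro k
    rw [← map_pow, ← sub_eq_zero, ← map_one (AdjoinRoot.mk (bp F)), ← map_sub,
      AdjoinRoot.mk_eq_zero]
  refine ⟨⟨by norm_num, ?_⟩, ?_⟩
  · rw [← key, ← hord]
    exact pow_orderOf_eq_one _
  · rintro e ⟨he1, hed⟩
    rw [← key] at hed
    have := orderOf_dvd_of_pow_eq_one hed
    rw [hord] at this
    exact Nat.le_of_dvd he1 this

lemma aeval_list (l : List ℕ) (s : ℕ → ZMod 2) (t : ℕ) :
    aeval T (l.map fun i => (X : (ZMod 2)[X]) ^ i).sum s t = (l.map fun i => s (t + i)).sum := by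
  induction l with
  | nil => simp
  | cons a l ih =>
    simp only [List.map_cons, List.sum_cons]
    rw [map_add, LinearMap.add_apply, Pi.add_apply, ih, map_pow, aeval_X, T_pow_apply]

lemma aeval_bp (v : ℕ) (s : ℕ → ZMod 2) (t : ℕ) :
    aeval T (bp v) s t = ∑ i ∈ Finset.range 13, if v.testBit i then s (t + i) else 0 := by
  unfold bp
  rw [map_sum, LinearMap.sum_apply, Finset.sum_apply]
  refine Finset.sum_congr rfl fun i _ => ?_
  split_ifs
  · rw [map_pow, aeval_X, T_pow_apply]
  · simp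

lemma rel_of_dvd {F : ℕ} {P : (ZMod 2)[X]} {l : List ℕ} {s : ℕ → ZMod 2}
    (hs : Generated (bp F) s) (hd : bp F ∣ P - (l.map fun i => (X : (ZMod 2)[X]) ^ i).sum) (t : ℕ) :
    aeval T P s t = (l.map fun i => s (t + i)).sum := by
  have h := congrFun (aeval_of_dvd hs hd) t
  rw [map_sub, LinearMap.sub_apply, Pi.sub_apply, aeval_list, Pi.zero_apply, sub_eq_zero] at h
  exact h

/-- a sequence vanishing at the places of a window whose powers of `X` generate everything
vanishes -/
lemma inj_of_cert {F : ℕ} (hF : F < 2 ^ 13) (hF' : F.testBit 12 = true) (pos : List ℕ)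
    (hc : ∀ i < 12, ∃ l : List ℕ, (∀ t ∈ l, t ∈ pos) ∧
      xors (l.map fun i => (stp F)^[i] 1) = 2 ^ i)
    {s : ℕ → ZMod 2} (hs : Generated (bp F) s) (h0 : ∀ t ∈ pos, s t = 0) : s = 0 := by
  have hsmall : ∀ i < 12, s i = 0 := by
    intro i hi
    obtain ⟨l, hl, hx⟩ := hc i hi
    have h := dvd_sum_pow hF hF' l
    rw [hx] at h
    have h1 := rel_of_dvd hs h 0
    rw [aeval_bp] at h1
    have h2 : (l.map fun i => s (0 + i)).sum = 0 := by
      apply List.sum_eq_zero
      intro x hx
      obtain ⟨t, ht, rfl⟩ := List.mem_map.1 hx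
      rw [zero_add]
      exact h0 t (hl t ht)
    rw [h2] at h1
    rw [← h1, Finset.sum_eq_single i]
    · rw [Nat.testBit_two_pow_self, if_pos rfl, zero_add]
    · intro j _ hj
      rw [if_neg]
      rw [Nat.testBit_two_pow]
      simpa using hj.symm
    · intro h
      exact absurd (Finset.mem_range.2 (by omega)) h
  funext t
  have h1 := dvd_pow_sub hF hF' t
  have h2 : bp F ∣ bp ((stp F)^[t] 1) - ([t].map fun i => (X : (ZMod 2)[X]) ^ i).sum := by
    simpa using h1
  have h3 := rel_of_dvd hs h2 0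
  rw [aeval_bp] at h3
  simp only [List.map_cons, List.map_nil, List.sum_cons, List.sum_nil, zero_add, add_zero] at h3
  rw [← h3, Pi.zero_apply]
  apply Finset.sum_eq_zero
  intro i hi
  rcases Nat.lt_or_ge i 12 with h | h
  · split_ifs
    · exact hsmall i h
    · rfl
  · have hi12 : i = 12 := by
      have := Finset.mem_range.1 hi
      omega
    rw [hi12, if_neg]
    rw [Nat.testBit_lt_two_pow (iter_lt hF hF' t)]
    simp

/-- representatives of the shift classes exist -/
lemma exists_folding (r₁ r₂ : ℕ) {P : (ZMod 2)[X]} (e : ℕ) (he : 1 ≤ e) (hd : P ∣ X ^ e - 1) :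
    ∃ C : Set (Arr r₁ r₂), IsFolding r₁ r₂ P C := by
  let Y := {s : ℕ → ZMod 2 // Generated P s ∧ s ≠ 0}
  let st : Setoid Y :=
    { r := fun r s => ∃ k, ∀ t, s.1 t = r.1 (t + k)
      iseqv :=
        { refl := fun s => ⟨0, fun t => rfl⟩
          symm := by
            rintro r s ⟨k, hk⟩
            refine ⟨k * e - k, fun t => ?_⟩
            rw [hk]
            have h1 : k ≤ k * e := Nat.le_mul_of_pos_right k he
            have h2 : t + (k * e - k) + k = t + k * e := by omega
            rw [h2]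
            exact (period_mul (period_of_dvd r.2.1 hd) t k).symm
          trans := by
            rintro r s u ⟨k, hk⟩ ⟨m, hm⟩
            refine ⟨m + k, fun t => ?_⟩
            rw [hm, hk, add_assoc] } }
  refine ⟨_, Set.range (fun q : Quotient st => (Quotient.out q).1), ?_, ?_, rfl⟩
  · rintro r ⟨q, rfl⟩
    exact (Quotient.out q).2
  · intro s hs hs0
    refine ⟨(Quotient.out (Quotient.mk st ⟨s, hs, hs0⟩)).1, ⟨⟨_, rfl⟩, ?_⟩, ?_⟩
    · exact Quotient.exact (Quotient.out_eq (Quotient.mk st ⟨s, hs, hs0⟩))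
    · rintro r ⟨⟨q, rfl⟩, hk⟩
      have h1 : Quotient.mk st (Quotient.out q) = Quotient.mk st ⟨s, hs, hs0⟩ :=
        Quotient.sound hk
      rw [← h1, Quotient.out_eq]

end Q157.Prac
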