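import Mathlib

/-!
Definitions for the quiddity equation `(E_N)` over `ℤ/Nℤ`: `n`-tuples are lists of length `n`.
-/

namespace Q157.Quiddity

open Matrix

variable {N : ℕ}

/-- The matrix `(a, -1; 1, 0)`. -/
def A (a : ZMod N) : Matrix (Fin 2) (Fin 2) (ZMod N) := !![a, -1; 1, 0]

/-- `M [a₁, …, aₙ] = A aₙ * ⋯ * A a₁`. -/
def M : List (ZMod N) → Matrix (Fin 2) (Fin 2) (ZMod N)
  | [] => 1
  | a :: l => M l * A a

/-- A solution of `(E_N)`: a nonempty tuple `c` with `M c = ± Id`. -/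
def IsSolution (c : List (ZMod N)) : Prop := 1 ≤ c.length ∧ (M c = 1 ∨ M c = -1)

/-- `d = a ⊕ b`, that is
`(a₁, …, aₙ) ⊕ (b₁, …, bₘ) = (a₁ + bₘ, a₂, …, aₙ₋₁, aₙ + b₁, b₂, …, bₘ₋₁)`. -/
def IsSum (a b d : List (ZMod N)) : Prop :=
  ∃ (a₁ aₙ b₁ bₘ : ZMod N) (a' b' : List (ZMod N)),
    a = a₁ :: (a' ++ [aₙ]) ∧ b = b₁ :: (b' ++ [bₘ]) ∧
    d = (a₁ + bₘ) :: (a' ++ (aₙ + b₁) :: b')

/-- `b` is a cyclic rotation of `a` or of the reversal of `a`. -/
def Equivalent (a b : List (ZMod N)) : Prop := a ~r b ∨ a.reverse ~r b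

/-- `c` is equivalent to a sum of two solutions of size at least `3`. -/
def IsReducible (c : List (ZMod N)) : Prop :=
  ∃ a b d : List (ZMod N), IsSolution a ∧ 3 ≤ a.length ∧ IsSolution b ∧ 3 ≤ b.length ∧
    IsSum a b d ∧ Equivalent c d

/-- Irreducible solutions of `(E_N)`. -/
def IsIrreducibleSolution (c : List (ZMod N)) : Prop :=
  IsSolution c ∧ 3 ≤ c.length ∧ ¬ IsReducible c

end Q157.Quiddity
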