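import Mathlib

/-! Two families of subsets of a five-element set. -/

namespace Q157.Shatter

/-- The subsets of `{0, 1, 2}` and of `{3, 4}`. -/
def famA : Finset (Finset (Fin 5)) :=
  ({0, 1, 2} : Finset (Fin 5)).powerset ∪ ({3, 4} : Finset (Fin 5)).powerset

/-- The empty set, the points, the arcs of length two and one arc of length three of the
`5`-cycle. -/
def famB : Finset (Finset (Fin 5)) :=
  {∅, {0}, {1}, {2}, {3}, {4}, {0, 1}, {1, 2}, {2, 3}, {3, 4}, {4, 0}, {0, 1, 2}}

set_option maxRecDepth 100000 in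
theorem card_famA : famA.card = 11 := by decide

set_option maxRecDepth 100000 in
theorem card_famB : famB.card = 12 := by decide

theorem empty_mem_famA : ∅ ∈ famA := by decide

theorem empty_mem_famB : ∅ ∈ famB := by decide

theorem sub_mem_famA : ∀ P ∈ ({0, 1, 2} : Finset (Fin 5)).powerset, P ∈ famA := by decide

set_option maxRecDepth 100000 in
theorem union_famA : ∀ P : Finset (Fin 5), ∃ P₁ ∈ famA, ∃ P₂ ∈ famA, P = P₁ ∪ P₂ := by decide

set_option maxRecDepth 100000 in
theorem union_famB : ∀ P : Finset (Fin 5), ∃ P₁ ∈ famB, ∃ P₂ ∈ famB, P = P₁ ∪ P₂ := by decide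

set_option maxRecDepth 100000 in
theorem shatter_famA : ∀ Y : Finset (Fin 5), (∀ P ∈ Y.powerset, ∃ P' ∈ famA, P' ∩ Y = P) →
    Y.card ≤ 3 ∧ (Y.card = 3 → Y = {0, 1, 2}) := by decide

set_option maxRecDepth 100000 in
theorem shatter_famB : ∀ Y : Finset (Fin 5), (∀ P ∈ Y.powerset, ∃ P' ∈ famB, P' ∩ Y = P) →
    Y.card ≤ 2 := by decide

end Q157.Shatter
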