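import Mathlib

/-!
# Uniform bounds for all tuples of subspaces on which a multilinear form vanishes

Let `T` be a multilinear form on `W 1 × ⋯ × W d` and let `𝒰` be a family of tuples `U` of
subspaces of codimension at most `k` such that `T` vanishes on `U 1 × ⋯ × U d`.  Then there is
a single tuple `Z` of subspaces whose codimension is bounded in terms of `d` and `k` only, such that
`T` vanishes on every product of some `U j`'s and the complementary `Z j`'s, `U ∈ 𝒰`.
-/

namespace Pool.Agent.Q157.SliceBound

open Module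

variable {F : Type*} [Field F]

section codim

variable {V : Type*} [AddCommGroup V] [Module F V] [FiniteDimensional F V]

theorem codim_inf (A B : Submodule F V) :
    finrank F (V ⧸ (A ⊓ B)) ≤ finrank F (V ⧸ A) + finrank F (V ⧸ B) := by
  have h1 := Submodule.finrank_quotient_add_finrank A
  have h2 := Submodule.finrank_quotient_add_finrank B
  have h3 := Submodule.finrank_quotient_add_finrank (A ⊓ B)
  have h4 := Submodule.finrank_sup_add_finrank_inf_eq A B
  have h5 := Submodule.finrank_le (A ⊔ B)
  omega

theorem codim_finset_inf {ι : Type*} (s : Finset ι) (f : ι → Submodule F V) (k : ℕ)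
    (h : ∀ i ∈ s, finrank F (V ⧸ f i) ≤ k) : finrank F (V ⧸ s.inf f) ≤ s.card * k := by
  classical
  induction s using Finset.induction_on with
  | empty =>
    have h1 := Submodule.finrank_quotient_add_finrank (⊤ : Submodule F V)
    rw [finrank_top] at h1
    rw [Finset.inf_empty, Finset.card_empty, zero_mul]
    omega
  | insert a s ha ih =>
    rw [Finset.inf_insert, Finset.card_insert_of_notMem ha]
    have h1 := codim_inf (f a) (s.inf f)
    have h2 := ih fun i hi => h i (Finset.mem_insert_of_mem hi)
    have h3 := h a (Finset.mem_insert_self _ _)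
    rw [add_mul, one_mul]
    omega

end codim

variable {d : ℕ} {W : Fin d → Type*} [∀ j, AddCommGroup (W j)] [∀ j, Module F (W j)]
  [∀ j, FiniteDimensional F (W j)]

theorem one_step (T : MultilinearMap F W F) (k c : ℕ) (𝒰 : Set (∀ j, Submodule F (W j)))
    (hV : ∀ U ∈ 𝒰, ∀ w, (∀ j, w j ∈ U j) → T w = 0)
    (hk : ∀ U ∈ 𝒰, ∀ j, finrank F (W j ⧸ U j) ≤ k)
    (Z : ∀ j, Submodule F (W j)) (hZ : ∀ j, finrank F (W j ⧸ Z j) ≤ c)
    (S : Finset (Fin d))
    (hlow : ∀ S', S' ⊂ S → ∀ U ∈ 𝒰, ∀ u z, (∀ j, u j ∈ U j) → (∀ j, z j ∈ Z j) →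
      T (S'.piecewise u z) = 0) :
    ∃ E : ∀ j, Submodule F (W j), (∀ j, finrank F (W j ⧸ E j) ≤ (c + 1) ^ d * k) ∧
      ∀ U ∈ 𝒰, ∀ u z, (∀ j, u j ∈ U j) → (∀ j, z j ∈ Z j) → (∀ j, z j ∈ E j) →
        T (S.piecewise u z) = 0 := by
  classical
  choose Y hY using fun j => (Z j).exists_isCompl
  let m : Fin d → ℕ := fun j => finrank F (Y j)
  have hm : ∀ j, m j ≤ c := by
    intro j
    have := (Submodule.quotientEquivOfIsCompl (Z j) (Y j) (hY j)).finrank_eq
    change finrank F (Y j) ≤ c
    rw [← this]; exact hZ j
  let b : ∀ j, Basis (Fin (m j)) F (Y j) := fun j => finBasis F (Y j)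
  let B : (∀ j, Option (Fin (m j))) → ∀ j, W j := fun r j =>
    match r j with
    | none => 0
    | some a => (b j a : W j)
  let G : (∀ j, Option (Fin (m j))) → (∀ j, Z j) → F := fun r z =>
    T (S.piecewise (B r) (fun j => (z j : W j)))
  let H : Set ((∀ j, Z j) → F) := {h | ∃ U ∈ 𝒰, ∃ u : ∀ j, W j, (∀ j, u j ∈ U j) ∧
    h = fun z => T (S.piecewise u (fun j => (z j : W j)))}
  have hsub : H ⊆ Submodule.span F (Set.range G) := by
    rintro h ⟨U, hU, u, hu, rfl⟩
    -- decompose `u`
    have hdec : ∀ j, ∃ z ∈ Z j, ∃ y ∈ Y j, z + y = u j := by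
      intro j
      have : u j ∈ Z j ⊔ Y j := by rw [(hY j).sup_eq_top]; exact Submodule.mem_top
      exact Submodule.mem_sup.1 this
    choose z0 hz0 y hy hzy using hdec
    let co : ∀ j, Fin (m j) → F := fun j a => (b j).repr ⟨y j, hy j⟩ a
    have hco : ∀ j, y j = ∑ a, co j a • (b j a : W j) := by
      intro j
      have h1 := (b j).sum_repr ⟨y j, hy j⟩
      have h2 := congrArg (Subtype.val) h1
      rw [AddSubmonoidClass.coe_finsetSum] at h2
      simp only [Submodule.coe_smul] at h2
      exact h2.symm
    let cc : (∀ j, Option (Fin (m j))) → Fin d → F := fun r j =>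
      match r j with
      | none => 1
      | some a => co j a
    let A : ∀ j, Finset (Option (Fin (m j))) := fun j =>
      Finset.univ.filter fun o => (o = none ↔ j ∉ S)
    have hsum : (fun z : ∀ j, Z j => T (S.piecewise u (fun j => (z j : W j)))) =
        ∑ r ∈ Fintype.piFinset A, (∏ j ∈ S, cc r j) • G r := by
      funext z
      -- replace `u` by `y`
      have h1 : T (S.piecewise u (fun j => (z j : W j))) =
          T (S.piecewise y (fun j => (z j : W j))) := by
        let m' : ∀ j, W j := S.piecewise (fun j => - z0 j) (fun j => (z j : W j))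
        have hm' : ∀ j, m' j ∈ Z j := by
          intro j
          by_cases hj : j ∈ S
          · simp only [m', Finset.piecewise_eq_of_mem _ _ _ hj]
            exact (Z j).neg_mem (hz0 j)
          · simp only [m', Finset.piecewise_eq_of_notMem _ _ _ hj]
            exact (z j).2
        have h2 := T.map_piecewise_add u m' S
        have h3 : S.piecewise (u + m') m' = S.piecewise y (fun j => (z j : W j)) := by
          funext j
          by_cases hj : j ∈ S
          · simp only [Finset.piecewise_eq_of_mem _ _ _ hj, Pi.add_apply, m', ← hzy j]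
            abel
          · simp only [Finset.piecewise_eq_of_notMem _ _ _ hj, m']
        have h4 : S.piecewise u m' = S.piecewise u (fun j => (z j : W j)) := by
          funext j
          by_cases hj : j ∈ S
          · simp only [Finset.piecewise_eq_of_mem _ _ _ hj]
          · simp only [Finset.piecewise_eq_of_notMem _ _ _ hj, m']
        rw [h3, Finset.sum_eq_single S, h4] at h2
        · exact h2.symm
        · intro S' hS' hne
          exact hlow S' (Finset.ssubset_iff_subset_ne.2 ⟨Finset.mem_powerset.1 hS', hne⟩) U hU u m'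
            hu hm'
        · intro h; exact absurd (Finset.mem_powerset_self S) h
      rw [h1]
      let g : ∀ j, Option (Fin (m j)) → W j := fun j o =>
        match o with
        | none => (z j : W j)
        | some a => co j a • (b j a : W j)
      have h2 : S.piecewise y (fun j => (z j : W j)) = fun j => ∑ o ∈ A j, g j o := by
        funext j
        simp only [A, Finset.sum_filter, Fintype.sum_option]
        by_cases hj : j ∈ S
        · rw [Finset.piecewise_eq_of_mem _ _ _ hj, hco j]
          simp [hj, g]
        · rw [Finset.piecewise_eq_of_notMem _ _ _ hj]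
          simp [hj, g]
      rw [h2, T.map_sum_finset, Finset.sum_apply]
      refine Finset.sum_congr rfl fun r hr => ?_
      rw [Fintype.mem_piFinset] at hr
      have h3 : (fun j => g j (r j)) = S.piecewise
          (fun j => cc r j • (S.piecewise (B r) (fun j => (z j : W j))) j)
          (S.piecewise (B r) (fun j => (z j : W j))) := by
        funext j
        have hrj := hr j
        simp only [A, Finset.mem_filter, Finset.mem_univ, true_and] at hrj
        by_cases hj : j ∈ S
        · simp only [Finset.piecewise_eq_of_mem _ _ _ hj]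
          cases ho : r j with
          | none => exact absurd (hrj.1 ho) (by simpa using hj)
          | some a => simp only [g, cc, B, ho]
        · simp only [Finset.piecewise_eq_of_notMem _ _ _ hj]
          have := hrj.2 hj
          simp only [g, this]
      rw [h3, T.map_piecewise_smul]
      rfl
    rw [hsum]
    apply Submodule.sum_mem
    intro r _
    apply Submodule.smul_mem
    exact Submodule.subset_span ⟨r, rfl⟩
  haveI : FiniteDimensional F (Submodule.span F (Set.range G)) :=
    FiniteDimensional.span_of_finite F (Set.finite_range G)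
  have hle : Submodule.span F H ≤ Submodule.span F (Set.range G) := Submodule.span_le.2 hsub
  haveI : FiniteDimensional F (Submodule.span F H) := Submodule.finiteDimensional_of_le hle
  have hfin : finrank F (Submodule.span F H) ≤ (c + 1) ^ d := by
    calc finrank F (Submodule.span F H) ≤ finrank F (Submodule.span F (Set.range G)) :=
          Submodule.finrank_mono hle
      _ ≤ Fintype.card (∀ j, Option (Fin (m j))) := finrank_range_le_card G
      _ = ∏ j, (m j + 1) := by rw [Fintype.card_pi]; simp
      _ ≤ ∏ _j : Fin d, (c + 1) := Finset.prod_le_prod' fun j _ => Nat.add_le_add_right (hm j) 1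
      _ = (c + 1) ^ d := by simp
  obtain ⟨f, hf1, hf2, -⟩ := Submodule.exists_fun_fin_finrank_span_eq F H
  choose Ui hUi ui hui hfi using hf1
  refine ⟨fun j => Finset.univ.inf fun i => Ui i j, ?_, ?_⟩
  · intro j
    refine (codim_finset_inf _ _ k fun i _ => hk (Ui i) (hUi i) j).trans ?_
    rw [Finset.card_univ, Fintype.card_fin]
    exact Nat.mul_le_mul_right _ hfin
  · intro U hU u z hu hz hE
    have hmem : (fun z : ∀ j, Z j => T (S.piecewise u (fun j => (z j : W j)))) ∈
        Submodule.span F (Set.range f) := by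
      rw [hf2]
      exact Submodule.subset_span ⟨U, hU, u, hu, rfl⟩
    let zz : ∀ j, Z j := fun j => ⟨z j, hz j⟩
    have hker : Submodule.span F (Set.range f) ≤
        LinearMap.ker (LinearMap.proj zz : ((∀ j, Z j) → F) →ₗ[F] F) := by
      rw [Submodule.span_le]
      rintro _ ⟨i, rfl⟩
      change f i zz = 0
      rw [hfi i]
      apply hV (Ui i) (hUi i)
      intro j
      by_cases hj : j ∈ S
      · rw [Finset.piecewise_eq_of_mem _ _ _ hj]; exact hui i j
      · rw [Finset.piecewise_eq_of_notMem _ _ _ hj]
        have := hE j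
        rw [Submodule.mem_finsetInf] at this
        exact this i (Finset.mem_univ _)
    exact hker hmem

/-- The bound. -/
def cb (d k : ℕ) : ℕ → ℕ
  | 0 => k
  | r + 1 => cb d k r + 2 ^ d * ((cb d k r + 1) ^ d * k)

theorem star (T : MultilinearMap F W F) (k : ℕ) (𝒰 : Set (∀ j, Submodule F (W j)))
    (hV : ∀ U ∈ 𝒰, ∀ w, (∀ j, w j ∈ U j) → T w = 0)
    (hk : ∀ U ∈ 𝒰, ∀ j, finrank F (W j ⧸ U j) ≤ k) (hne : 𝒰.Nonempty) (r : ℕ) :
    ∃ Z : ∀ j, Submodule F (W j), (∀ j, finrank F (W j ⧸ Z j) ≤ cb d k r) ∧
      ∀ S : Finset (Fin d), S.card ≤ r → ∀ U ∈ 𝒰, ∀ u z, (∀ j, u j ∈ U j) → (∀ j, z j ∈ Z j) →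
        T (S.piecewise u z) = 0 := by
  classical
  induction r with
  | zero =>
    obtain ⟨U₀, hU₀⟩ := hne
    refine ⟨U₀, hk U₀ hU₀, fun S hS U hU u z hu hz => ?_⟩
    have : S = ∅ := Finset.card_eq_zero.1 (Nat.le_zero.1 hS)
    subst this
    rw [Finset.piecewise_empty]
    exact hV U₀ hU₀ z hz
  | succ r ih =>
    obtain ⟨Z, hZ, hlow⟩ := ih
    have hstep : ∀ S : Finset (Fin d), ∃ E : ∀ j, Submodule F (W j),
        (∀ j, finrank F (W j ⧸ E j) ≤ (cb d k r + 1) ^ d * k) ∧
        (S.card = r + 1 → ∀ U ∈ 𝒰, ∀ u z, (∀ j, u j ∈ U j) → (∀ j, z j ∈ Z j) →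
          (∀ j, z j ∈ E j) → T (S.piecewise u z) = 0) := by
      intro S
      by_cases hS : S.card = r + 1
      · obtain ⟨E, h1, h2⟩ := one_step T k (cb d k r) 𝒰 hV hk Z hZ S (by
          intro S' hS'
          apply hlow
          have := Finset.card_lt_card hS'
          omega)
        exact ⟨E, h1, fun _ => h2⟩
      · refine ⟨fun _ => ⊤, fun j => ?_, fun h => absurd h hS⟩
        have h1 := Submodule.finrank_quotient_add_finrank (⊤ : Submodule F (W j))
        rw [finrank_top] at h1
        change finrank F (W j ⧸ (⊤ : Submodule F (W j))) ≤ _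
        omega
    choose E hE1 hE2 using hstep
    refine ⟨fun j => Z j ⊓ Finset.univ.inf fun S => E S j, ?_, ?_⟩
    · intro j
      refine (codim_inf _ _).trans ?_
      have h1 := codim_finset_inf Finset.univ (fun S => E S j) ((cb d k r + 1) ^ d * k)
        fun S _ => hE1 S j
      rw [Finset.card_univ, Fintype.card_finset, Fintype.card_fin] at h1
      exact add_le_add (hZ j) h1
    · intro S hS U hU u z hu hz
      have hz1 : ∀ j, z j ∈ Z j := fun j => (Submodule.mem_inf.1 (hz j)).1
      rcases Nat.lt_or_ge S.card (r + 1) with h | h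
      · exact hlow S (by omega) U hU u z hu hz1
      · refine hE2 S (by omega) U hU u z hu hz1 fun j => ?_
        have := (Submodule.mem_inf.1 (hz j)).2
        rw [Submodule.mem_finsetInf] at this
        exact this S (Finset.mem_univ _)

/-- **The common subspaces.**  If moreover `k` is the least total codimension of a tuple on which
`T` vanishes, then there are subspaces `Z j` of bounded codimension contained in `U j` for every
tuple `U` of total codimension `k` on which `T` vanishes. -/
theorem exists_common (T : MultilinearMap F W F) (k : ℕ)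
    (hmin : ∀ U : ∀ j, Submodule F (W j), (∀ w, (∀ j, w j ∈ U j) → T w = 0) →
      k ≤ ∑ j, finrank F (W j ⧸ U j)) :
    ∃ Z : ∀ j, Submodule F (W j), (∀ j, finrank F (W j ⧸ Z j) ≤ cb d k d) ∧
      ∀ U : ∀ j, Submodule F (W j), (∀ w, (∀ j, w j ∈ U j) → T w = 0) →
        ∑ j, finrank F (W j ⧸ U j) ≤ k → ∀ j, Z j ≤ U j := by
  classical
  let 𝒰 : Set (∀ j, Submodule F (W j)) := {U | (∀ w, (∀ j, w j ∈ U j) → T w = 0) ∧
    ∑ j, finrank F (W j ⧸ U j) ≤ k}
  by_cases hne : 𝒰.Nonempty
  · obtain ⟨Z, hZ, hall⟩ := star T k 𝒰 (fun U hU => hU.1) (fun U hU j =>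
      (Finset.single_le_sum (f := fun j => finrank F (W j ⧸ U j)) (fun _ _ => Nat.zero_le _)
        (Finset.mem_univ j)).trans hU.2) hne d
    refine ⟨Z, hZ, fun U hU1 hU2 j => ?_⟩
    -- `T` vanishes on `U + Z`
    have hvan : ∀ w, (∀ j, w j ∈ U j ⊔ Z j) → T w = 0 := by
      intro w hw
      choose u hu z hz huz using fun j => Submodule.mem_sup.1 (hw j)
      have : w = u + z := by funext j; exact (huz j).symm
      rw [this, T.map_add_univ]
      apply Finset.sum_eq_zero
      intro S _
      refine hall S ?_ U ⟨hU1, hU2⟩ u z hu hz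
      have := Finset.card_le_univ S
      rwa [Fintype.card_fin] at this
    have h1 := hmin (fun j => U j ⊔ Z j) hvan
    have h2 : ∀ j, finrank F (W j ⧸ (U j ⊔ Z j)) ≤ finrank F (W j ⧸ U j) := by
      intro j
      have h3 := Submodule.finrank_quotient_add_finrank (U j ⊔ Z j)
      have h4 := Submodule.finrank_quotient_add_finrank (U j)
      have h5 : finrank F (U j) ≤ finrank F ((U j ⊔ Z j : Submodule F (W j))) :=
        Submodule.finrank_mono le_sup_left
      omega
    have h3 : finrank F (W j ⧸ (U j ⊔ Z j)) = finrank F (W j ⧸ U j) := by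
      by_contra hne
      have h4 : finrank F (W j ⧸ (U j ⊔ Z j)) < finrank F (W j ⧸ U j) := lt_of_le_of_ne (h2 j) hne
      have h5 := Finset.sum_lt_sum (s := Finset.univ) (fun j _ => h2 j) ⟨j, Finset.mem_univ _, h4⟩
      omega
    have h4 := Submodule.finrank_quotient_add_finrank (U j ⊔ Z j)
    have h5 := Submodule.finrank_quotient_add_finrank (U j)
    have h6 : U j = U j ⊔ Z j := Submodule.eq_of_le_of_finrank_le le_sup_left (by omega)
    rw [h6]
    exact le_sup_right
  · refine ⟨fun _ => ⊤, fun j => ?_, fun U hU1 hU2 => absurd ⟨U, hU1, hU2⟩ hne⟩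
    have h1 := Submodule.finrank_quotient_add_finrank (⊤ : Submodule F (W j))
    rw [finrank_top] at h1
    change finrank F (W j ⧸ (⊤ : Submodule F (W j))) ≤ _
    omega

end Pool.Agent.Q157.SliceBound
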