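import Mathlib

/-!
# Data of a 13 x 27 Youden-type design

Points are pairs `(a, v)` with `a` modulo 13 and `v` in the field with 27 elements, coded by the
numbers below 27 (three digits in base 3).
-/

namespace Pool.Agent.Q157.Youden

open Finset

/-- Points. -/
abbrev Pt : Type := Fin 13 × Fin 27

/-- Multiplication of `v` by the `a`-th square. -/
def mulS (a : Fin 13) (v : Fin 27) : Fin 27 :=
  ⟨((1349131630097903892796024833036036840511032543702150313436199330992789874673226942234906572520361714588686946832240629479576848978980837054613116632244194963687905711445586931719750705864638349729868018598434574327176855586978922008891740737847218710544957454800212701049050497829825855637310347803520784786268620743307373635449393877283739827820411921071097104254775659747996221220621402293556553314187426812856239416990823505507236572181937924233599279971703119190528159083346272511975351107557564333971801889249619553147783200 : ℕ)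
    >>> (5 * (27 * a.val + v.val))) % 32 % 27, Nat.mod_lt _ (by norm_num)⟩

/-- Addition of a constant `t < 3`. -/
def addT (t : Fin 3) (v : Fin 27) : Fin 27 :=
  ⟨(v.val / 3 * 3 + (v.val % 3 + t.val) % 3) % 27, Nat.mod_lt _ (by norm_num)⟩

/-- Subtraction of a constant `t < 3`. -/
def subT (t : Fin 3) (v : Fin 27) : Fin 27 :=
  ⟨(v.val / 3 * 3 + (v.val % 3 + (3 - t.val)) % 3) % 27, Nat.mod_lt _ (by norm_num)⟩

/-- The three partitions into 27 parts. -/
def F (t : Fin 3) (x : Pt) : Fin 27 := mulS x.1 (addT t x.2)

/-- The solution `v` of `F t (a, v) = p`. -/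
def vinv (t : Fin 3) (a : Fin 13) (p : Fin 27) : Fin 27 :=
  subT t (mulS ⟨(13 - a.val) % 13, Nat.mod_lt _ (by norm_num)⟩ p)

/-- The three functions `g`. -/
def g (i : Fin 3) (v : Fin 27) : ℕ :=
  ((2212646839171680442813767718046592239549733436084140867246165169966929791625983724012666876116992 : ℕ)
    >>> (4 * (27 * i.val + v.val))) % 16

/-- The three partitions into 13 parts. -/
def G (i : Fin 3) (x : Pt) : Fin 13 := ⟨(x.1.val + g i x.2) % 13, Nat.mod_lt _ (by norm_num)⟩

/-- The solution `a` of `G i (a, v) = w`. -/
def ainv (i : Fin 3) (v : Fin 27) (w : Fin 13) : Fin 13 :=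
  ⟨(w.val + 26 - g i v) % 13, Nat.mod_lt _ (by norm_num)⟩

/-- The Paley matrix of order 27. -/
def s (p q : Fin 27) : ℕ :=
  ((663363178685804580252734015980265062557264487351234011725723105888032928897006492943646962786199504861084722025096954759728578120758040286518961344285439026301669549602586252824738758003116397742143303987834490406943682 : ℕ)
    >>> (27 * p.val + q.val)) % 2

theorem F_iff : ∀ (t : Fin 3) (a : Fin 13) (p v : Fin 27), F t (a, v) = p ↔ v = vinv t a p := by
  decide +kernel

theorem G_iff : ∀ (i : Fin 3) (v : Fin 27) (w a : Fin 13), G i (a, v) = w ↔ a = ainv i v w := by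
  decide +kernel

theorem FF_count : ∀ (t : Fin 3) (p q : Fin 27),
    (∑ a : Fin 13, if F (t + 1) (a, vinv t a p) = q then 1 else 0) = s p q := by
  decide +kernel

theorem FG_count : ∀ (t i : Fin 3) (p : Fin 27) (w : Fin 13),
    (∑ a : Fin 13, if G i (a, vinv t a p) = w then 1 else 0) = 1 := by
  decide +kernel

theorem GG_count : ∀ (i j : Fin 3), i ≠ j → ∀ (w w' : Fin 13),
    (∑ v : Fin 27, if G j (ainv i v w, v) = w' then 1 else 0) = if w = w' then 3 else 2 := by
  decide +kernel

theorem s_le : ∀ p q : Fin 27, s p q = 0 ∨ s p q = 1 := by decide +kernel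

theorem s_add : ∀ p q : Fin 27, s p q + s q p + (if p = q then 1 else 0) = 1 := by
  decide +kernel

theorem s_mul_t : ∀ p q : Fin 27, (∑ r : Fin 27, s p r * s q r) = if p = q then 13 else 6 := by
  decide +kernel

theorem s_t_mul : ∀ p q : Fin 27, (∑ r : Fin 27, s r p * s r q) = if p = q then 13 else 6 := by
  decide +kernel

theorem s_sq : ∀ p q : Fin 27, (∑ r : Fin 27, s p r * s r q) = 6 * s p q + 7 * s q p := by
  decide +kernel

end Pool.Agent.Q157.Youden
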